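import Pool.Agent.Helper14.WLK.ZmC
import Pool.Agent.Helper79.HLD.Co

/-! Corners: the types of a zoom (assembly of the analysis in a box with the axioms of a corner). -/

set_option autoImplicit false
set_option linter.unusedSectionVars false

namespace Pool.Agent.Helper14.WLK

open Finset Filter Topology Pool.Agent.Helper69.RK Pool.Agent.Helper31.EC Pool.Agent.Helper31.EC.Sp
open Pool.Agent.Helper31.EC.QS Pool.Agent.Helper57.TA Pool.Agent.Helper21.DO Pool.Agent.Helper95.RIG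
open Pool.Agent.Helper79.JET Pool.Agent.Helper79.WLK Pool.Agent.Helper13.AM
open Pool.Agent.Helper79.HLD (FlaF)

noncomputable section

/-- THEOREM R for one box and one type: literal base line `bW`, functions `fW` of the curve -/
structure ThR {S : Sp} (B X K : S.L) (t : QS S) {α : ℕ → Type} (bW : ∀ k, (S.F k).Ω → α k) {ν : Type} [Fintype ν]
    (fW : ν → QS S) : Prop where
  bdd : Bdd bW
  io : Sp.io bW = B
  f : vd fW 1 ≤ X
  thr : ∀ (W : Sp) (P P' : Pj W S), Ag bW P P' → (∀ a, P.qs (fW a) = P'.qs (fW a)) →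
    P'.map K ≤ P.map (B ⊔ dg t 1 ⊔ K) ⊔ P'.map (dg t 1)

/-- a polynomial from its coefficients -/
def ply {S : Sp} {n : ℕ} (e : Fin (n + 1) → QS S) : Polynomial (QS S) :=
  ∑ l : Fin (n + 1), Polynomial.monomial (l : ℕ) (e l)

theorem ply_eval {S : Sp} {n : ℕ} (e : Fin (n + 1) → QS S) (t : QS S) : (ply e).eval t = pe e t := by
  unfold ply pe
  rw [Polynomial.eval_finset_sum]
  apply Finset.sum_congr rfl
  intro l _
  rw [Polynomial.eval_monomial]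

theorem ply_coeff {S : Sp} {n : ℕ} (e : Fin (n + 1) → QS S) (j : ℕ) :
    (∃ l : Fin (n + 1), (l : ℕ) = j ∧ (ply e).coeff j = e l) ∨ (ply e).coeff j = 0 := by
  classical
  unfold ply
  rw [Polynomial.finset_sum_coeff]
  simp only [Polynomial.coeff_monomial]
  by_cases h : j < n + 1
  · refine Or.inl ⟨⟨j, h⟩, rfl, ?_⟩
    rw [Finset.sum_eq_single (⟨j, h⟩ : Fin (n + 1))]
    · rw [if_pos rfl]
    · intro b _ hb
      rw [if_neg]
      intro hbj
      exact hb (Fin.ext hbj)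
    · intro hj
      exact absurd (Finset.mem_univ _) hj
  · refine Or.inr ?_
    apply Finset.sum_eq_zero
    intro l _
    rw [if_neg]
    intro hl
    exact h (hl ▸ l.isLt)

theorem ply_CS1 {S : Sp} {n : ℕ} {e : Fin (n + 1) → QS S} {A : Subring (QS S)} (h : ∀ l, e l ∈ A) : ply e ∈ CS1 A := by
  intro j
  rcases ply_coeff e j with ⟨l, _, hl⟩ | hl
  · rw [hl]
    exact h l
  · rw [hl]
    exact A.zero_mem

variable {S : Sp} {d N r : ℕ} {c : CD S d N r} {w : Fin N → ℝ} {z : Fin N} {ρ : ℝ}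

/-- the height over the curve and the box -/
theorem time_corner (hA : c.Ax w z ρ) {y : ℝ} (hy : 0 ≤ y) (hy1 : w z * y ≤ 1) (i : Fin r) {X : S.L}
    (hX : X ≤ c.xi i) : 1 - y ≤ h (dg (c.q 0) 1) (X ⊔ c.K y) := by
  have h1 : h (dg (c.q 0) 1) (c.xi i ⊔ dg (c.q 0) y) ≤ h (dg (c.q 0) 1) (X ⊔ c.K y) :=
    h_anti (sup_le (hX.trans le_sup_left) (hA.bx.xi y hy hy1 i))
  have h2 := h_triangle (dg (c.q 0) 1) (dg (c.q 0) y) (c.xi i)
  rw [hA.ln.time i, sup_comm (dg (c.q 0) y)] at h2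
  have h3 : h (dg (c.q 0) y) (c.xi i) ≤ y := (h_le_H _ _).trans (H_dg_le _ hy)
  linarith

/-- THE DATA OF ONE TYPE IN A BOX, from the axioms of a corner, flat lower coordinates, frames and Theorem R -/
theorem farK_corner (hA : c.Ax w z ρ) (i : Fin r) {y kap ℓ : ℝ} (hy : 0 ≤ y) (hy1 : w z * y ≤ 1) {κ : Type}
    [Fintype κ] {Rh : κ → QS S} {wt : κ → ℝ} {zz : QS S} {wj : ℝ}
    (hfl : ∀ k, FlaF (Rh k) (c.q 0) kap (c.b i) (c.xi i))
    (hzc : ∃ (n : ℕ) (e : Fin (n + 1) → QS S), (∀ l, dg (e l) 1 ≤ c.xi i) ∧ zz - pe e (c.q 0) ∈ Id S kap)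
    {νg : Type} [Fintype νg] {g : νg → QS S} (hg : vd g 1 = c.K y) (hq0 : ∀ a, c.q0 y a ∈ LG g)
    {Pc : κ → MvPolynomial (Fin (d + 1)) (QS S)} {Fc : MvPolynomial (Fin (d + 1) ⊕ κ) (QS S)}
    (hPc : ∀ k, Pc k ∈ CS (LG g)) (hFc : Fc ∈ CS (LG g)) {t' : QS S} (ht' : c.q 0 = c.q0 y 0 + sc S y * t')
    (htk : dg t' 1 ≤ dg (c.q 0) 1 ⊔ c.K y) {Y : κ → QS S} {Yz : QS S}
    (nR : ∀ k, Rh k = MvPolynomial.eval (fun a => c.q a - c.q0 y a) (Pc k) + sc S (wt k * y) * Y k)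
    (nz : zz = MvPolynomial.eval (Sum.elim (fun a => c.q a - c.q0 y a) (fun k => sc S (wt k * y) * Y k)) Fc +
      sc S (wj * y) * Yz)
    (full : Rt ℓ Y (c.b i ⊔ dg (c.q 0) 1 ⊔ c.K y))
    {αW : ℕ → Type} {bW : ∀ k, (S.F k).Ω → αW k} {νW : Type} [Fintype νW] {fW : νW → QS S}
    (hW : ThR (c.b i) (c.xi i) (c.K y) (c.q 0) bW fW) :
    ∃ (nb nx : Type) (_ : Fintype nb) (_ : Fintype nx) (fb : nb → QS S) (fx : nx → QS S),
      (∀ a, ∃ j, fx j = fW a) ∧ vd fx 1 ≤ c.xi i ∧ c.xi i ≤ Sp.io bW ⊔ vd fx 1 ∧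
        FarK bW bW fb fx g (c.q 0) c.q Rh zz wt wj y ℓ kap (c.q0 y 0) (c.q0 y) Pc Fc t' Y Yz := by
  classical
  choose nk ek he1 he2 he3 using hfl
  obtain ⟨nz', ez, hez1, hez2⟩ := hzc
  obtain ⟨Fb, hFb⟩ : ∃ Fb : Finset (QS S), Fb = univ.image (c.a i) ∪ (univ.image (c.u i) ∪
    univ.biUnion fun k => univ.image fun l : Fin (nk k) => ek k l.succ) := ⟨_, rfl⟩
  obtain ⟨Fx, hFx⟩ : ∃ Fx : Finset (QS S), Fx = univ.image fW ∪ (Fb ∪ (univ.image ez ∪
    ((univ.image fun k => ek k 0) ∪ univ.image (c.cv i)))) := ⟨_, rfl⟩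
  have kFb : ∀ x ∈ Fb, dg x 1 ≤ c.b i := by
    intro x hx
    rw [hFb] at hx
    rcases mem_union.mp hx with hx | hx
    · obtain ⟨a, _, rfl⟩ := mem_image.mp hx
      exact (dg_le_vd (c.a i) 1 a).trans (CD.Ln.a_le hA.ln i)
    rcases mem_union.mp hx with hx | hx
    · obtain ⟨a, _, rfl⟩ := mem_image.mp hx
      exact (dg_le_vd (c.u i) 1 a).trans (CD.Ln.u_le hA.ln i)
    · obtain ⟨k, _, hx⟩ := mem_biUnion.mp hx
      obtain ⟨l, _, rfl⟩ := mem_image.mp hx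
      exact he1 k l
  have kFx : ∀ x ∈ Fx, dg x 1 ≤ c.xi i := by
    intro x hx
    rw [hFx] at hx
    rcases mem_union.mp hx with hx | hx
    · obtain ⟨a, _, rfl⟩ := mem_image.mp hx
      exact (dg_le_vd fW 1 a).trans hW.f
    rcases mem_union.mp hx with hx | hx
    · exact (kFb x hx).trans (CD.Ln.xi_b i)
    rcases mem_union.mp hx with hx | hx
    · obtain ⟨l, _, rfl⟩ := mem_image.mp hx
      exact hez1 l
    rcases mem_union.mp hx with hx | hx
    · obtain ⟨k, _, rfl⟩ := mem_image.mp hx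
      exact he2 k
    · obtain ⟨k, _, rfl⟩ := mem_image.mp hx
      exact (dg_le_vd (c.cv i) 1 k).trans le_sup_right
  obtain ⟨fb, hfb⟩ : ∃ fb : {x // x ∈ Fb} → QS S, fb = fun x => x.1 := ⟨_, rfl⟩
  obtain ⟨fx, hfx⟩ : ∃ fx : {x // x ∈ Fx} → QS S, fx = fun x => x.1 := ⟨_, rfl⟩
  have mb : ∀ x ∈ Fb, x ∈ LF bW fb := by
    intro x hx
    have h7 := LF_mem (V := bW) (f := fb) ⟨x, hx⟩
    rwa [hfb] at h7 ⊢
  have mx : ∀ x ∈ Fx, x ∈ LF bW fx := by
    intro x hx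
    have h7 := LF_mem (V := bW) (f := fx) ⟨x, hx⟩
    rwa [hfx] at h7 ⊢
  have bx : ∀ x ∈ Fb, x ∈ Fx := by
    intro x hx
    rw [hFx]
    exact mem_union_right _ (mem_union_left _ hx)
  have vfx : vd fx 1 ≤ c.xi i := by
    rw [vd_le, hfx]
    exact fun x => kFx x.1 x.2
  have hbx : Sp.io bW ⊔ vd fx 1 ≤ c.xi i := sup_le (hW.io.le.trans (CD.Ln.xi_b i)) vfx
  have hbf : ∀ a, fW a ∈ Fx := fun a => by
    rw [hFx]
    exact mem_union_left _ (mem_image_of_mem fW (mem_univ a))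
  have hcv : ∀ a, c.cv i a ∈ Fx := fun a => by
    rw [hFx]
    exact mem_union_right _ (mem_union_right _ (mem_union_right _ (mem_union_right _
      (mem_image_of_mem (c.cv i) (mem_univ a)))))
  refine ⟨{x // x ∈ Fb}, {x // x ∈ Fx}, inferInstance, inferInstance, fb, fx, ?_, vfx, ?_, ?_⟩
  · intro a
    exact ⟨⟨fW a, hbf a⟩, by rw [hfx]⟩
  · refine sup_le (hW.io.ge.trans le_sup_left) ?_
    rw [vd_le]
    intro a
    have h8 := dg_le_vd fx 1 ⟨c.cv i a, hcv a⟩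
    rw [hfx] at h8 ⊢
    exact h8.trans le_sup_right
  refine
    { bdd := hW.bdd
      bddx := hW.bdd
      bx := ⟨fun _ x => x, fun _ _ => rfl⟩
      fbk := by
        rw [vd_le, hfb, hW.io]
        exact fun x => kFb x.1 x.2
      fbx := fun x => by
        rw [hfb]
        exact mx _ (bx x.1 x.2)
      line := fun a => ⟨c.a i a, mb _ ?_, c.u i a, mb _ ?_, hA.ln.line i a⟩
      Rcv := fun k => ⟨ply (ek k), ply_CS1 fun l => mx _ ?_, fun j hj => ?_, ?_⟩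
      zcv := ⟨ply ez, ply_CS1 fun l => mx _ ?_, ?_⟩
      treal := le_antisymm (h_dg_le_one _ _) ?_
      tbox := ?_
      thmR := ?_
      tcg := hq0 0
      qcg := hq0
      Pcg := hPc
      Fcg := hFc
      nt := ht'
      nR := nR
      nz := nz
      tk := by rw [hg]; exact htk
      full := by rw [hW.io, hg]; exact full }
  · rw [hFb]
    exact mem_union_left _ (mem_image_of_mem _ (mem_univ a))
  · rw [hFb]
    exact mem_union_right _ (mem_union_left _ (mem_image_of_mem _ (mem_univ a)))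
  · refine Fin.cases ?_ (fun l => ?_) l
    · rw [hFx]
      exact mem_union_right _ (mem_union_right _ (mem_union_right _ (mem_union_left _
        (mem_image_of_mem (fun k => ek k 0) (mem_univ k)))))
    · apply bx
      rw [hFb]
      exact mem_union_right _ (mem_union_right _ (mem_biUnion.mpr ⟨k, mem_univ k,
        mem_image_of_mem (fun l : Fin (nk k) => ek k l.succ) (mem_univ l)⟩))
  · rcases ply_coeff (ek k) j with ⟨l, hl1, hl2⟩ | hl
    · rw [hl2]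
      have hl0 : l ≠ 0 := by
        rintro rfl
        exact hj hl1.symm
      obtain ⟨l', rfl⟩ := Fin.exists_succ_eq.mpr hl0
      apply mb
      rw [hFb]
      exact mem_union_right _ (mem_union_right _ (mem_biUnion.mpr ⟨k, mem_univ k,
        mem_image_of_mem (fun l : Fin (nk k) => ek k l.succ) (mem_univ l')⟩))
    · rw [hl]
      exact Subring.zero_mem _
  · rw [ply_eval]
    exact he3 k
  · rw [hFx]
    exact mem_union_right _ (mem_union_right _ (mem_union_left _ (mem_image_of_mem ez (mem_univ l))))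
  · rw [ply_eval]
    exact hez2
  · exact (hA.ln.time i).ge.trans (h_anti hbx)
  · rw [hg]
    exact time_corner hA hy hy1 i hbx
  · intro W P P' h1 h2
    rw [hg, hW.io]
    refine hW.thr W P P' h1 fun a => ?_
    have h3 := h2 ⟨fW a, hbf a⟩
    rw [hfx] at h3
    exact h3

/-- TYPES OF THE ZOOM: transports which are polynomials, for all pairs of points of one deep curve, on the zoomed space;
`bT` = any further literal variable of the base line, `fT` = any further functions of the deep curve -/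
theorem types {y e : ℝ} {he : 0 < e} {h1 : e ≤ 1} {Z : ∀ k, Setoid (S.F k).Ω} {c' : CD (S.chg Z e he) d N r}
    (hA : c.Ax w z ρ) (hz : c.ZR w z y e he h1 Z c') (i : Fin r) (hy : 0 < y) (hye : w z * y + e ≤ 1)
    {κ : Type} [Fintype κ] {Rh : κ → QS S} {wt : κ → ℝ} {zz : QS S} {wj kap ℓ cc0 rr : ℝ}
    (hwj : 0 ≤ wj) (hwt : ∀ k, 0 ≤ wt k) (hww : ∀ k, wt k * y + wj * y ≤ 1) (hℓ : 0 < ℓ) (hℓ1 : ℓ ≤ 1)
    (hℓw : ∀ k, ℓ ≤ 1 - wt k * y) (hc0 : 0 ≤ cc0) (hcy : cc0 ≤ y) (hk1 : kap ≤ 1) (hcw : wj * y + cc0 ≤ kap)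
    (hck : ∀ k, wt k * y + cc0 ≤ kap) (hkℓ : ∀ k, wt k * y + ℓ ≤ kap) (hrr1 : rr ≤ 1) (hrr : e * rr ≤ cc0)
    (hfl : ∀ k, FlaF (Rh k) (c.q 0) kap (c.b i) (c.xi i))
    (hzc : ∃ (n : ℕ) (e : Fin (n + 1) → QS S), (∀ l, dg (e l) 1 ≤ c.xi i) ∧ zz - pe e (c.q 0) ∈ Id S kap)
    {νg : Type} [Fintype νg] {g : νg → QS S} (hg : vd g 1 = c.K y) (hq0 : ∀ a, c.q0 y a ∈ LG g)
    {Pc : κ → MvPolynomial (Fin (d + 1)) (QS S)} {Fc : MvPolynomial (Fin (d + 1) ⊕ κ) (QS S)}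
    (hPc : ∀ k, Pc k ∈ CS (LG g)) (hFc : Fc ∈ CS (LG g)) {Y : κ → QS S} {Yz : QS S}
    (nR : ∀ k, Rh k = MvPolynomial.eval (fun a => c.q a - c.q0 y a) (Pc k) + sc S (wt k * y) * Y k)
    (nz : zz = MvPolynomial.eval (Sum.elim (fun a => c.q a - c.q0 y a) (fun k => sc S (wt k * y) * Y k)) Fc +
      sc S (wj * y) * Yz)
    (full : Rt ℓ Y (c.b i ⊔ dg (c.q 0) 1 ⊔ c.K y))
    {αW : ℕ → Type} {bW : ∀ k, (S.F k).Ω → αW k} {νW : Type} [Fintype νW] {fW : νW → QS S}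
    (hW : ThR (c.b i) (c.xi i) (c.K y) (c.q 0) bW fW)
    {αT : ℕ → Type} (bT : ∀ k, ((S.chg Z e he).F k).Ω → αT k) (hbT : Bdd bT) (hbT2 : io bT ≤ chgL Z e he (c.b i))
    {νT : Type} [Fintype νT] (fT : νT → QS (S.chg Z e he)) (hfT : vd fT 1 ≤ chgL Z e he (c.xi i)) :
    ∃ (αB : ℕ → Type) (bB : ∀ k, ((S.chg Z e he).F k).Ω → αB k) (nb nx : Type) (_ : Fintype nb) (_ : Fintype nx)
      (fb : nb → QS (S.chg Z e he)) (fx : nx → QS (S.chg Z e he)) (ρ : κ → Polynomial (QS (S.chg Z e he)))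
      (ζ : Polynomial (QS (S.chg Z e he))) (cc : ℕ → MvPolynomial κ (QS (S.chg Z e he))),
      io bB = chgL Z e he (c.b i) ∧ (∃ u : ∀ k, αB k → αT k, ∀ k ω, bT k ω = u k (bB k ω)) ∧
        (∀ a, ∃ j, fx j = fT a) ∧ vd fx 1 ≤ chgL Z e he (c.xi i) ∧
        Cur bB bB fb fx (c'.q 0) c'.q (fun k => cQ Z e he h1 (Y k)) (cQ Z e he h1 Yz) rr ρ ζ cc := by
  classical
  have hZ : Z = (hA.bx.bdd y).toInf.1 := funext hz.base
  subst hZ
  obtain ⟨V, hV⟩ : ∃ V : S.Inf, V = (hA.bx.bdd y).toInf := ⟨_, rfl⟩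
  have hy1 : w z * y ≤ 1 := by linarith
  have hwz1 : 1 ≤ w z := (hA.w1 z).le
  have hyy : y ≤ w z * y := by nlinarith
  have hK : cl (hA.bx.bdd y).toInf = c.K y := (io_eq _).symm
  obtain ⟨X0, hX0, hX0'⟩ := hz.q 0
  have hy2 : y < 1 := by linarith
  have hq0d : dg (c.q0 y 0) 1 ≤ c.K y := (LG_know (hq0 0)).trans hg.le
  obtain ⟨t', ht1, ht2⟩ := exists_div' (f := c.q 0 - c.q0 y 0) hy.le hy2.le (hA.bx.fq y hy.le hy1 0)
  have htt : c.q 0 = c.q0 y 0 + sc S y * t' := by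
    rw [← ht1]
    ring
  have htk : dg t' 1 ≤ dg (c.q 0) 1 ⊔ c.K y :=
    ht2.trans ((dg_sub_le _ _ le_rfl).trans (sup_le_sup_left hq0d _))
  obtain ⟨nb0, nx0, i1, i2, fb0, fx0, hf1, hf2, hf3, hF⟩ := farK_corner hA i hy.le hy1 (kap := kap) (ℓ := ℓ) (wt := wt)
    (wj := wj) hfl hzc hg hq0 hPc hFc htt htk nR nz full hW
  -- the height of the zoom
  have hct : c'.q 0 = cQ (hA.bx.bdd y).toInf.1 e he h1 t' := by
    rw [hX0', cQ_eq]
    have h3 : sc S y * X0 = sc S y * t' := by rw [← hX0, ← ht1]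
    exact Id_mono (by linarith : e ≤ 1 - y) (Far.sub_mem_of_sc hy.le h3)
  -- literal variables
  have hbW : Bdd (S := S.chg (hA.bx.bdd y).toInf.1 e he) bW := chg_VB _ e he hW.bdd
  have hioW : io (S := S.chg (hA.bx.bdd y).toInf.1 e he) bW = chgL (hA.bx.bdd y).toInf.1 e he (c.b i) := by
    rw [← hW.io]
    exact (chgL_io _ e he hW.bdd).symm
  have hio : io (S := S.chg (hA.bx.bdd y).toInf.1 e he) (fun k ω => (bW k ω, bT k ω)) =
      chgL (hA.bx.bdd y).toInf.1 e he (c.b i) := by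
    have h4 := io_pair (S := S.chg (hA.bx.bdd y).toInf.1 e he) hbW hbT
    rw [hioW, sup_eq_left.mpr hbT2] at h4
    exact h4
  have hbB : Bdd (S := S.chg (hA.bx.bdd y).toInf.1 e he) (fun k ω => (bW k ω, bT k ω)) := hbW.pair hbT
  obtain ⟨nb, nx, i3, i4, fb, fx, ρ', ζ, cc, -, hfx1, hfx2, hC⟩ := hF.cur hℓ hy hy2 (mul_nonneg hwj hy.le)
    (fun k => mul_nonneg (hwt k) hy.le) hww hℓ1 hℓw hc0 hcy hk1 hcw hck hkℓ (hA.bx.bdd y).toInf (hK.trans hg.symm) he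
    h1 (by linarith) hrr1 hrr (fun k ω => (bW k ω, bT k ω)) (fun k ω => (bW k ω, bT k ω)) hbB hbB
    ⟨fun _ x => x, fun _ _ => rfl⟩ (by rw [hW.io]; exact hio.ge)
    (by rw [hio]; exact chgL_mono _ e he (hW.io.ge.trans le_sup_left)) hz.q (Empty.elim) fT (by
      rw [vd_le]
      exact fun a => a.elim) (hfT.trans (chgL_mono _ e he hf3))
  · refine ⟨_, _, nb, nx, i3, i4, fb, fx, ρ', ζ, cc, hio, ⟨fun _ x => x.2, fun _ _ => rfl⟩, hfx1, ?_, ?_⟩
    · exact hfx2.trans (chgL_mono _ e he (sup_le (hW.io.le.trans (CD.Ln.xi_b i)) hf2))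
    · rw [hct]
      exact hC

end

end Pool.Agent.Helper14.WLK
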