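import Pool.Agent.Helper57.TA.Uni
import Pool.Agent.Helper95.RIG.Gl
import Pool.Agent.Helper21.DO.Pl

/-! Transports on the zoom: copies over a literal variable and finitely many functions. -/

set_option autoImplicit false
set_option linter.unusedSectionVars false

namespace Pool.Agent.Helper14.WLK

open Finset Filter Topology Pool.Agent.Helper69.RK Pool.Agent.Helper31.EC Pool.Agent.Helper31.EC.Sp
open Pool.Agent.Helper31.EC.QS Pool.Agent.Helper57.TA Pool.Agent.Helper21.DO Pool.Agent.Helper95.RIG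

noncomputable section

/-- literal agreement of a variable at two points -/
def Ag {S : Sp} {α : ℕ → Type} (V : ∀ k, (S.F k).Ω → α k) {W : Sp} (P P' : Pj W S) : Prop :=
  ∀ k w, (W.F k).μ w ≠ 0 → V k (P.π k w) = V k (P'.π k w)

section ag

variable {S : Sp} {α : ℕ → Type} {V : ∀ k, (S.F k).Ω → α k}

theorem Ag.comp {W D : Sp} {P P' : Pj W S} (h : Ag V P P') (r : Pj D W) : Ag V (r.comp P) (r.comp P') := by
  intro k w hw
  exact h k (r.π k w) (r.supp k w hw)

theorem Ag.symm {W : Sp} {P P' : Pj W S} (h : Ag V P P') : Ag V P' P := fun k w hw => (h k w hw).symm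

theorem Ag.trans {W : Sp} {P P' P'' : Pj W S} (h : Ag V P P') (h' : Ag V P' P'') : Ag V P P'' :=
  fun k w hw => (h k w hw).trans (h' k w hw)

theorem Ag.fn {β : ℕ → Type} {X : ∀ k, (S.F k).Ω → β k} (e : ∀ k, α k → β k) (he : ∀ k ω, X k ω = e k (V k ω))
    {W : Sp} {P P' : Pj W S} (h : Ag V P P') : Ag X P P' := by
  intro k w hw
  rw [he, he, h k w hw]

theorem Ag.map_io (hV : Bdd V) {W : Sp} {P P' : Pj W S} (h : Ag V P P') : P.map (io V) = P'.map (io V) := by
  rw [P.map_io, P'.map_io]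
  exact io_congr_supp ((P.bdd_iff V).mpr hV) ((P'.bdd_iff V).mpr hV) h

/-- functions which are constant on the cells of the variable up to the precision of the space are common -/
theorem Ag.qs {W : Sp} {P P' : Pj W S} (h : Ag V P P') {f : QS S}
    (hf : ∀ k ω ω', V k ω = V k ω' → |TR.ev (QS.rep f) k ω - TR.ev (QS.rep f) k ω'| ≤ S.dl 1 k) :
    P.qs f = P'.qs f := by
  have e1 : QS.mk (P.tr (QS.rep f)) = QS.mk (P'.tr (QS.rep f)) := by
    rw [QS.mk_eq]
    refine ⟨fun _ _ => True, fun _ => 1, Sp.Typ_true, Sp.Sub_const _ zero_le_one,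
      Eventually.of_forall fun k w hw _ => ?_⟩
    have h2 := hf k (P.π k w) (P'.π k w) (h k w hw)
    have h3 : W.dl 1 k = S.dl 1 k := by
      unfold Sp.dl
      rw [P.hn k]
    rw [one_mul, h3]
    exact h2
  have e2 : P.qs (QS.mk (QS.rep f)) = P'.qs (QS.mk (QS.rep f)) := e1
  rwa [QS.mk_rep] at e2

/-- a literal variable and finitely many functions -/
theorem exists_lvar (hV : Bdd V) {ι : Type} [Fintype ι] (f : ι → QS S) :
    ∃ (γ : ℕ → Type) (U : ∀ k, (S.F k).Ω → γ k), Bdd U ∧ io U = io V ⊔ vd f 1 ∧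
      (∃ e : ∀ k, γ k → α k, ∀ k ω, V k ω = e k (U k ω)) ∧
      ∀ (W : Sp) (P P' : Pj W S), Ag U P P' → ∀ i, P.qs (f i) = P'.qs (f i) := by
  classical
  set e := (Fintype.equivFin ι).symm with he
  obtain ⟨V0, hV0, hV0v, hV0f⟩ := exists_cell (f ∘ e)
  refine ⟨fun k => α k × (Fin (Fintype.card ι) → ℤ), fun k ω => (V k ω, V0 k ω), hV.pair hV0, ?_,
    ⟨fun k w => w.1, fun k ω => rfl⟩, ?_⟩
  · rw [io_pair hV hV0, hV0v, QS.vd_equiv e f 1]
  · intro W P P' h i
    have h1 : Ag V0 P P' := h.fn (fun k w => w.2) fun k ω => rfl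
    have h2 := h1.qs (hV0f (e.symm i))
    simpa using h2

end ag

section mul

variable {S : Sp} {α : ℕ → Type} {V : ∀ k, (S.F k).Ω → α k} {d : ℕ} (C : Cps S V d)

theorem Cps_Ag (i j : Fin (d + 1)) : Ag V (C.p i) (C.p j) := fun k w hw => C.agree k w hw i j

theorem sup_ite (s : Finset (Fin (d + 1))) (A : Fin (d + 1) → S.L) :
    (univ.sup fun i => (C.p i).map (if i ∈ s then A i else ⊥)) = s.sup fun i => (C.p i).map (A i) := by
  classical
  apply le_antisymm
  · apply Finset.sup_le
    intro i _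
    by_cases h : i ∈ s
    · rw [if_pos h]
      exact Finset.le_sup (f := fun i => (C.p i).map (A i)) h
    · rw [if_neg h, Pj.map_bot]
      exact bot_le
  · apply Finset.sup_le
    intro i hi
    refine le_trans ?_ (Finset.le_sup (f := fun i => (C.p i).map (if i ∈ s then A i else ⊥)) (mem_univ i))
    show _ ≤ (C.p i).map (if i ∈ s then A i else ⊥)
    rw [if_pos hi]

/-- joint entropies of blocks of copies -/
theorem h_block0 (s : Finset (Fin (d + 1))) (A : Fin (d + 1) → S.L) :
    h (s.sup fun i => (C.p i).map (A i)) C.v = ∑ i ∈ s, h (A i) (io V) := by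
  classical
  have h1 := C.indep fun i => if i ∈ s then A i else ⊥
  rw [sup_ite C s A] at h1
  rw [show C.v = (C.p 0).map (io V) from rfl, h1]
  have h2 : ∀ i, h (if i ∈ s then A i else ⊥) (io V) = if i ∈ s then h (A i) (io V) else 0 := by
    intro i
    split_ifs
    · rfl
    · exact h_zero bot_le
  rw [Finset.sum_congr rfl fun i _ => h2 i, Finset.sum_ite_mem, Finset.univ_inter]

theorem h_block {s t : Finset (Fin (d + 1))} (hst : Disjoint s t) (A B : Fin (d + 1) → S.L) :
    h (s.sup fun i => (C.p i).map (A i)) ((t.sup fun i => (C.p i).map (B i)) ⊔ C.v) = ∑ i ∈ s, h (A i) (io V) := by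
  classical
  have h1 := h_block0 C (s ∪ t) fun i => if i ∈ s then A i else B i
  have h2 := h_block0 C t B
  have e1 : ((s ∪ t).sup fun i => (C.p i).map (if i ∈ s then A i else B i)) =
      (t.sup fun i => (C.p i).map (B i)) ⊔ (s.sup fun i => (C.p i).map (A i)) := by
    rw [Finset.sup_union, sup_comm]
    congr 1
    · apply Finset.sup_congr rfl
      intro i hi
      rw [if_neg fun hs => (Finset.disjoint_left.mp hst) hs hi]
    · apply Finset.sup_congr rfl
      intro i hi
      rw [if_pos hi]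
  rw [e1, h_chain, h2, Finset.sum_union hst] at h1
  have h3 : ∑ i ∈ s, h (if i ∈ s then A i else B i) (io V) = ∑ i ∈ s, h (A i) (io V) :=
    Finset.sum_congr rfl fun i hi => by rw [if_pos hi]
  have h4 : ∑ i ∈ t, h (if i ∈ s then A i else B i) (io V) = ∑ i ∈ t, h (B i) (io V) :=
    Finset.sum_congr rfl fun i hi => by rw [if_neg fun hs => (Finset.disjoint_left.mp hst) hs hi]
  rw [h3, h4] at h1
  linarith

/-- independence of blocks -/
theorem I_block {s t : Finset (Fin (d + 1))} (hst : Disjoint s t) (A B : Fin (d + 1) → S.L) :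
    I (s.sup fun i => (C.p i).map (A i)) (t.sup fun i => (C.p i).map (B i)) C.v = 0 := by
  rw [I_zero_iff_h, h_block C hst A B, h_block0 C s A]

/-- all copies are independent of the common variable over a part of it -/
theorem I_common {v0 : C.W.L} (hv0 : v0 ≤ C.v) {Y0 : S.L} (hY : ∀ i, (C.p i).map Y0 = v0) (A : Fin (d + 1) → S.L)
    (hA : ∀ i, I (A i) (io V) Y0 = 0) : I (univ.sup fun i => (C.p i).map (A i)) C.v v0 = 0 := by
  apply I_finsup_zero _ _ _ hv0 (C.indep' A)
  intro i
  rw [← hY i, ← C.p_v i, Pj.I_map]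
  exact hA i

/-- full variables of several copies -/
theorem Cps_rt {κ σ : Type} [Fintype κ] [Fintype σ] (x : κ → QS S) {ℓ : ℝ} (hx : Rt ℓ x (io V))
    (e : σ → Fin (d + 1)) (he : Function.Injective e) {t : Finset (Fin (d + 1))} (ht : ∀ a, e a ∉ t)
    (B : Fin (d + 1) → S.L) :
    Rt ℓ (fun a : σ × κ => (C.p (e a.1)).qs (x a.2)) ((t.sup fun i => (C.p i).map (B i)) ⊔ C.v) := by
  classical
  have h1 : Disjoint (univ.image e) t := by
    rw [Finset.disjoint_left]
    intro i hi
    obtain ⟨a, _, rfl⟩ := Finset.mem_image.mp hi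
    exact ht a
  have h2 := h_block C h1 (fun _ => vd x ℓ) B
  unfold Rt at hx ⊢
  have e1 : vd (fun a : σ × κ => (C.p (e a.1)).qs (x a.2)) ℓ = (univ.image e).sup fun i => (C.p i).map (vd x ℓ) := by
    apply le_antisymm
    · rw [vd_le]
      intro a
      refine le_trans ?_ (Finset.le_sup (f := fun i => (C.p i).map (vd x ℓ)) (Finset.mem_image_of_mem e (mem_univ a.1)))
      show dg ((C.p (e a.1)).qs (x a.2)) ℓ ≤ (C.p (e a.1)).map (vd x ℓ)
      rw [Pj.qs_dg]
      exact Pj.map_mono _ (dg_le_vd x ℓ a.2)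
    · apply Finset.sup_le
      intro i hi
      obtain ⟨a, _, rfl⟩ := Finset.mem_image.mp hi
      rw [← (C.p (e a)).qs_vd, vd_le]
      intro b
      exact dg_le_vd (fun a : σ × κ => (C.p (e a.1)).qs (x a.2)) ℓ (a, b)
  rw [e1, h2, Finset.sum_image fun a _ b _ h => he h, Finset.sum_congr rfl fun a _ => hx, Finset.sum_const,
    nsmul_eq_mul, Fintype.card_prod]
  push_cast
  rw [Finset.card_univ]
  ring

end mul

/-- the coefficients of a small polynomial in a variable with full first digits are small -/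
theorem coeff_top {S : Sp} (P : Polynomial (QS S)) (t : QS S) {A : S.L} (hP : P ∈ PK1 A) {ℓ : ℝ} (hℓ : 0 < ℓ)
    (hℓ1 : ℓ ≤ 1) (ht : ℓ ≤ h (dg t ℓ) A) {r : ℝ} (hr : r ≤ 1) (hz : P.eval t ∈ Id S r) (n : ℕ) :
    P.coeff n ∈ Id S r := by
  by_cases hn : n ≤ P.natDegree
  · have h1 : h (dg t ℓ) (vd (fun a : Fin (P.natDegree + 1) => P.coeff (a : ℕ)) 1) = ℓ := by
      apply le_antisymm ((h_le_H _ _).trans (H_dg_le _ hℓ.le))
      refine ht.trans (h_anti ?_)
      rw [vd_le]
      intro a
      exact hP _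
    have h2 : pe (fun a : Fin (P.natDegree + 1) => P.coeff (a : ℕ)) t ∈ Id S r := by
      have e : pe (fun a : Fin (P.natDegree + 1) => P.coeff (a : ℕ)) t = P.eval t := by
        unfold pe
        rw [Polynomial.eval_eq_sum_range, Finset.sum_range]
      rw [e]
      exact hz
    exact top_zero _ t hℓ hℓ1 h1 hr h2 ⟨n, Nat.lt_succ_of_le hn⟩
  · rw [Polynomial.coeff_eq_zero_of_natDegree_lt (by omega)]
    exact (Id S _).zero_mem

end

end Pool.Agent.Helper14.WLK
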