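import Pool.Agent.Helper14.WLK.Cop
import Pool.Agent.Helper57.TA.Jet

/-! Transports on the zoom: the coefficients of a curve through a box are polynomials of the point in the box. -/

set_option autoImplicit false
set_option linter.unusedSectionVars false

namespace Pool.Agent.Helper14.WLK

open Finset Filter Topology Pool.Agent.Helper69.RK Pool.Agent.Helper31.EC Pool.Agent.Helper31.EC.Sp
open Pool.Agent.Helper31.EC.QS Pool.Agent.Helper57.TA Pool.Agent.Helper21.DO Pool.Agent.Helper95.RIG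

noncomputable section

theorem map_PK1 {S T : Sp} (p : Pj T S) {A : S.L} {P : Polynomial (QS S)} (hP : P ∈ PK1 A) :
    P.map p.qs ∈ PK1 (p.map A) := by
  intro n
  rw [Polynomial.coeff_map, p.qs_dg]
  exact Pj.map_mono _ (hP n)

theorem PK1_mono {S : Sp} {A B : S.L} (h : A ≤ B) : PK1 A ≤ PK1 B := fun _ hP n => (hP n).trans h

theorem eval_PK1 {S : Sp} {A : S.L} {P : Polynomial (QS S)} (hP : P ∈ PK1 A) {t : QS S} (ht : dg t 1 ≤ A) :
    dg (P.eval t) 1 ≤ A := by
  rw [Polynomial.eval_eq_sum_range]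
  exact (Kn S 1 le_rfl A).sum_mem fun i _ => (Kn S 1 le_rfl A).mul_mem (hP i) ((Kn S 1 le_rfl A).pow_mem ht _)

open Classical in
/-- CORE: on the space `T` of two points of one curve `F` (heights `t0`, `t1`), the difference of the values is a
polynomial in the (full) box coordinates `x` with literally common coefficients; then every coefficient of the curve
is a polynomial in `x` with coefficients known to `V0` -/
theorem core {T : Sp} {α β : ℕ → Type} {V : ∀ k, (T.F k).Ω → α k} (hV : Bdd V) {V0 : ∀ k, (T.F k).Ω → β k}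
    (hV0b : Bdd V0) (e : ∀ k, α k → β k) (he : ∀ k ω, V0 k ω = e k (V k ω)) {κ : Type} [Fintype κ] (x : κ → QS T)
    (F : Polynomial (QS T)) (t0 t1 : QS T) (Ψ : MvPolynomial κ (QS T)) {r ℓ : ℝ} (hℓ : 0 < ℓ) (hℓ1 : ℓ ≤ 1)
    (hr : r ≤ 1) (X : T.L) (hx : Rt ℓ x (io V)) (hxX : ∀ a, dg (x a) 1 ≤ X) (hF : F ∈ PK1 X) (ht0 : dg t0 1 ≤ X)
    (hcom : ∀ (D : Sp) (P P' : Pj D T), Ag V P P' → P.qs t1 = P'.qs t1 ∧
      MvPolynomial.map P.qs Ψ = MvPolynomial.map P'.qs Ψ)
    (hX : I X (io V) (io V0) = 0) (ht1 : h (dg t1 1) (io V0) = 1) (ht1V : dg t1 1 ≤ io V)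
    (hE : F.eval t1 - F.eval t0 - MvPolynomial.eval x Ψ ∈ Id T r) (l : ℕ) (hl : l ≠ 0) :
    ∃ (W : Sp) (p : Pj W T) (A : MvPolynomial κ (QS W)), A ∈ PKr r hr (p.map (io V0)) ∧
      p.qs (F.coeff l) - MvPolynomial.eval (fun a => p.qs (x a)) A ∈ Id W r := by
  set L := Fintype.card Ψ.support with hL
  obtain ⟨C⟩ := Cps.exists V hV (2 * L)
  have hcard : Fintype.card (Option (Fin 2 × Ψ.support)) = Fintype.card (Fin (2 * L + 1)) := by
    rw [Fintype.card_option, Fintype.card_prod, Fintype.card_fin, Fintype.card_fin]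
  set ee : Option (Fin 2 × Ψ.support) ≃ Fin (2 * L + 1) := Fintype.equivOfCardEq hcard with hee
  set n := ee none with hn
  have hAg := fun i j => Cps_Ag C i j
  have hv0le : io V0 ≤ io V := io_le_of_fun hV (Eventually.of_forall fun k w w' _ _ _ h1 => by rw [he, he, h1])
  obtain ⟨v0, hv0⟩ : ∃ v0 : C.W.L, v0 = (C.p n).map (io V0) := ⟨_, rfl⟩
  have hcomv0 : ∀ i, (C.p i).map (io V0) = v0 := by
    intro i
    rw [hv0]
    exact ((hAg i n).fn e he).map_io hV0b
  have hv0v : v0 ≤ C.v := by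
    rw [hv0, ← C.p_v n]
    exact Pj.map_mono _ hv0le
  set f : Fin (2 * L + 1) → C.W.L := fun i => (C.p i).map X with hf
  have hIall : I (univ.sup f) C.v v0 = 0 := I_common C hv0v hcomv0 (fun _ => X) (fun _ => hX)
  set U : Fin 2 → C.W.L := fun u => (univ.image fun j : Ψ.support => ee (some (u, j))).sup f with hU
  have hU_le : ∀ u, U u ≤ univ.sup f := fun u => Finset.sup_mono (Finset.subset_univ _)
  have hf_le : ∀ u j, f (ee (some (u, j))) ≤ U u := fun u j =>
    Finset.le_sup (f := f) (Finset.mem_image_of_mem _ (mem_univ j))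
  have hdisj : Disjoint (univ.image fun j : Ψ.support => ee (some ((0 : Fin 2), j)))
      (univ.image fun j : Ψ.support => ee (some ((1 : Fin 2), j))) := by
    rw [Finset.disjoint_left]
    intro a h1 h2
    obtain ⟨j, _, hj⟩ := Finset.mem_image.mp h1
    obtain ⟨j', _, hj'⟩ := Finset.mem_image.mp h2
    have h3 := Option.some_injective _ (ee.injective (hj.trans hj'.symm))
    exact absurd (congrArg Prod.fst h3) (by simp)
  have hI01 : I (U 0) (U 1) v0 = 0 := by
    have h1 : I (U 0) C.v v0 = 0 := I_zero_mono hIall ((hU_le 0).trans le_sup_left) le_sup_left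
    have h2 : I (U 0) (U 1) C.v = 0 := I_block C hdisj (fun _ => X) (fun _ => X)
    have h3 : I (U 0) (U 1) (C.v ⊔ v0) = 0 := by rwa [sup_eq_left.mpr hv0v]
    have h4 := I_contract h1 h3
    exact I_zero_mono h4 le_sup_left (le_sup_right.trans le_sup_left)
  -- the second height
  obtain ⟨t1W, ht1W⟩ : ∃ t1W : QS C.W, t1W = (C.p n).qs t1 := ⟨_, rfl⟩
  have hcomt : ∀ i, (C.p i).qs t1 = t1W := fun i => by rw [ht1W]; exact (hcom _ _ _ (hAg i n)).1
  obtain ⟨Ψ', hΨ'⟩ : ∃ Ψ' : MvPolynomial κ (QS C.W), Ψ' = MvPolynomial.map (C.p n).qs Ψ := ⟨_, rfl⟩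
  have hcomΨ : ∀ i, MvPolynomial.map (C.p i).qs Ψ = Ψ' := fun i => by rw [hΨ']; exact (hcom _ _ _ (hAg i n)).2
  have hreal : h (dg t1W 1) (univ.sup f ⊔ v0) = 1 := by
    have h0 : dg t1W 1 ≤ C.v := by
      rw [ht1W, Pj.qs_dg, ← C.p_v n]
      exact Pj.map_mono _ ht1V
    have h1 : I (univ.sup f) (dg t1W 1) v0 = 0 := I_zero_mono hIall le_sup_left (h0.trans le_sup_left)
    rw [I_zero_iff_h'.mp h1, ht1W, hv0, Pj.qs_dg, Pj.h_map]
    exact ht1
  -- the matrices
  set y : Fin 2 → Ψ.support × κ → QS C.W := fun u a => (C.p (ee (some (u, a.1)))).qs (x a.2) with hy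
  have hyRt : ∀ u, Rt ℓ (y u) C.v := by
    intro u
    have h1 := Cps_rt C x hx (fun j : Ψ.support => ee (some (u, j))) (by
      intro a b hab
      have h3 := Option.some_injective _ (ee.injective hab)
      exact congrArg Prod.snd h3) (t := ∅) (fun a => Finset.notMem_empty _) (fun _ => ⊥)
    rw [Finset.sup_empty, bot_sup_eq] at h1
    exact h1
  set M : Fin 2 → Matrix Ψ.support Ψ.support (QS C.W) := fun u =>
    Matrix.of fun i j => MvPolynomial.eval (fun a => y u (i, a)) (MvPolynomial.monomial j.1 1) with hM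
  have hMu : ∀ u, IsUnit (M u).det := fun u =>
    isUnit_monomials hℓ hℓ1 (hyRt u) (fun j : Ψ.support => j.1) Subtype.val_injective
  have hMe : ∀ u i j, M u i j = ∏ a, y u (i, a) ^ j.1 a := by
    intro u i j
    rw [hM]
    show MvPolynomial.eval _ _ = _
    rw [MvPolynomial.eval_monomial, one_mul, Finsupp.prod_fintype]
    intro a
    exact pow_zero _
  have hyk : ∀ u i a, dg (y u (i, a)) 1 ≤ U u := by
    intro u i a
    show dg ((C.p (ee (some (u, i)))).qs (x a)) 1 ≤ _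
    rw [(C.p _).qs_dg]
    exact (Pj.map_mono _ (hxX a)).trans (hf_le u i)
  have hMk : ∀ u i j, dg (M u i j) 1 ≤ U u := by
    intro u i j
    rw [hMe]
    exact (Kn C.W 1 le_rfl _).prod_mem fun a _ => (Kn C.W 1 le_rfl _).pow_mem (hyk u i a) _
  have hMik : ∀ u i j, dg ((M u)⁻¹ i j) 1 ≤ U u := fun u i j =>
    inv_mem (M u) le_rfl _ (hMk u) (hMu u) i j
  -- the polynomials
  obtain ⟨b, hb⟩ : ∃ b : Fin (2 * L + 1) → Polynomial (QS C.W), b = fun i =>
    F.map (C.p i).qs - Polynomial.C ((F.map (C.p i).qs).eval ((C.p i).qs t0)) := ⟨_, rfl⟩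
  have hbe : ∀ i s, (b i).eval s = (F.map (C.p i).qs).eval s - (F.map (C.p i).qs).eval ((C.p i).qs t0) := by
    intro i s
    rw [hb]
    show Polynomial.eval s (_ - _) = _
    rw [Polynomial.eval_sub, Polynomial.eval_C]
  have hbc : ∀ i, (b i).coeff l = (C.p i).qs (F.coeff l) := by
    intro i
    rw [hb]
    show Polynomial.coeff (_ - _) l = _
    rw [Polynomial.coeff_sub, Polynomial.coeff_C, if_neg hl, sub_zero, Polynomial.coeff_map]
  have hbk : ∀ i, b i ∈ PK1 (f i) := by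
    intro i
    rw [hb]
    refine (PK1 _).sub_mem (map_PK1 _ hF) (PK1_C (eval_PK1 (map_PK1 _ hF) ?_))
    rw [(C.p i).qs_dg]
    exact Pj.map_mono _ ht0
  have hbE : ∀ i, (b i).eval t1W - MvPolynomial.eval (fun a => (C.p i).qs (x a)) Ψ' ∈ Id C.W r := by
    intro i
    have h1 := ((C.p i).qs_mem_Id hr).mpr hE
    rw [map_sub, map_sub, qs_eval, hcomΨ i] at h1
    have h2 : ∀ s : QS T, (C.p i).qs (F.eval s) = (F.map (C.p i).qs).eval ((C.p i).qs s) := by
      intro s
      rw [Polynomial.eval_map, Polynomial.eval₂_at_apply]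
    rw [h2, h2, hcomt i] at h1
    rw [hbe]
    exact h1
  have hΨe : ∀ i, MvPolynomial.eval (fun a => (C.p i).qs (x a)) Ψ' =
      ∑ j : Ψ.support, Ψ'.coeff j.1 * ∏ a, (C.p i).qs (x a) ^ j.1 a := by
    intro i
    rw [hΨ', eval_map_eq, ← Finset.sum_coe_sort]
    apply Finset.sum_congr rfl
    intro j _
    rw [MvPolynomial.coeff_map]
  have heq : ∀ u i, (M u).mulVec (fun j => Ψ'.coeff j.1) i - (b (ee (some (u, i)))).eval t1W ∈ Id C.W r := by
    intro u i
    have h1 := (Ideal.neg_mem_iff _).mpr (hbE (ee (some (u, i))))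
    rw [neg_sub, hΨe] at h1
    refine (congrArg (· ∈ Id C.W r) ?_).mp h1
    congr 1
    unfold Matrix.mulVec dotProduct
    apply Finset.sum_congr rfl
    intro j _
    show _ = M u i j * MvPolynomial.coeff j.1 Ψ'
    rw [hMe]
    exact mul_comm _ _
  have hsol : ∀ u j, Ψ'.coeff j.1 - (M u)⁻¹.mulVec (fun i => (b (ee (some (u, i)))).eval t1W) j ∈ Id C.W r := by
    intro u j
    obtain ⟨bb, hbb⟩ : ∃ bb : Ψ.support → QS C.W, bb = fun i => (b (ee (some (u, i)))).eval t1W := ⟨_, rfl⟩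
    obtain ⟨yy, hyy⟩ : ∃ yy : Ψ.support → QS C.W, yy = fun j => Ψ'.coeff j.1 := ⟨_, rfl⟩
    have h1 := mulVec_mem_ideal (Id C.W r) (M u) (fun j => yy j - (M u)⁻¹.mulVec bb j) (hMu u) (by
      intro i
      have h2 : (M u).mulVec (fun j => yy j - (M u)⁻¹.mulVec bb j) i = (M u).mulVec yy i - bb i := by
        have h3 : (fun j => yy j - (M u)⁻¹.mulVec bb j) = yy - (M u)⁻¹.mulVec bb := rfl
        rw [h3, Matrix.mulVec_sub, Matrix.mulVec_mulVec, Matrix.mul_nonsing_inv _ (hMu u), Matrix.one_mulVec]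
        rfl
      rw [h2, hbb, hyy]
      exact heq u i) j
    rw [hbb, hyy] at h1
    exact h1
  obtain ⟨G, hG⟩ : ∃ G : Fin 2 → Polynomial (QS C.W), G = fun u => b n -
    ∑ j : Ψ.support, Polynomial.C (∏ a, (C.p n).qs (x a) ^ j.1 a) *
      ∑ i : Ψ.support, Polynomial.C ((M u)⁻¹ j i) * b (ee (some (u, i))) := ⟨_, rfl⟩
  have hGe : ∀ u, (G u).eval t1W ∈ Id C.W r := by
    intro u
    have h1 := hbE n
    rw [hΨe] at h1
    have h2 : ∑ j : Ψ.support, (Ψ'.coeff j.1 - (M u)⁻¹.mulVec (fun i => (b (ee (some (u, i)))).eval t1W) j) *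
        ∏ a, (C.p n).qs (x a) ^ j.1 a ∈ Id C.W r :=
      (Id C.W r).sum_mem fun j _ => Ideal.mul_mem_right _ _ (hsol u j)
    have h3 := (Id C.W r).add_mem h1 h2
    refine (congrArg (· ∈ Id C.W r) ?_).mp h3
    rw [hG]
    show _ = Polynomial.eval t1W (b n - ∑ j : Ψ.support, _)
    rw [Polynomial.eval_sub, Polynomial.eval_finsetSum, sub_add, sub_right_inj]
    rw [← Finset.sum_sub_distrib]
    apply Finset.sum_congr rfl
    intro j _
    rw [Polynomial.eval_mul, Polynomial.eval_C, Polynomial.eval_finsetSum]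
    have h4 : (M u)⁻¹.mulVec (fun i => (b (ee (some (u, i)))).eval t1W) j =
        ∑ i : Ψ.support, Polynomial.eval t1W (Polynomial.C ((M u)⁻¹ j i) * b (ee (some (u, i)))) := by
      unfold Matrix.mulVec dotProduct
      apply Finset.sum_congr rfl
      intro i _
      rw [Polynomial.eval_mul, Polynomial.eval_C]
    rw [← h4]
    ring
  have hxn : ∀ a, dg ((C.p n).qs (x a)) 1 ≤ f n := by
    intro a
    rw [(C.p n).qs_dg]
    exact Pj.map_mono _ (hxX a)
  have hfn : f n ≤ univ.sup f := Finset.le_sup (f := f) (mem_univ n)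
  have hGk : ∀ u, G u ∈ PK1 (univ.sup f) := by
    intro u
    rw [hG]
    refine (PK1 _).sub_mem (PK1_mono hfn (hbk n)) ((PK1 _).sum_mem fun j _ => (PK1 _).mul_mem (PK1_C ?_)
      ((PK1 _).sum_mem fun i _ => (PK1 _).mul_mem (PK1_C ((hMik u j i).trans (hU_le u)))
        (PK1_mono ((hf_le u i).trans (hU_le u)) (hbk _))))
    exact (Kn C.W 1 le_rfl _).prod_mem fun a _ => (Kn C.W 1 le_rfl _).pow_mem ((hxn a).trans hfn) _
  have hGc : ∀ u, (G u).coeff l ∈ Id C.W r := fun u =>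
    coeff_top (G u) t1W (hGk u) one_pos le_rfl (hreal.ge.trans (h_anti le_sup_left)) hr (hGe u) l
  -- the coefficients
  obtain ⟨A, hA⟩ : ∃ A : Fin 2 → MvPolynomial κ (QS C.W), A = fun u =>
    ∑ j : Ψ.support, MvPolynomial.monomial j.1 (∑ i : Ψ.support, (M u)⁻¹ j i * (C.p (ee (some (u, i)))).qs (F.coeff l)) :=
    ⟨_, rfl⟩
  have hAe : ∀ u, (C.p n).qs (F.coeff l) - MvPolynomial.eval (fun a => (C.p n).qs (x a)) (A u) ∈ Id C.W r := by
    intro u
    refine (congrArg (· ∈ Id C.W r) ?_).mp (hGc u)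
    rw [hG, hA]
    show Polynomial.coeff (b n - ∑ j : Ψ.support, _) l = _ - MvPolynomial.eval _ (∑ j : Ψ.support, _)
    rw [Polynomial.coeff_sub, hbc, Polynomial.finsetSum_coeff, map_sum]
    congr 1
    apply Finset.sum_congr rfl
    intro j _
    rw [Polynomial.coeff_C_mul, Polynomial.finsetSum_coeff, MvPolynomial.eval_monomial,
      Finsupp.prod_fintype _ _ fun a => pow_zero _]
    refine (mul_comm _ _).trans ?_
    congr 1
    apply Finset.sum_congr rfl
    intro i _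
    rw [Polynomial.coeff_C_mul, hbc]
  have hAk : ∀ u, A u ∈ PK (U u) := by
    intro u
    rw [hA]
    apply (PK _).sum_mem
    intro j _
    apply monomial_mem
    apply (Kn C.W 1 le_rfl _).sum_mem
    intro i _
    apply (Kn C.W 1 le_rfl _).mul_mem (hMik u j i)
    show dg ((C.p _).qs _) 1 ≤ _
    rw [(C.p _).qs_dg]
    exact (Pj.map_mono _ (hF l)).trans (hf_le u i)
  have hAd : ∀ m, (A 0).coeff m - (A 1).coeff m ∈ Id C.W r := by
    intro m
    set tt : Finset (Fin (2 * L + 1)) := univ.image fun a : Fin 2 × Ψ.support => ee (some a) with htt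
    have hnt : n ∉ tt := by
      intro h1
      obtain ⟨a, _, ha⟩ := Finset.mem_image.mp h1
      exact absurd (ee.injective ha) (by simp)
    have h1 := Cps_rt C x hx (fun _ : Unit => n) (fun _ _ _ => Subsingleton.elim _ _) (t := tt) (fun _ => hnt)
      (fun _ => X)
    have h2 : Rt ℓ (fun a => (C.p n).qs (x a)) (tt.sup f ⊔ C.v) :=
      h1.comp hℓ.le (fun a : κ => ((), a)) (fun a b hab => congrArg Prod.snd hab)
    have hUt : ∀ u, U u ≤ tt.sup f := by
      intro u
      apply Finset.sup_mono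
      intro i hi
      obtain ⟨j, _, rfl⟩ := Finset.mem_image.mp hi
      exact Finset.mem_image_of_mem (fun a : Fin 2 × Ψ.support => ee (some a)) (mem_univ (u, j))
    have h3 : MvPolynomial.eval (fun a => (C.p n).qs (x a)) (A 0) -
        MvPolynomial.eval (fun a => (C.p n).qs (x a)) (A 1) ∈ Id C.W r := sub_sub_mem _ (hAe 0) (hAe 1)
    exact mv_small_unique hℓ hℓ1 h2 hr le_rfl
      (PKr_of_PK le_rfl (PK_mono ((hUt 0).trans le_sup_left) (hAk 0)))
      (PKr_of_PK le_rfl (PK_mono ((hUt 1).trans le_sup_left) (hAk 1))) h3 m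
  refine ⟨C.W, C.p n, A 0, ?_, hAe 0⟩
  intro m
  rw [← hv0]
  apply le_of_markov (A := U 0) (B := U 1) _ _ hI01
  · exact ((QS.dg_mono _ hr).trans (hAk 0 m)).trans le_sup_left
  · rw [dg_eq_of_sub_mem (hAd m) le_rfl hr]
    exact ((QS.dg_mono _ hr).trans (hAk 1 m)).trans le_sup_left

end

end Pool.Agent.Helper14.WLK
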