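import Pool.Agent.Helper14.WLK.Tr

/-! Types with polynomial transports: the transports and (T) for all pairs of points of one curve. -/

set_option autoImplicit false
set_option linter.unusedSectionVars false

namespace Pool.Agent.Helper14.WLK

open Finset Filter Topology Pool.Agent.Helper69.RK Pool.Agent.Helper31.EC Pool.Agent.Helper31.EC.Sp
open Pool.Agent.Helper31.EC.QS Pool.Agent.Helper57.TA Pool.Agent.Helper21.DO Pool.Agent.Helper95.RIG
open Pool.Agent.Helper79.JET Pool.Agent.Helper79.WLK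

noncomputable section

/-- A TYPE WITH POLYNOMIAL TRANSPORTS up to `Id r`: base line `bV` (literal) and functions `fb` of the base line,
literal variable `xV` and functions `fx` of the curve; height `t`, base coordinates `q`, lower coordinates `R` (flat),
next coordinate `z` -/
structure Cur {S : Sp} {β κ : Type} [Fintype β] [Fintype κ] {νb νx : Type} [Fintype νb] [Fintype νx]
    {α αx : ℕ → Type} (bV : ∀ k, (S.F k).Ω → α k) (xV : ∀ k, (S.F k).Ω → αx k) (fb : νb → QS S) (fx : νx → QS S)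
    (t : QS S) (q : β → QS S) (R : κ → QS S) (z : QS S) (r : ℝ) (ρ : κ → Polynomial (QS S)) (ζ : Polynomial (QS S))
    (cc : ℕ → MvPolynomial κ (QS S)) : Prop where
  bdd : Bdd bV
  bddx : Bdd xV
  bx : ∃ e : ∀ k, αx k → α k, ∀ k ω, bV k ω = e k (xV k ω)
  fbk : vd fb 1 ≤ io bV
  fbx : ∀ a, fb a ∈ LF xV fx
  line : ∀ a, ∃ f ∈ LF bV fb, ∃ u ∈ LF bV fb, q a = f + t * u
  treal : h (dg t 1) (io xV ⊔ vd fx 1) = 1
  ρx : ∀ k, ρ k ∈ CS1 (LF xV fx)
  ρb : ∀ k j, j ≠ 0 → (ρ k).coeff j ∈ LF bV fb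
  ζx : ζ ∈ CS1 (LF xV fx)
  cb : ∀ l, cc l ∈ CS (LF bV fb)
  R : ∀ k, R k - (ρ k).eval t ∈ Id S r
  z : z - ζ.eval t ∈ Id S r
  ζc : ∀ l, l ≠ 0 → ζ.coeff l - MvPolynomial.eval (fun k => (ρ k).coeff 0) (cc l) ∈ Id S r

variable {S : Sp} {β κ : Type} [Fintype β] [Fintype κ] {νb νx : Type} [Fintype νb] [Fintype νx]
    {α αx : ℕ → Type} {bV : ∀ k, (S.F k).Ω → α k} {xV : ∀ k, (S.F k).Ω → αx k} {fb : νb → QS S} {fx : νx → QS S}
    {t : QS S} {q : β → QS S} {R : κ → QS S} {z : QS S} {r : ℝ} {ρ : κ → Polynomial (QS S)} {ζ : Polynomial (QS S)}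
    {cc : ℕ → MvPolynomial κ (QS S)}

namespace Cur

variable (hC : Cur bV xV fb fx t q R z r ρ ζ cc)

include hC

theorem bxle : LF bV fb ≤ LF xV fx := by
  obtain ⟨e, he⟩ := hC.bx
  exact (LF_fn e he).trans (LF_mono hC.fbx)

theorem Ag_b {W : Sp} {P P' : Pj W S} (h : Ag xV P P') : Ag bV P P' := by
  obtain ⟨e, he⟩ := hC.bx
  exact h.fn e he

omit hC in
theorem eval_split {A : Type} [CommRing A] (P : Polynomial A) (τ : A) :
    P.eval τ = P.coeff 0 + (P - Polynomial.C (P.coeff 0)).eval τ := by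
  rw [Polynomial.eval_sub, Polynomial.eval_C]
  ring

/-- the intercepts in terms of the point -/
theorem x0 {W : Sp} (P : Pj W S) (k : κ) :
    P.qs (R k) - sft (fun k => (ρ k).map P.qs) (P.qs t) k - P.qs ((ρ k).coeff 0) ∈ Id W r := by
  have h1 := qs_Id P (hC.R k)
  rw [map_sub, map_eval1, eval_split ((ρ k).map P.qs), Polynomial.coeff_map] at h1
  refine (congrArg (· ∈ Id W r) ?_).mp h1
  unfold sft
  rw [Polynomial.coeff_map]
  ring

/-- FLATNESS of the lower coordinates -/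
theorem hG {W : Sp} {P P' : Pj W S} (h : Ag xV P P') (hf : ∀ i, P.qs (fx i) = P'.qs (fx i)) (k : κ) :
    P'.qs (R k) - P.qs (R k) - MvPolynomial.eval ![P.qs t, P'.qs t] (MvPolynomial.map P.qs (trG ρ k)) ∈ Id W r := by
  rw [map_trG, trG_eval]
  have h1 := qs_Id P (hC.R k)
  have h2 := qs_Id P' (hC.R k)
  rw [map_sub, map_eval1] at h1 h2
  rw [← LF_map1 h hf (hC.ρx k)] at h2
  have h3 := (Id W r).sub_mem h2 h1
  refine (congrArg (· ∈ Id W r) ?_).mp h3
  ring

/-- number of terms -/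
theorem ζ_eval (A B : QS S) : ζ.eval B - ζ.eval A = ∑ l ∈ range ζ.natDegree, ζ.coeff (l + 1) * (B ^ (l + 1) - A ^ (l + 1)) := by
  rw [Polynomial.eval_eq_sum_range, Polynomial.eval_eq_sum_range, Finset.sum_range_succ', Finset.sum_range_succ']
  simp only [mul_sub, Finset.sum_sub_distrib]
  ring

omit hC in
theorem pol_eval {A : Type} [CommRing A] (P : Polynomial A) {N : ℕ} (hN : P.natDegree ≤ N) (a b : A) :
    P.eval b - P.eval a = ∑ l ∈ range N, P.coeff (l + 1) * (b ^ (l + 1) - a ^ (l + 1)) := by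
  have h1 : ∀ x : A, P.eval x = ∑ l ∈ range (N + 1), P.coeff l * x ^ l := fun x =>
    Polynomial.eval_eq_sum_range' (Nat.lt_succ_of_le hN) x
  rw [h1, h1, Finset.sum_range_succ', Finset.sum_range_succ']
  simp only [mul_sub, Finset.sum_sub_distrib]
  ring

/-- the transport in terms of the intercepts -/
theorem trp0 (cc' : ℕ → MvPolynomial κ (QS S)) {W : Sp} (P : Pj W S) (b : QS W) (N : ℕ) :
    MvPolynomial.eval (Sum.elim (fun k => P.qs (R k)) ![P.qs t, b]) (MvPolynomial.map P.qs (trp ρ cc' N)) -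
      ∑ l ∈ range N, P.qs (MvPolynomial.eval (fun k => (ρ k).coeff 0) (cc' (l + 1))) *
        (b ^ (l + 1) - P.qs t ^ (l + 1)) ∈ Id W r := by
  rw [map_trp, trp_eval, ← Finset.sum_sub_distrib]
  apply (Id W r).sum_mem
  intro l _
  have h1 := eval_sub_mem (Id W r) (MvPolynomial.map P.qs (cc' (l + 1)))
    (fun k => P.qs (R k) - sft (fun k => (ρ k).map P.qs) (P.qs t) k) (fun k => P.qs ((ρ k).coeff 0)) (hC.x0 P)
  have h2 := Ideal.mul_mem_right (b ^ (l + 1) - P.qs t ^ (l + 1)) _ h1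
  refine (congrArg (· ∈ Id W r) ?_).mp h2
  rw [qs_eval]
  ring

/-- THE TRANSPORT of the next coordinate, for all pairs of points of one curve -/
theorem hp {W : Sp} {P P' : Pj W S} (h : Ag xV P P') (hf : ∀ i, P.qs (fx i) = P'.qs (fx i)) :
    P'.qs z - P.qs z - MvPolynomial.eval (Sum.elim (fun k => P.qs (R k)) ![P.qs t, P'.qs t])
      (MvPolynomial.map P.qs (trp ρ cc ζ.natDegree)) ∈ Id W r := by
  have h1 := qs_Id P hC.z
  have h2 := qs_Id P' hC.z
  rw [map_sub, map_eval1] at h1 h2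
  rw [← LF_map1 h hf hC.ζx] at h2
  have h3 := hC.trp0 cc P (P'.qs t) ζ.natDegree
  have h4 : (ζ.map P.qs).eval (P'.qs t) - (ζ.map P.qs).eval (P.qs t) - ∑ l ∈ range ζ.natDegree,
      P.qs (MvPolynomial.eval (fun k => (ρ k).coeff 0) (cc (l + 1))) * (P'.qs t ^ (l + 1) - P.qs t ^ (l + 1)) ∈
        Id W r := by
    rw [pol_eval _ (Polynomial.natDegree_map_le) _ _, ← Finset.sum_sub_distrib]
    apply (Id W r).sum_mem
    intro l _
    rw [← sub_mul, Polynomial.coeff_map, ← map_sub]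
    exact Ideal.mul_mem_right _ _ (qs_Id P (hC.ζc (l + 1) (Nat.succ_ne_zero l)))
  have h5 := (Id W r).sub_mem ((Id W r).add_mem ((Id W r).sub_mem h2 h1) h4) h3
  refine (congrArg (· ∈ Id W r) ?_).mp h5
  ring

variable {Q : κ → MvPolynomial β (QS S)} {wt : β ⊕ κ → ℝ} {ν : Type} [Fintype ν] {g : ν → QS S} {s w : ℝ}
  {J : MvPolynomial (β ⊕ κ) (QS S)}

/-- (T) for a fresh second point -/
theorem tee1 (hb : LB q R Q wt g s) (hs : 0 ≤ s) (hwt : ∀ a, 0 ≤ wt a) (h1 : ∀ a, wt a * s < 1) (hws : w * s ≤ 1)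
    (hr : w * s ≤ r) (hQ : ∀ k, (Q k).coeff 0 = 0) (hJ : LR q R Q z J g (w * s))
    (hTR : ∀ (W : Sp) (P P' : Pj W S), Ag xV P P' → (∀ i, P.qs (fx i) = P'.qs (fx i)) →
      P'.map (vd g 1) ≤ P.map (io bV ⊔ dg t 1 ⊔ vd g 1) ⊔ P'.map (dg t 1))
    (hfull : ∑ k, (1 - wt (Sum.inr k) * s) ≤ h (vd R 1) (io bV ⊔ dg t 1 ⊔ vd g 1))
    {W : Sp} (P P' : Pj W S) (hA : Ag xV P P') (hf : ∀ i, P.qs (fx i) = P'.qs (fx i))
    (hnew : ∀ K : S.L, h (P'.map (dg t 1)) (P.map K) = 1) (j : κ) :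
    P'.qs (J.coeff (Finsupp.single (Sum.inr j) 1)) - P.qs (J.coeff (Finsupp.single (Sum.inr j) 1)) -
      ∑ l ∈ range ζ.natDegree, P.qs (MvPolynomial.eval (fun k => (ρ k).coeff 0) (MvPolynomial.pderiv j (cc (l + 1)))) *
        (P'.qs t ^ (l + 1) - P.qs t ^ (l + 1)) ∈ Id W ((w - wt (Sum.inr j)) * s) := by
  classical
  have cx : ∀ {c : QS S}, c ∈ LF xV fx → P.qs c = P'.qs c := fun hc => hc _ P P' hA hf
  have hb0 : Bdd (S := W) (fun k ω => bV k (P.π k ω)) := (P.bdd_iff bV).mpr hC.bdd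
  obtain ⟨f1, hf1⟩ : ∃ f1 : νb ⊕ (Unit ⊕ (Unit ⊕ (ν ⊕ ν))) → QS W, f1 =
    Sum.elim (fun i => P.qs (fb i)) (Sum.elim (fun _ => P.qs t) (Sum.elim (fun _ => P'.qs t)
      (Sum.elim (fun i => P.qs (g i)) (fun i => P'.qs (g i))))) := ⟨_, rfl⟩
  obtain ⟨γ, V, hV, hVio, ⟨e, he⟩, hVf⟩ := exists_lvar hb0 f1
  -- literal functions
  have mb : ∀ i, P.qs (fb i) ∈ LF V f1 := fun i => by
    have h2 := LF_mem (V := V) (f := f1) (Sum.inl i)
    rwa [hf1] at h2 ⊢
  have mt : P.qs t ∈ LF V f1 := by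
    have h2 := LF_mem (V := V) (f := f1) (Sum.inr (Sum.inl ()))
    rwa [hf1] at h2 ⊢
  have mt' : P'.qs t ∈ LF V f1 := by
    have h2 := LF_mem (V := V) (f := f1) (Sum.inr (Sum.inr (Sum.inl ())))
    rwa [hf1] at h2 ⊢
  have mg : ∀ i, P.qs (g i) ∈ LF V f1 := fun i => by
    have h2 := LF_mem (V := V) (f := f1) (Sum.inr (Sum.inr (Sum.inr (Sum.inl i))))
    rwa [hf1] at h2 ⊢
  have mg' : ∀ i, P'.qs (g i) ∈ LF V f1 := fun i => by
    have h2 := LF_mem (V := V) (f := f1) (Sum.inr (Sum.inr (Sum.inr (Sum.inr i))))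
    rwa [hf1] at h2 ⊢
  have lb : ∀ {c : QS S}, c ∈ LF bV fb → P.qs c ∈ LF V f1 := by
    intro c hc D r r' hr hf'
    rw [← Pj.comp_qs, ← Pj.comp_qs]
    apply hc D _ _ (fun k ω hω => (hr.fn e he) k ω hω)
    intro i
    rw [Pj.comp_qs, Pj.comp_qs]
    exact mb i D r r' hr hf'
  have lb' : ∀ {c : QS S}, c ∈ LF bV fb → P'.qs c ∈ LF V f1 := fun hc => by
    rw [← cx (hC.bxle hc)]
    exact lb hc
  have hq : ∀ a, P.qs (q a) ∈ LF V f1 := by
    intro a
    obtain ⟨f, hf, u, hu, hqa⟩ := hC.line a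
    rw [hqa, map_add, map_mul]
    exact Subring.add_mem _ (lb hf) (Subring.mul_mem _ mt (lb hu))
  have hq' : ∀ a, P'.qs (q a) ∈ LF V f1 := by
    intro a
    obtain ⟨f, hf, u, hu, hqa⟩ := hC.line a
    rw [hqa, map_add, map_mul]
    exact Subring.add_mem _ (lb' hf) (Subring.mul_mem _ mt' (lb' hu))
  have hρ0 : ∀ k, (ρ k).map P.qs - Polynomial.C (((ρ k).map P.qs).coeff 0) ∈ CS1 (LF V f1) := by
    intro k n
    rw [Polynomial.coeff_sub, Polynomial.coeff_C, Polynomial.coeff_map, Polynomial.coeff_map]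
    by_cases hn : n = 0
    · rw [if_pos hn, hn, sub_self]
      exact Subring.zero_mem _
    · rw [if_neg hn, sub_zero]
      exact lb (hC.ρb k n hn)
  -- displacement of the lower coordinates
  obtain ⟨G, hG⟩ : ∃ G : κ → QS W, G = fun k => MvPolynomial.eval ![P.qs t, P'.qs t]
    (MvPolynomial.map P.qs (trG ρ k)) := ⟨_, rfl⟩
  have lG : ∀ k, G k ∈ LF V f1 := by
    intro k
    rw [hG]
    show MvPolynomial.eval ![P.qs t, P'.qs t] (MvPolynomial.map P.qs (trG ρ k)) ∈ _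
    rw [map_trG, trG_eval, eval_split ((ρ k).map P.qs) (P'.qs t), eval_split ((ρ k).map P.qs) (P.qs t),
      add_sub_add_left_eq_sub]
    exact Subring.sub_mem _ (CS1_eval (hρ0 k) mt') (CS1_eval (hρ0 k) mt)
  -- the transport polynomial
  obtain ⟨p, hp⟩ : ∃ p : MvPolynomial κ (QS W), p = ∑ l ∈ range ζ.natDegree,
    MvPolynomial.aeval (fun k => MvPolynomial.X k - MvPolynomial.C (sft (fun k => (ρ k).map P.qs) (P.qs t) k))
      (MvPolynomial.map P.qs (cc (l + 1))) * MvPolynomial.C (P'.qs t ^ (l + 1) - P.qs t ^ (l + 1)) := ⟨_, rfl⟩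
  have lp : p ∈ CS (LF V f1) := by
    rw [hp]
    apply (CS (LF V f1)).sum_mem
    intro l _
    refine (CS (LF V f1)).mul_mem (CS_aeval (CS_map _ fun m => lb (hC.cb _ m)) fun k =>
      (CS (LF V f1)).sub_mem (CS_X _ _) (CS_C (CS1_eval (hρ0 k) mt))) (CS_C (Subring.sub_mem _
        (Subring.pow_mem _ mt' _) (Subring.pow_mem _ mt _)))
  have hpe : MvPolynomial.eval (fun k => P.qs (R k)) p = MvPolynomial.eval
      (Sum.elim (fun k => P.qs (R k)) ![P.qs t, P'.qs t]) (MvPolynomial.map P.qs (trp ρ cc ζ.natDegree)) := by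
    rw [map_trp, trp_eval, hp, map_sum]
    apply Finset.sum_congr rfl
    intro l _
    rw [map_mul, eval_sbs, MvPolynomial.eval_C]
    congr 2
    congr 1
    funext k
    rw [map_sub, MvPolynomial.eval_X, MvPolynomial.eval_C]
  have hpd : MvPolynomial.eval (fun k => P.qs (R k)) (MvPolynomial.pderiv j p) = MvPolynomial.eval
      (Sum.elim (fun k => P.qs (R k)) ![P.qs t, P'.qs t])
        (MvPolynomial.map P.qs (trp ρ (fun l => MvPolynomial.pderiv j (cc l)) ζ.natDegree)) := by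
    rw [map_trp, trp_eval, hp, map_sum, map_sum]
    apply Finset.sum_congr rfl
    intro l _
    rw [MvPolynomial.pderiv_mul, MvPolynomial.pderiv_C, mul_zero, add_zero, pderiv_sbs _ j j (by
      intro a
      rw [map_sub, MvPolynomial.pderiv_C, sub_zero, MvPolynomial.pderiv_X]
      by_cases h : a = j
      · subst h
        rw [Pi.single_eq_same, if_pos rfl]
      · rw [Pi.single_eq_of_ne h, if_neg h]), map_mul, eval_sbs, MvPolynomial.eval_C, ← MvPolynomial.pderiv_map]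
    congr 2
    congr 1
    funext k
    rw [map_sub, MvPolynomial.eval_X, MvPolynomial.eval_C]
  -- fullness
  set A0 : S.L := io bV ⊔ dg t 1 ⊔ vd g 1 with hA0
  have hVle : io V ≤ P'.map (dg t 1) ⊔ P.map A0 := by
    rw [hVio]
    have e2 : io (fun k w => bV k (P.π k w)) = P.map (io bV) := (P.map_io bV).symm
    rw [e2]
    refine sup_le ((P.map_mono (le_sup_left.trans le_sup_left)).trans le_sup_right) ?_
    rw [vd_le, hf1]
    rintro (i | i | i | i | i)
    · show dg (P.qs (fb i)) 1 ≤ _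
      rw [P.qs_dg]
      exact (P.map_mono (((dg_le_vd fb 1 i).trans hC.fbk).trans (le_sup_left.trans le_sup_left))).trans le_sup_right
    · show dg (P.qs t) 1 ≤ _
      rw [P.qs_dg]
      exact (P.map_mono (le_sup_right.trans le_sup_left)).trans le_sup_right
    · show dg (P'.qs t) 1 ≤ _
      rw [P'.qs_dg]
      exact le_sup_left
    · show dg (P.qs (g i)) 1 ≤ _
      rw [P.qs_dg]
      exact (P.map_mono ((dg_le_vd g 1 i).trans le_sup_right)).trans le_sup_right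
    · show dg (P'.qs (g i)) 1 ≤ _
      rw [P'.qs_dg]
      refine (P'.map_mono (dg_le_vd g 1 i)).trans ?_
      rw [sup_comm]
      exact hTR W P P' hA hf
  have hfV : ∑ k, (1 - wt (Sum.inr k) * s) ≤ h (P.map (vd R 1)) (io V) := by
    have h2 : I (P.map (vd R 1)) (P'.map (dg t 1)) (P.map A0) = 0 := by
      rw [I_zero_iff_h', ← P.map_sup, hnew, hnew]
    have h3 := I_zero_iff_h.mp h2
    rw [P.h_map] at h3
    exact hfull.trans (h3.ge.trans (h_anti hVle))
  have h2 := tee0 hb hs hwt h1 hws hQ hJ P P' hV (f := f1) (fun D r r' hr => hVf D r r' hr) hq hq' mg mg'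
    (G := G) lG (fun k => by
      rw [hG]
      exact Id_mono hr (hC.hG hA hf k)) (p := p) lp (by
      rw [hpe]
      exact Id_mono hr (hC.hp hA hf)) hfV j
  rw [hpd] at h2
  have hle : (w - wt (Sum.inr j)) * s ≤ r := by
    have := mul_nonneg (hwt (Sum.inr j)) hs
    linarith
  have h3 := Ideal.add_mem _ h2 (Id_mono hle (hC.trp0 (fun l => MvPolynomial.pderiv j (cc l)) P (P'.qs t) ζ.natDegree))
  refine (congrArg (· ∈ Id W ((w - wt (Sum.inr j)) * s)) ?_).mp h3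
  ring

omit hC in
/-- a third point of the curve -/
theorem exists_fresh (hx : Bdd xV) (htr : h (dg t 1) (io xV ⊔ vd fx 1) = 1) {W : Sp} (P : Pj W S) :
    ∃ (V : Sp) (u : Pj V W) (P'' : Pj V S), Ag xV (u.comp P) P'' ∧ (∀ i, (u.comp P).qs (fx i) = P''.qs (fx i)) ∧
      ∀ K : W.L, h (P''.map (dg t 1)) (u.map K) = 1 := by
  obtain ⟨γ, U, hU, hUio, ⟨eU, heU⟩, hUf⟩ := exists_lvar hx fx
  have hAg : Ag U ((P.join U).p1.comp P) (P.join U).p2 := fun k w hw => Pj.join_supp P U k w hw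
  refine ⟨(P.join U).sp, (P.join U).p1, (P.join U).p2, hAg.fn eU heU, hUf _ _ _ hAg, fun K => ?_⟩
  apply le_antisymm ((h_le_H _ _).trans (by rw [← Pj.qs_dg]; exact H_dg_le _ zero_le_one))
  have h1 := I_zero_iff_h'.mp (Pj.join_indep P U hU K (dg t 1))
  rw [Pj.join_common P U hU, Pj.h_map, hUio, htr] at h1
  exact h1.ge.trans (h_anti le_sup_left)

/-- (T) for ALL pairs of points of one curve -/
theorem tee (hb : LB q R Q wt g s) (hs : 0 ≤ s) (hwt : ∀ a, 0 ≤ wt a) (h1 : ∀ a, wt a * s < 1) (hws : w * s ≤ 1)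
    (hr : w * s ≤ r) (hQ : ∀ k, (Q k).coeff 0 = 0) (hJ : LR q R Q z J g (w * s))
    (hTR : ∀ (W : Sp) (P P' : Pj W S), Ag xV P P' → (∀ i, P.qs (fx i) = P'.qs (fx i)) →
      P'.map (vd g 1) ≤ P.map (io bV ⊔ dg t 1 ⊔ vd g 1) ⊔ P'.map (dg t 1))
    (hfull : ∑ k, (1 - wt (Sum.inr k) * s) ≤ h (vd R 1) (io bV ⊔ dg t 1 ⊔ vd g 1))
    {W : Sp} {P P' : Pj W S} (hA : Ag xV P P') (hf : ∀ i, P.qs (fx i) = P'.qs (fx i)) (j : κ) :
    P'.qs (J.coeff (Finsupp.single (Sum.inr j) 1)) - P.qs (J.coeff (Finsupp.single (Sum.inr j) 1)) -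
      MvPolynomial.eval (Sum.elim (fun k => P.qs (R k)) ![P.qs t, P'.qs t])
        (MvPolynomial.pderiv (Sum.inl j) (MvPolynomial.map P.qs (trp ρ cc ζ.natDegree))) ∈
          Id W ((w - wt (Sum.inr j)) * s) := by
  classical
  obtain ⟨V, u, P'', hA1, hf1, hn⟩ := exists_fresh hC.bddx hC.treal P
  have hA2 : Ag xV (u.comp P') P'' := (hA.comp u).symm.trans hA1
  have hf2 : ∀ i, (u.comp P').qs (fx i) = P''.qs (fx i) := by
    intro i
    rw [← hf1 i, Pj.comp_qs, Pj.comp_qs, hf i]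
  have e1 := hC.tee1 hb hs hwt h1 hws hr hQ hJ hTR hfull (u.comp P) P'' hA1 hf1 (fun K => by
    rw [Pj.comp_map]
    exact hn _) j
  have e2 := hC.tee1 hb hs hwt h1 hws hr hQ hJ hTR hfull (u.comp P') P'' hA2 hf2 (fun K => by
    rw [Pj.comp_map]
    exact hn _) j
  have cco : ∀ l, MvPolynomial.eval (fun k => (ρ k).coeff 0) (MvPolynomial.pderiv j (cc (l + 1))) ∈ LF xV fx := by
    intro l
    apply CS_eval (R := LF xV fx) _ (fun k => hC.ρx k 0)
    intro m
    rw [MvPolynomial.coeff_pderiv]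
    refine Subring.mul_mem _ (hC.bxle (hC.cb _ _)) (Subring.add_mem _ (LF_natCast _) (Subring.one_mem _))
  have hle : (w - wt (Sum.inr j)) * s ≤ 1 := by
    have := mul_nonneg (hwt (Sum.inr j)) hs
    linarith
  have hle' : (w - wt (Sum.inr j)) * s ≤ r := by
    have := mul_nonneg (hwt (Sum.inr j)) hs
    linarith
  rw [MvPolynomial.pderiv_map, trp_pderiv]
  have e3 := Id_mono hle' (hC.trp0 (fun l => MvPolynomial.pderiv j (cc l)) P (P'.qs t) ζ.natDegree)
  suffices H : P'.qs (J.coeff (Finsupp.single (Sum.inr j) 1)) - P.qs (J.coeff (Finsupp.single (Sum.inr j) 1)) -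
      ∑ l ∈ range ζ.natDegree, P.qs (MvPolynomial.eval (fun k => (ρ k).coeff 0) (MvPolynomial.pderiv j (cc (l + 1)))) *
        (P'.qs t ^ (l + 1) - P.qs t ^ (l + 1)) ∈ Id W ((w - wt (Sum.inr j)) * s) by
    have e4 := Ideal.sub_mem _ H e3
    refine (congrArg (· ∈ Id W ((w - wt (Sum.inr j)) * s)) ?_).mp e4
    ring
  rw [← u.qs_mem_Id hle]
  have e5 := Ideal.sub_mem _ e1 e2
  refine (congrArg (· ∈ Id V ((w - wt (Sum.inr j)) * s)) ?_).mp e5
  rw [map_sub, map_sub, map_sum]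
  have e6 : ∑ l ∈ range ζ.natDegree, (u.comp P').qs (MvPolynomial.eval (fun k => (ρ k).coeff 0)
      (MvPolynomial.pderiv j (cc (l + 1)))) * (P''.qs t ^ (l + 1) - (u.comp P').qs t ^ (l + 1)) -
      ∑ l ∈ range ζ.natDegree, (u.comp P).qs (MvPolynomial.eval (fun k => (ρ k).coeff 0)
      (MvPolynomial.pderiv j (cc (l + 1)))) * (P''.qs t ^ (l + 1) - (u.comp P).qs t ^ (l + 1)) =
      -∑ l ∈ range ζ.natDegree, u.qs (P.qs (MvPolynomial.eval (fun k => (ρ k).coeff 0)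
        (MvPolynomial.pderiv j (cc (l + 1)))) * (P'.qs t ^ (l + 1) - P.qs t ^ (l + 1))) := by
    rw [← Finset.sum_sub_distrib, ← Finset.sum_neg_distrib]
    apply Finset.sum_congr rfl
    intro l _
    have e7 : (u.comp P').qs (MvPolynomial.eval (fun k => (ρ k).coeff 0) (MvPolynomial.pderiv j (cc (l + 1)))) =
        (u.comp P).qs (MvPolynomial.eval (fun k => (ρ k).coeff 0) (MvPolynomial.pderiv j (cc (l + 1)))) := by
      rw [Pj.comp_qs, Pj.comp_qs, cco l W P P' hA hf]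
    rw [e7, Pj.comp_qs, Pj.comp_qs, Pj.comp_qs, map_mul, map_sub, map_pow, map_pow]
    ring
  simp only [Pj.comp_qs] at e6 ⊢
  linear_combination e6

end Cur

end

end Pool.Agent.Helper14.WLK
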