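import Pool.Agent.Helper14.WLK.Lf
import Pool.Agent.Helper79.JET.Jet

/-! Transports on the zoom: data of one type in a box, step 1. -/

set_option autoImplicit false
set_option linter.unusedSectionVars false

namespace Pool.Agent.Helper14.WLK

open Finset Filter Topology Pool.Agent.Helper69.RK Pool.Agent.Helper31.EC Pool.Agent.Helper31.EC.Sp
open Pool.Agent.Helper31.EC.QS Pool.Agent.Helper57.TA Pool.Agent.Helper21.DO Pool.Agent.Helper95.RIG
open Pool.Agent.Helper79.JET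

noncomputable section

/-- DATA OF ONE TYPE AND A BOX of scale `y`: base line `bV` (literal) and functions `fb` of the base line, literal
variable `xV` and functions `fx` of the curve, box functions `g`; height `t`, base coordinates `q` (straight lines),
lower coordinates `R` (flat), next coordinate `z` (a curve); centres `tc`, `qc`, `Pc`, `Fc` (functions of the box) and
the coordinates `t'`, `R'`, `z'` of the point in the box -/
structure Far {S : Sp} {β κ : Type} [Fintype β] [Fintype κ] {νb νx νg : Type} [Fintype νb] [Fintype νx] [Fintype νg]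
    {α αx : ℕ → Type} (bV : ∀ k, (S.F k).Ω → α k) (xV : ∀ k, (S.F k).Ω → αx k) (fb : νb → QS S) (fx : νx → QS S)
    (g : νg → QS S) (t : QS S)
    (q : β → QS S) (R : κ → QS S) (z : QS S) (wt : κ → ℝ) (w y ℓ : ℝ) (tc : QS S) (qc : β → QS S)
    (Pc : κ → MvPolynomial β (QS S)) (Fc : MvPolynomial (β ⊕ κ) (QS S)) (t' : QS S) (R' : κ → QS S) (z' : QS S) :
    Prop where
  bdd : Bdd bV
  bddx : Bdd xV
  /-- the base line is a literal function of the curve -/
  bx : ∃ e : ∀ k, αx k → α k, ∀ k ω, bV k ω = e k (xV k ω)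
  fbk : vd fb 1 ≤ io bV
  fbx : ∀ a, fb a ∈ LF xV fx
  /-- straight base lines -/
  line : ∀ a, ∃ f ∈ LF bV fb, ∃ u ∈ LF bV fb, q a = f + t * u
  /-- flat lower coordinates -/
  Rcv : ∀ k, ∃ P : Polynomial (QS S), P ∈ CS1 (LF xV fx) ∧ (∀ j, j ≠ 0 → P.coeff j ∈ LF bV fb) ∧ R k = P.eval t
  treal : h (dg t 1) (io xV ⊔ vd fx 1) = 1
  tbox : 1 - y ≤ h (dg t 1) (io xV ⊔ vd fx 1 ⊔ vd g 1)
  /-- THEOREM R: the box at one point of the curve is known at the other -/
  thmR : ∀ (W : Sp) (P P' : Pj W S), Ag xV P P' → (∀ i, P.qs (fx i) = P'.qs (fx i)) →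
    P'.map (vd g 1) ≤ P.map (io bV ⊔ dg t 1 ⊔ vd g 1) ⊔ P'.map (dg t 1)
  tcg : tc ∈ LG g
  qcg : ∀ a, qc a ∈ LG g
  Pcg : ∀ k, Pc k ∈ CS (LG g)
  Fcg : Fc ∈ CS (LG g)
  nt : t = tc + sc S y * t'
  nR : ∀ k, R k = MvPolynomial.eval (fun a => q a - qc a) (Pc k) + sc S (wt k * y) * R' k
  nz : z = MvPolynomial.eval (Sum.elim (fun a => q a - qc a) (fun k => sc S (wt k * y) * R' k)) Fc +
    sc S (w * y) * z'
  tk : dg t' 1 ≤ dg t 1 ⊔ vd g 1
  /-- the first digits of the lower coordinates in the box are free over the base point -/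
  full : Rt ℓ R' (io bV ⊔ dg t 1 ⊔ vd g 1)

section two

variable {S : Sp} {α : ℕ → Type} {U : ∀ k, (S.F k).Ω → α k} (C : Cps S U 1)

theorem cps_ind (x y : S.L) : I ((C.p 0).map x) ((C.p 1).map y) C.v = 0 := by
  have h3 := I_block C (s := {0}) (t := {1}) (by simp) (fun _ => x) (fun _ => y)
  rw [Finset.sup_singleton, Finset.sup_singleton] at h3
  exact h3

/-- the second point is new over the first one -/
theorem cps_new {y K : S.L} (hK : io U ≤ K) : h ((C.p 1).map y) ((C.p 0).map K) = h y (io U) := by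
  have h1 := I_zero_iff_h'.mp (cps_ind C K y)
  have h2 : C.v ≤ (C.p 0).map K := Pj.map_mono _ hK
  rw [sup_eq_left.mpr h2, C.h_map_v] at h1
  exact h1

end two

theorem map_eval1 {S T : Sp} (p : Pj T S) (F : Polynomial (QS S)) (s : QS S) :
    p.qs (F.eval s) = (F.map p.qs).eval (p.qs s) := by
  rw [Polynomial.eval_map, Polynomial.eval₂_at_apply]

variable {S : Sp} {β κ : Type} [Fintype β] [Fintype κ] {νb νx νg : Type} [Fintype νb] [Fintype νx] [Fintype νg]
    {α αx : ℕ → Type} {bV : ∀ k, (S.F k).Ω → α k} {xV : ∀ k, (S.F k).Ω → αx k} {fb : νb → QS S} {fx : νx → QS S}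
    {g : νg → QS S} {t : QS S}
    {q : β → QS S} {R : κ → QS S} {z : QS S} {wt : κ → ℝ} {w y ℓ : ℝ} {tc : QS S} {qc : β → QS S}
    {Pc : κ → MvPolynomial β (QS S)} {Fc : MvPolynomial (β ⊕ κ) (QS S)} {t' : QS S} {R' : κ → QS S} {z' : QS S}

/-- step 1: the coefficients of the curve of `z` are polynomials of the point in the box, known to the base point -/
theorem Far.one (hF : Far bV xV fb fx g t q R z wt w y ℓ tc qc Pc Fc t' R' z') (hℓ : 0 < ℓ) (hℓ1 : ℓ ≤ 1)
    (hwy : 0 ≤ w * y) (hwy1 : w * y ≤ 1) {Zp : Polynomial (QS S)} (hZ : Zp ∈ CS1 (LF xV fx)) (hz : z = Zp.eval t)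
    (l : ℕ) (hl : l ≠ 0) :
    ∃ Q : MvPolynomial κ (QS S), Q ∈ PK (io bV ⊔ dg t 1 ⊔ vd g 1) ∧
      Zp.coeff l - MvPolynomial.eval R' Q ∈ Id S (w * y) := by
  classical
  obtain ⟨eb, heb⟩ := hF.bx
  obtain ⟨γ, U, hU, hUio, ⟨eU, heU⟩, hUf⟩ := exists_lvar hF.bddx fx
  obtain ⟨C2⟩ := Cps.exists U hU 1
  obtain ⟨P0, hP0⟩ : ∃ P0 : Pj C2.W S, P0 = C2.p 0 := ⟨_, rfl⟩
  obtain ⟨P1, hP1⟩ : ∃ P1 : Pj C2.W S, P1 = C2.p 1 := ⟨_, rfl⟩
  have hAg : Ag U P0 P1 := by
    rw [hP0, hP1]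
    exact Cps_Ag C2 0 1
  have hAgx : Ag xV P0 P1 := hAg.fn eU heU
  have hAgb : Ag bV P0 P1 := hAgx.fn eb heb
  have hfx : ∀ i, P0.qs (fx i) = P1.qs (fx i) := hUf _ _ _ hAg
  have cx : ∀ {c : QS S}, c ∈ LF xV fx → P0.qs c = P1.qs c := fun hc => hc _ P0 P1 hAgx hfx
  have hbx : LF bV fb ≤ LF xV fx := (LF_fn eb heb).trans (LF_mono hF.fbx)
  -- independence of the second height
  set A0 : S.L := io bV ⊔ dg t 1 ⊔ vd g 1 with hA0
  have hnew : ∀ K : S.L, h (P1.map (dg t 1)) (P0.map K) = 1 := by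
    intro K
    apply le_antisymm ((h_le_H _ _).trans (by rw [← P1.qs_dg]; exact H_dg_le _ zero_le_one))
    have h1 := cps_new C2 (y := dg t 1) (K := K ⊔ io U) le_sup_right
    rw [← hP0, ← hP1, hUio, hF.treal] at h1
    exact h1.ge.trans (h_anti (P0.map_mono le_sup_left))
  have hind : ∀ K B : S.L, I (P0.map K) (P1.map (dg t 1)) (P0.map B) = 0 := by
    intro K B
    rw [I_zero_iff_h', ← P0.map_sup, hnew, hnew]
  -- the first variable
  have hb0 : Bdd (S := C2.W) (fun k w => bV k (P0.π k w)) := (P0.bdd_iff bV).mpr hF.bdd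
  obtain ⟨f0, hf0⟩ : ∃ f0 : νb ⊕ (Unit ⊕ νg) → QS C2.W, f0 =
    Sum.elim (fun i => P0.qs (fb i)) (Sum.elim (fun _ => P0.qs t) (fun i => P0.qs (g i))) := ⟨_, rfl⟩
  obtain ⟨γ0, V0, hV0, hV0io, ⟨e0, he0⟩, hV0f⟩ := exists_lvar hb0 f0
  obtain ⟨f1, hf1⟩ : ∃ f1 : Unit ⊕ νg → QS C2.W, f1 = Sum.elim (fun _ => P1.qs t) (fun i => P1.qs (g i)) :=
    ⟨_, rfl⟩
  obtain ⟨γ1, V, hV, hVio, ⟨e1, he1⟩, hVf⟩ := exists_lvar hV0 f1
  have hV0A : io V0 = P0.map A0 := by
    rw [hV0io, hf0]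
    have e2 : io (fun k w => bV k (P0.π k w)) = P0.map (io bV) := (P0.map_io bV).symm
    rw [e2]
    apply le_antisymm
    · refine sup_le (P0.map_mono (le_sup_left.trans le_sup_left)) ?_
      rw [vd_le]
      rintro (i | i | i)
      · show dg (P0.qs (fb i)) 1 ≤ _
        rw [P0.qs_dg]
        exact P0.map_mono (((dg_le_vd fb 1 i).trans hF.fbk).trans (le_sup_left.trans le_sup_left))
      · show dg (P0.qs t) 1 ≤ _
        rw [P0.qs_dg]
        exact P0.map_mono (le_sup_right.trans le_sup_left)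
      · show dg (P0.qs (g i)) 1 ≤ _
        rw [P0.qs_dg]
        exact P0.map_mono ((dg_le_vd g 1 i).trans le_sup_right)
    · rw [hA0, P0.map_sup, P0.map_sup]
      refine sup_le (sup_le le_sup_left ?_) ?_
      · rw [← P0.qs_dg]
        exact (dg_le_vd (Sum.elim (fun i => P0.qs (fb i)) (Sum.elim (fun _ => P0.qs t) (fun i => P0.qs (g i)))) 1
          (Sum.inr (Sum.inl ()))).trans le_sup_right
      · rw [← P0.qs_vd, vd_le]
        intro i
        exact (dg_le_vd (Sum.elim (fun i => P0.qs (fb i)) (Sum.elim (fun _ => P0.qs t) (fun i => P0.qs (g i)))) 1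
          (Sum.inr (Sum.inr i))).trans le_sup_right
  have ht1V : P1.map (dg t 1) ≤ io V := by
    rw [hVio, ← P1.qs_dg, hf1]
    exact (dg_le_vd (Sum.elim (fun _ => P1.qs t) (fun i => P1.qs (g i))) 1 (Sum.inl ())).trans le_sup_right
  have hVle : io V ≤ P1.map (dg t 1) ⊔ P0.map A0 := by
    rw [hVio, hV0A]
    refine sup_le le_sup_right ?_
    rw [vd_le, hf1]
    rintro (i | i)
    · show dg (P1.qs t) 1 ≤ _
      rw [P1.qs_dg]
      exact le_sup_left
    · show dg (P1.qs (g i)) 1 ≤ _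
      rw [P1.qs_dg]
      refine (P1.map_mono (dg_le_vd g 1 i)).trans ?_
      rw [sup_comm]
      exact hF.thmR _ P0 P1 hAgx hfx
  -- literal functions of the variable
  obtain ⟨LV, hLV⟩ : ∃ LV : Subring (QS C2.W), LV = LF V (fun i : Empty => i.elim) := ⟨_, rfl⟩
  have aV0 : ∀ {D : Sp} {r r' : Pj D C2.W}, Ag V r r' → Ag V0 r r' := fun hr => hr.fn e1 he1
  have ab : ∀ {D : Sp} {r r' : Pj D C2.W}, Ag V r r' → Ag bV (r.comp P0) (r'.comp P0) := by
    intro D r r' hr k w hw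
    exact ((aV0 hr).fn e0 he0) k w hw
  have l0b : ∀ {c : QS S}, c ∈ LF bV fb → P0.qs c ∈ LV := by
    intro c hc
    rw [hLV]
    intro D r r' hr _
    rw [← Pj.comp_qs, ← Pj.comp_qs]
    apply hc D _ _ (ab hr)
    intro i
    rw [Pj.comp_qs, Pj.comp_qs]
    have h1 := hV0f D r r' (aV0 hr) (Sum.inl i)
    rwa [hf0] at h1
  have l0g : ∀ {c : QS S}, c ∈ LG g → P0.qs c ∈ LV := by
    intro c hc
    rw [hLV]
    intro D r r' hr _
    rw [← Pj.comp_qs, ← Pj.comp_qs]
    apply hc D _ _ (fun _ _ _ => rfl)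
    intro i
    rw [Pj.comp_qs, Pj.comp_qs]
    have h1 := hV0f D r r' (aV0 hr) (Sum.inr (Sum.inr i))
    rwa [hf0] at h1
  have l1g : ∀ {c : QS S}, c ∈ LG g → P1.qs c ∈ LV := by
    intro c hc
    rw [hLV]
    intro D r r' hr _
    rw [← Pj.comp_qs, ← Pj.comp_qs]
    apply hc D _ _ (fun _ _ _ => rfl)
    intro i
    rw [Pj.comp_qs, Pj.comp_qs]
    have h1 := hVf D r r' hr (Sum.inr i)
    rwa [hf1] at h1
  have l0t : P0.qs t ∈ LV := by
    rw [hLV]
    intro D r r' hr _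
    have h1 := hV0f D r r' (aV0 hr) (Sum.inr (Sum.inl ()))
    rwa [hf0] at h1
  have l1t : P1.qs t ∈ LV := by
    rw [hLV]
    intro D r r' hr _
    have h1 := hVf D r r' hr (Sum.inl ())
    rwa [hf1] at h1
  have l1b : ∀ {c : QS S}, c ∈ LF bV fb → P1.qs c ∈ LV := fun hc => by
    rw [← cx (hbx hc)]
    exact l0b hc
  have lsc : ∀ u : ℝ, sc C2.W u ∈ LV := fun u => by rw [hLV]; exact LF_sc u
  -- displacements of the base point
  obtain ⟨X0, hX0⟩ : ∃ X0 : β → QS C2.W, X0 = fun a => P0.qs (q a - qc a) := ⟨_, rfl⟩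
  obtain ⟨X1, hX1⟩ : ∃ X1 : β → QS C2.W, X1 = fun a => P1.qs (q a - qc a) := ⟨_, rfl⟩
  have lX0 : ∀ a, X0 a ∈ LV := by
    intro a
    obtain ⟨f, hf, u, hu, hq⟩ := hF.line a
    rw [hX0]
    show P0.qs (q a - qc a) ∈ LV
    rw [hq, map_sub, map_add, map_mul]
    exact LV.sub_mem (LV.add_mem (l0b hf) (LV.mul_mem l0t (l0b hu))) (l0g (hF.qcg a))
  have lX1 : ∀ a, X1 a ∈ LV := by
    intro a
    obtain ⟨f, hf, u, hu, hq⟩ := hF.line a
    rw [hX1]
    show P1.qs (q a - qc a) ∈ LV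
    rw [hq, map_sub, map_add, map_mul]
    exact LV.sub_mem (LV.add_mem (l1b hf) (LV.mul_mem l1t (l1b hu))) (l1g (hF.qcg a))
  -- flatness
  have lR : ∀ k, P1.qs (R k) - P0.qs (R k) ∈ LV := by
    intro k
    obtain ⟨P, h1, h2, h3⟩ := hF.Rcv k
    obtain ⟨P', hP'⟩ : ∃ P' : Polynomial (QS S), P' = P - Polynomial.C (P.coeff 0) := ⟨_, rfl⟩
    have h4 : P' ∈ CS1 (LF bV fb) := by
      intro n
      rw [hP', Polynomial.coeff_sub, Polynomial.coeff_C]
      by_cases hn : n = 0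
      · rw [if_pos hn, hn, sub_self]
        exact Subring.zero_mem _
      · rw [if_neg hn, sub_zero]
        exact h2 n hn
    have h5 : P = P' + Polynomial.C (P.coeff 0) := by
      rw [hP']
      ring
    have h6 : ∀ (Q : Pj C2.W S), Q.qs (R k) = (P'.map Q.qs).eval (Q.qs t) + Q.qs (P.coeff 0) := by
      intro Q
      rw [h3, ← map_eval1, ← map_add]
      congr 1
      conv_lhs => rw [h5]
      rw [Polynomial.eval_add, Polynomial.eval_C]
    rw [h6, h6, cx (h1 0)]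
    have e2 : (P'.map P1.qs).eval (P1.qs t) + P1.qs (P.coeff 0) -
        ((P'.map P0.qs).eval (P0.qs t) + P1.qs (P.coeff 0)) =
        (P'.map P1.qs).eval (P1.qs t) - (P'.map P0.qs).eval (P0.qs t) := by ring
    rw [e2]
    exact LV.sub_mem (CS1_eval (CS1_map _ fun n => l1b (h4 n)) l1t) (CS1_eval (CS1_map _ fun n => l0b (h4 n)) l0t)
  obtain ⟨δ, hδ⟩ : ∃ δ : κ → QS C2.W, δ = fun k => MvPolynomial.eval X0 (MvPolynomial.map P0.qs (Pc k)) -
    MvPolynomial.eval X1 (MvPolynomial.map P1.qs (Pc k)) + (P1.qs (R k) - P0.qs (R k)) := ⟨_, rfl⟩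
  have lδ : ∀ k, δ k ∈ LV := by
    intro k
    rw [hδ]
    exact LV.add_mem (LV.sub_mem (CS_eval (CS_map _ fun m => l0g (hF.Pcg k m)) lX0)
      (CS_eval (CS_map _ fun m => l1g (hF.Pcg k m)) lX1)) (lR k)
  have hnR : ∀ (Q : Pj C2.W S) k, sc C2.W (wt k * y) * Q.qs (R' k) = Q.qs (R k) -
      MvPolynomial.eval (fun a => Q.qs (q a - qc a)) (MvPolynomial.map Q.qs (Pc k)) := by
    intro Q k
    have h1 := congrArg Q.qs (hF.nR k)
    rw [map_add, map_mul, Pj_qs_sc, qs_eval] at h1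
    rw [h1]
    ring
  have hδe : ∀ k, sc C2.W (wt k * y) * P1.qs (R' k) = sc C2.W (wt k * y) * P0.qs (R' k) + δ k := by
    intro k
    rw [hnR P0 k, hnR P1 k, hδ, hX0, hX1]
    ring
  -- the polynomial
  obtain ⟨Ψ, hΨ⟩ : ∃ Ψ : MvPolynomial κ (QS C2.W), Ψ =
    MvPolynomial.aeval (Sum.elim (fun a => MvPolynomial.C (X1 a)) (fun k => MvPolynomial.C (sc C2.W (wt k * y)) *
      MvPolynomial.X k + MvPolynomial.C (δ k))) (MvPolynomial.map P1.qs Fc) -
    MvPolynomial.aeval (Sum.elim (fun a => MvPolynomial.C (X0 a)) (fun k => MvPolynomial.C (sc C2.W (wt k * y)) *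
      MvPolynomial.X k)) (MvPolynomial.map P0.qs Fc) := ⟨_, rfl⟩
  have lΨ : Ψ ∈ CS LV := by
    rw [hΨ]
    apply (CS LV).sub_mem
    · apply CS_aeval (CS_map _ fun m => l1g (hF.Fcg m))
      rintro (a | k)
      · exact CS_C (lX1 a)
      · exact (CS LV).add_mem ((CS LV).mul_mem (CS_C (lsc _)) (CS_X _ _)) (CS_C (lδ k))
    · apply CS_aeval (CS_map _ fun m => l0g (hF.Fcg m))
      rintro (a | k)
      · exact CS_C (lX0 a)
      · exact (CS LV).mul_mem (CS_C (lsc _)) (CS_X _ _)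
  have hnz : ∀ (Q : Pj C2.W S), Q.qs z = MvPolynomial.eval (Sum.elim (fun a => Q.qs (q a - qc a))
      (fun k => sc C2.W (wt k * y) * Q.qs (R' k))) (MvPolynomial.map Q.qs Fc) + sc C2.W (w * y) * Q.qs z' := by
    intro Q
    have h1 := congrArg Q.qs hF.nz
    rw [map_add, map_mul, Pj_qs_sc, qs_eval] at h1
    rw [h1]
    congr 2
    congr 1
    funext a
    rcases a with a | k
    · rfl
    · show Q.qs (_ * _) = _
      rw [map_mul, Pj_qs_sc]
      rfl
  have hΨe : MvPolynomial.eval (fun k => P0.qs (R' k)) Ψ = (P1.qs z - sc C2.W (w * y) * P1.qs z') -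
      (P0.qs z - sc C2.W (w * y) * P0.qs z') := by
    rw [hΨ, map_sub, eval_sbs, eval_sbs]
    congr 1
    · have h1 := hnz P1
      rw [h1]
      have e2 : (fun i => MvPolynomial.eval (fun k => P0.qs (R' k)) (Sum.elim (fun a => MvPolynomial.C (X1 a))
          (fun k => MvPolynomial.C (sc C2.W (wt k * y)) * MvPolynomial.X k + MvPolynomial.C (δ k)) i)) =
          Sum.elim (fun a => P1.qs (q a - qc a)) (fun k => sc C2.W (wt k * y) * P1.qs (R' k)) := by
        funext a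
        rcases a with a | k
        · show MvPolynomial.eval _ (MvPolynomial.C (X1 a)) = _
          rw [MvPolynomial.eval_C, hX1]
          rfl
        · show MvPolynomial.eval _ (MvPolynomial.C _ * MvPolynomial.X k + MvPolynomial.C (δ k)) = _
          rw [map_add, map_mul, MvPolynomial.eval_C, MvPolynomial.eval_C, MvPolynomial.eval_X, ← hδe]
          rfl
      rw [e2]
      ring
    · have h1 := hnz P0
      rw [h1]
      have e2 : (fun i => MvPolynomial.eval (fun k => P0.qs (R' k)) (Sum.elim (fun a => MvPolynomial.C (X0 a))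
          (fun k => MvPolynomial.C (sc C2.W (wt k * y)) * MvPolynomial.X k) i)) =
          Sum.elim (fun a => P0.qs (q a - qc a)) (fun k => sc C2.W (wt k * y) * P0.qs (R' k)) := by
        funext a
        rcases a with a | k
        · show MvPolynomial.eval _ (MvPolynomial.C (X0 a)) = _
          rw [MvPolynomial.eval_C, hX0]
          rfl
        · show MvPolynomial.eval _ (MvPolynomial.C _ * MvPolynomial.X k) = _
          rw [map_mul, MvPolynomial.eval_C, MvPolynomial.eval_X]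
          rfl
      rw [e2]
      ring
  have hZm : Zp.map P0.qs = Zp.map P1.qs := LF_map1 hAgx hfx hZ
  have hE : (Zp.map P0.qs).eval (P1.qs t) - (Zp.map P0.qs).eval (P0.qs t) -
      MvPolynomial.eval (fun k => P0.qs (R' k)) Ψ ∈ Id C2.W (w * y) := by
    rw [hΨe]
    have h1 : (Zp.map P0.qs).eval (P1.qs t) = P1.qs z := by
      rw [hZm, hz, map_eval1]
    have h2 : (Zp.map P0.qs).eval (P0.qs t) = P0.qs z := by
      rw [hz, map_eval1]
    rw [h1, h2]
    have h3 : sc C2.W (w * y) * (P1.qs z' - P0.qs z') ∈ Id C2.W (w * y) := Ideal.mul_mem_right _ _ (sc_mem hwy)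
    refine (congrArg (· ∈ Id C2.W (w * y)) ?_).mp h3
    ring
  -- the core
  obtain ⟨K, hK⟩ : ∃ K : S.L, K = io xV ⊔ vd fx 1 ⊔ dg t 1 ⊔ vd R' 1 := ⟨_, rfl⟩
  have hx : Rt ℓ (fun k => P0.qs (R' k)) (io V) := by
    apply Rt.anti hℓ.le (B := P1.map (dg t 1) ⊔ P0.map A0) _ hVle
    have h1 := I_zero_iff_h.mp (hind (vd R' ℓ) A0)
    unfold Rt
    rw [P0.qs_vd, h1, P0.h_map]
    exact hF.full
  obtain ⟨W, p, A, hA, hAe⟩ := core hV hV0 e1 he1 (fun k => P0.qs (R' k)) (Zp.map P0.qs) (P0.qs t) (P1.qs t) Ψ hℓ hℓ1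
    hwy1 (P0.map K) hx (by
      intro k
      rw [P0.qs_dg]
      apply P0.map_mono
      rw [hK]
      exact (dg_le_vd R' 1 k).trans le_sup_right) (map_PK1 P0 (by
      intro n
      rw [hK]
      exact (LF_know hF.bddx (hZ n)).trans (le_sup_left.trans le_sup_left))) (by
      rw [P0.qs_dg]
      apply P0.map_mono
      rw [hK]
      exact le_sup_right.trans le_sup_left) (by
      intro D r r' hr
      have h1 := l1t
      rw [hLV] at h1
      refine ⟨h1 D r r' hr (fun i => i.elim), ?_⟩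
      rw [hLV] at lΨ
      exact LF_map hr (fun i => i.elim) lΨ) (by
      rw [hV0A]
      exact I_zero_mono (hind K A0) le_sup_left hVle) (by
      rw [hV0A, P1.qs_dg]
      exact hnew A0) (by
      rw [P1.qs_dg]
      exact ht1V) hE l hl
  obtain ⟨Q, hQ1, _, hQ3⟩ := descend_coeff (p.comp P0) (Zp.coeff l) hℓ hℓ1 hF.full hwy le_rfl hwy1 (P := A) (by
    rw [Pj.comp_map, ← hV0A]
    exact hA) (by
    rw [Pj.comp_qs]
    have e2 : (fun i => (p.comp P0).qs (R' i)) = fun a => p.qs (P0.qs (R' a)) := by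
      funext i
      rw [Pj.comp_qs]
    rw [e2]
    rw [Polynomial.coeff_map] at hAe
    exact hAe)
  exact ⟨Q, hQ1, hQ3⟩

end

end Pool.Agent.Helper14.WLK
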