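import Pool.Agent.Helper14.WLK.Main

/-! Transports on the zoom: lower coordinates which are flat up to `Id kap` only. -/

set_option autoImplicit false
set_option linter.unusedSectionVars false

namespace Pool.Agent.Helper14.WLK

open Finset Filter Topology Pool.Agent.Helper69.RK Pool.Agent.Helper31.EC Pool.Agent.Helper31.EC.Sp
open Pool.Agent.Helper31.EC.QS Pool.Agent.Helper57.TA Pool.Agent.Helper21.DO Pool.Agent.Helper95.RIG
open Pool.Agent.Helper79.JET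

noncomputable section

/-- `Far` with lower coordinates which are flat up to `Id kap` -/
structure FarK {S : Sp} {β κ : Type} [Fintype β] [Fintype κ] {νb νx νg : Type} [Fintype νb] [Fintype νx] [Fintype νg]
    {α αx : ℕ → Type} (bV : ∀ k, (S.F k).Ω → α k) (xV : ∀ k, (S.F k).Ω → αx k) (fb : νb → QS S) (fx : νx → QS S)
    (g : νg → QS S) (t : QS S)
    (q : β → QS S) (R : κ → QS S) (z : QS S) (wt : κ → ℝ) (w y ℓ kap : ℝ) (tc : QS S) (qc : β → QS S)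
    (Pc : κ → MvPolynomial β (QS S)) (Fc : MvPolynomial (β ⊕ κ) (QS S)) (t' : QS S) (R' : κ → QS S) (z' : QS S) :
    Prop where
  bdd : Bdd bV
  bddx : Bdd xV
  bx : ∃ e : ∀ k, αx k → α k, ∀ k ω, bV k ω = e k (xV k ω)
  fbk : vd fb 1 ≤ io bV
  fbx : ∀ a, fb a ∈ LF xV fx
  line : ∀ a, ∃ f ∈ LF bV fb, ∃ u ∈ LF bV fb, q a = f + t * u
  /-- flat lower coordinates, up to `Id kap` -/
  Rcv : ∀ k, ∃ P : Polynomial (QS S), P ∈ CS1 (LF xV fx) ∧ (∀ j, j ≠ 0 → P.coeff j ∈ LF bV fb) ∧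
    R k - P.eval t ∈ Id S kap
  /-- the next coordinate is a polynomial along the curve, up to `Id kap` -/
  zcv : ∃ Zp : Polynomial (QS S), Zp ∈ CS1 (LF xV fx) ∧ z - Zp.eval t ∈ Id S kap
  treal : h (dg t 1) (io xV ⊔ vd fx 1) = 1
  tbox : 1 - y ≤ h (dg t 1) (io xV ⊔ vd fx 1 ⊔ vd g 1)
  thmR : ∀ (W : Sp) (P P' : Pj W S), Ag xV P P' → (∀ i, P.qs (fx i) = P'.qs (fx i)) →
    P'.map (vd g 1) ≤ P.map (io bV ⊔ dg t 1 ⊔ vd g 1) ⊔ P'.map (dg t 1)
  tcg : tc ∈ LG g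
  qcg : ∀ a, qc a ∈ LG g
  Pcg : ∀ k, Pc k ∈ CS (LG g)
  Fcg : Fc ∈ CS (LG g)
  nt : t = tc + sc S y * t'
  nR : ∀ k, R k = MvPolynomial.eval (fun a => q a - qc a) (Pc k) + sc S (wt k * y) * R' k
  nz : z = MvPolynomial.eval (Sum.elim (fun a => q a - qc a) (fun k => sc S (wt k * y) * R' k)) Fc +
    sc S (w * y) * z'
  tk : dg t' 1 ≤ dg t 1 ⊔ vd g 1
  full : Rt ℓ R' (io bV ⊔ dg t 1 ⊔ vd g 1)

variable {S : Sp} {β κ : Type} [Fintype β] [Fintype κ] {νb νx νg : Type} [Fintype νb] [Fintype νx] [Fintype νg]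
    {α αx : ℕ → Type} {bV : ∀ k, (S.F k).Ω → α k} {xV : ∀ k, (S.F k).Ω → αx k} {fb : νb → QS S} {fx : νx → QS S}
    {g : νg → QS S} {t : QS S}
    {q : β → QS S} {R : κ → QS S} {z : QS S} {wt : κ → ℝ} {w y ℓ kap : ℝ} {tc : QS S} {qc : β → QS S}
    {Pc : κ → MvPolynomial β (QS S)} {Fc : MvPolynomial (β ⊕ κ) (QS S)} {t' : QS S} {R' : κ → QS S} {z' : QS S}

theorem Rt_congr {ι : Type} [Fintype ι] {x x' : ι → QS S} {ℓ : ℝ} (hℓ1 : ℓ ≤ 1) {A : S.L}
    (h : ∀ i, x i - x' i ∈ Id S ℓ) (hx : Rt ℓ x A) : Rt ℓ x' A := by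
  unfold Rt at hx ⊢
  rw [← hx]
  congr 1
  unfold vd
  congr 1
  funext i
  exact (dg_eq_of_sub_mem (h i) le_rfl hℓ1).symm

theorem Out.congr {B X : S.L} {t' : QS S} {R' R'' : κ → QS S} {z' z'' : QS S} {c : ℝ}
    {ρ : κ → Polynomial (QS S)} {ζ : Polynomial (QS S)} {cc : ℕ → MvPolynomial κ (QS S)}
    (hO : Out B X t' R' z' c ρ ζ cc) (hR : ∀ k, R'' k - R' k ∈ Id S c) (hz : z'' - z' ∈ Id S c) :
    Out B X t' R'' z'' c ρ ζ cc where
  ρX := hO.ρX
  ρB := hO.ρB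
  ζX := hO.ζX
  cB := hO.cB
  R := fun k => by
    have h1 := (Id S c).add_mem (hR k) (hO.R k)
    refine (congrArg (· ∈ Id S c) ?_).mp h1
    ring
  z := by
    have h1 := (Id S c).add_mem hz hO.z
    refine (congrArg (· ∈ Id S c) ?_).mp h1
    ring
  ζc := hO.ζc

/-- THE CURVE IN THE BOX, from flatness up to `Id kap` -/
theorem FarK.main (hF : FarK bV xV fb fx g t q R z wt w y ℓ kap tc qc Pc Fc t' R' z') (hℓ : 0 < ℓ) (hy0 : 0 < y)
    (hy1 : y < 1) (hwy : 0 ≤ w * y) (hw0 : ∀ k, 0 ≤ wt k * y)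
    (hww : ∀ k, wt k * y + w * y ≤ 1) (hℓ1 : ℓ ≤ 1) (hℓw : ∀ k, ℓ ≤ 1 - wt k * y)
    {c : ℝ} (hc0 : 0 ≤ c) (hc : c ≤ y) (hk1 : kap ≤ 1) (hcw : w * y + c ≤ kap) (hck : ∀ k, wt k * y + c ≤ kap)
    (hkℓ : ∀ k, wt k * y + ℓ ≤ kap) :
    ∃ (ρ : κ → Polynomial (QS S)) (ζ : Polynomial (QS S)) (cc : ℕ → MvPolynomial κ (QS S)),
      Out (io bV ⊔ vd g 1) (io xV ⊔ vd fx 1 ⊔ vd g 1) t' R' z' c ρ ζ cc := by
  classical
  have hk0 : 0 ≤ kap := (add_nonneg hwy hc0).trans hcw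
  choose P hP1 hP2 hP3 using hF.Rcv
  obtain ⟨Zp, hZ1, hZ2⟩ := hF.zcv
  have hd : ∀ k, ∃ d : QS S, R k - (P k).eval t = sc S kap * d := fun k => by
    obtain ⟨d, hd, _⟩ := exists_div' hk0 hk1 (hP3 k)
    exact ⟨d, hd⟩
  choose d hd using hd
  obtain ⟨dz, hdz⟩ : ∃ d : QS S, z - Zp.eval t = sc S kap * d := by
    obtain ⟨d, hd, _⟩ := exists_div' hk0 hk1 hZ2
    exact ⟨d, hd⟩
  have hsk : ∀ k, sc S kap = sc S (wt k * y) * sc S (kap - wt k * y) := by
    intro k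
    rw [← sc_add (hw0 k) (by have := hck k; linarith)]
    congr 1
    ring
  have hsz : sc S kap = sc S (w * y) * sc S (kap - w * y) := by
    rw [← sc_add hwy (by linarith)]
    congr 1
    ring
  obtain ⟨Rf, hRf⟩ : ∃ Rf : κ → QS S, Rf = fun k => (P k).eval t := ⟨_, rfl⟩
  obtain ⟨R1, hR1⟩ : ∃ R1 : κ → QS S, R1 = fun k => R' k - sc S (kap - wt k * y) * d k := ⟨_, rfl⟩
  have hRR : ∀ k, R' k - R1 k ∈ Id S (kap - wt k * y) := by
    intro k
    rw [hR1]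
    refine (congrArg (· ∈ Id S (kap - wt k * y)) ?_).mp
      (Ideal.mul_mem_right (d k) _ (sc_mem (S := S) (by have := hck k; linarith : 0 ≤ kap - wt k * y)))
    ring
  -- the difference of the frames
  obtain ⟨E, hE⟩ : ∃ E : QS S, E = MvPolynomial.eval (Sum.elim (fun a => q a - qc a)
      (fun k => sc S (wt k * y) * R' k)) Fc - MvPolynomial.eval (Sum.elim (fun a => q a - qc a)
      (fun k => sc S (wt k * y) * R1 k)) Fc := ⟨_, rfl⟩
  have hEk : E ∈ Id S kap := by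
    rw [hE]
    apply eval_sub_mem
    rintro (a | k)
    · show q a - qc a - (q a - qc a) ∈ _
      rw [sub_self]
      exact Ideal.zero_mem _
    · show sc S (wt k * y) * R' k - sc S (wt k * y) * R1 k ∈ _
      have h1 := sc_mul_mem (hw0 k) (hRR k)
      have e1 : wt k * y + (kap - wt k * y) = kap := by ring
      rw [e1] at h1
      refine (congrArg (· ∈ Id S kap) ?_).mp h1
      ring
  obtain ⟨e, he, _⟩ := exists_div' hwy (by linarith : w * y ≤ 1) (Id_mono (by linarith : w * y ≤ kap) hEk)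
  have hec : e ∈ Id S c := by
    have h1 : sc S (w * y) * e ∈ Id S kap := by rw [← he]; exact hEk
    exact Id_mono (by linarith) (mem_of_sc_mul hwy hk1 h1)
  obtain ⟨z1, hz1⟩ : ∃ z1 : QS S, z1 = z' + e - sc S (kap - w * y) * dz := ⟨_, rfl⟩
  have hzz : z' - z1 ∈ Id S c := by
    rw [hz1]
    have h1 : sc S (kap - w * y) * dz ∈ Id S c := Id_mono (by linarith)
      (Ideal.mul_mem_right dz _ (sc_mem (S := S) (by linarith : 0 ≤ kap - w * y)))
    refine (congrArg (· ∈ Id S c) ?_).mp ((Id S c).sub_mem h1 hec)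
    ring
  have hFar : Far bV xV fb fx g t q Rf (Zp.eval t) wt w y ℓ tc qc Pc Fc t' R1 z1 :=
    { bdd := hF.bdd
      bddx := hF.bddx
      bx := hF.bx
      fbk := hF.fbk
      fbx := hF.fbx
      line := hF.line
      Rcv := fun k => ⟨P k, hP1 k, hP2 k, by rw [hRf]⟩
      treal := hF.treal
      tbox := hF.tbox
      thmR := hF.thmR
      tcg := hF.tcg
      qcg := hF.qcg
      Pcg := hF.Pcg
      Fcg := hF.Fcg
      nt := hF.nt
      nR := fun k => by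
        have h1 := hd k
        rw [hsk k, hF.nR k] at h1
        rw [hRf, hR1]
        show (P k).eval t = _ + sc S (wt k * y) * (R' k - sc S (kap - wt k * y) * d k)
        linear_combination -h1
      nz := by
        have h1 := hdz
        rw [hsz, hF.nz] at h1
        rw [hz1]
        linear_combination -h1 - hE + he
      tk := hF.tk
      full := Rt_congr hℓ1 (fun k => Id_mono (by have := hkℓ k; linarith) (hRR k)) hF.full }
  obtain ⟨ρ, ζ, cc, hO⟩ := hFar.main hℓ hy0 hy1 hwy hw0 hww hℓ1 hℓw hZ1 rfl hc0 hc (hcw.trans hk1)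
    (fun k => (hck k).trans hk1)
  exact ⟨ρ, ζ, cc, hO.congr (fun k => Id_mono (by have := hck k; linarith) (hRR k)) hzz⟩

end

end Pool.Agent.Helper14.WLK
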