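import Pool.Agent.Helper14.WLK.Core

/-! Transports on the zoom: literal functions of a variable and a family, polynomials with coefficients in a subring. -/

set_option autoImplicit false
set_option linter.unusedSectionVars false

namespace Pool.Agent.Helper14.WLK

open Finset Filter Topology Pool.Agent.Helper69.RK Pool.Agent.Helper31.EC Pool.Agent.Helper31.EC.Sp
open Pool.Agent.Helper31.EC.QS Pool.Agent.Helper57.TA Pool.Agent.Helper21.DO Pool.Agent.Helper95.RIG

noncomputable section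

section cs

variable {A B : Type*} [CommRing A] [CommRing B] {σ τ : Type*}

theorem eval₂_mem (R : Subring B) (φ : A →+* B) (x : σ → B) (P : MvPolynomial σ A) (hφ : ∀ m, φ (P.coeff m) ∈ R)
    (hx : ∀ i, x i ∈ R) : MvPolynomial.eval₂ φ x P ∈ R := by
  rw [MvPolynomial.eval₂_eq]
  exact R.sum_mem fun m _ => R.mul_mem (hφ m) (R.prod_mem fun i _ => R.pow_mem (hx i) _)

/-- polynomials with coefficients in a subring -/
def CS (R : Subring A) : Subring (MvPolynomial σ A) where
  carrier := {P | ∀ m, P.coeff m ∈ R}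
  mul_mem' := by
    classical
    intro P Q hP hQ m
    rw [MvPolynomial.coeff_mul]
    exact R.sum_mem fun x _ => R.mul_mem (hP x.1) (hQ x.2)
  one_mem' := by
    classical
    intro m
    rw [MvPolynomial.coeff_one]
    split_ifs
    · exact R.one_mem
    · exact R.zero_mem
  add_mem' := by
    intro P Q hP hQ m
    rw [MvPolynomial.coeff_add]
    exact R.add_mem (hP m) (hQ m)
  zero_mem' := by
    intro m
    rw [MvPolynomial.coeff_zero]
    exact R.zero_mem
  neg_mem' := by
    intro P hP m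
    rw [MvPolynomial.coeff_neg]
    exact R.neg_mem (hP m)

theorem mem_CS {R : Subring A} {P : MvPolynomial σ A} : P ∈ CS R ↔ ∀ m, P.coeff m ∈ R := Iff.rfl

theorem CS_mono {R R' : Subring A} (h : R ≤ R') : CS (σ := σ) R ≤ CS R' := fun _ hP m => h (hP m)

theorem CS_C {R : Subring A} {c : A} (hc : c ∈ R) : MvPolynomial.C c ∈ CS (σ := σ) R := by
  classical
  intro m
  rw [MvPolynomial.coeff_C]
  split_ifs
  · exact hc
  · exact R.zero_mem

theorem CS_X (R : Subring A) (i : σ) : (MvPolynomial.X i : MvPolynomial σ A) ∈ CS R := by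
  classical
  intro m
  rw [MvPolynomial.coeff_X']
  split_ifs
  · exact R.one_mem
  · exact R.zero_mem

theorem CS_eval {R : Subring A} {P : MvPolynomial σ A} (hP : P ∈ CS R) {x : σ → A} (hx : ∀ i, x i ∈ R) :
    MvPolynomial.eval x P ∈ R := by
  rw [← MvPolynomial.eval₂_id]
  exact eval₂_mem R _ x P hP hx

theorem CS_aeval {R : Subring A} {P : MvPolynomial σ A} (hP : P ∈ CS R) {φ : σ → MvPolynomial τ A}
    (hφ : ∀ i, φ i ∈ CS R) : MvPolynomial.aeval φ P ∈ CS R := by
  rw [MvPolynomial.aeval_def]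
  exact eval₂_mem _ _ φ P (fun m => CS_C (hP m)) hφ

theorem CS_map {R : Subring B} (ψ : A →+* B) {P : MvPolynomial σ A} (hP : ∀ m, ψ (P.coeff m) ∈ R) :
    MvPolynomial.map ψ P ∈ CS R := by
  intro m
  rw [MvPolynomial.coeff_map]
  exact hP m

/-- polynomials in one variable with coefficients in a subring -/
def CS1 (R : Subring A) : Subring (Polynomial A) where
  carrier := {P | ∀ n, P.coeff n ∈ R}
  mul_mem' := by
    intro P Q hP hQ n
    rw [Polynomial.coeff_mul]
    exact R.sum_mem fun x _ => R.mul_mem (hP x.1) (hQ x.2)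
  one_mem' := by
    intro n
    rw [Polynomial.coeff_one]
    split_ifs
    · exact R.one_mem
    · exact R.zero_mem
  add_mem' := by
    intro P Q hP hQ n
    rw [Polynomial.coeff_add]
    exact R.add_mem (hP n) (hQ n)
  zero_mem' := by
    intro n
    rw [Polynomial.coeff_zero]
    exact R.zero_mem
  neg_mem' := by
    intro P hP n
    rw [Polynomial.coeff_neg]
    exact R.neg_mem (hP n)

theorem mem_CS1 {R : Subring A} {P : Polynomial A} : P ∈ CS1 R ↔ ∀ n, P.coeff n ∈ R := Iff.rfl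

theorem CS1_mono {R R' : Subring A} (h : R ≤ R') : CS1 R ≤ CS1 R' := fun _ hP m => h (hP m)

theorem CS1_C {R : Subring A} {c : A} (hc : c ∈ R) : Polynomial.C c ∈ CS1 R := by
  intro n
  rw [Polynomial.coeff_C]
  split_ifs
  · exact hc
  · exact R.zero_mem

theorem CS1_X (R : Subring A) : (Polynomial.X : Polynomial A) ∈ CS1 R := by
  intro n
  rw [Polynomial.coeff_X]
  split_ifs
  · exact R.one_mem
  · exact R.zero_mem

theorem CS1_aeval {R : Subring A} {P : MvPolynomial σ A} (hP : P ∈ CS R) {G : σ → Polynomial A}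
    (hG : ∀ i, G i ∈ CS1 R) : MvPolynomial.aeval G P ∈ CS1 R := by
  rw [MvPolynomial.aeval_def]
  exact eval₂_mem _ _ G P (fun m => CS1_C (hP m)) hG

theorem CS1_eval {R : Subring A} {P : Polynomial A} (hP : P ∈ CS1 R) {x : A} (hx : x ∈ R) : P.eval x ∈ R := by
  rw [Polynomial.eval_eq_sum_range]
  exact R.sum_mem fun i _ => R.mul_mem (hP i) (R.pow_mem hx _)

theorem CS1_comp {R : Subring A} {P Q : Polynomial A} (hP : P ∈ CS1 R) (hQ : Q ∈ CS1 R) : P.comp Q ∈ CS1 R := by
  rw [Polynomial.comp_eq_sum_left, Polynomial.sum_def]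
  apply (CS1 R).sum_mem
  intro n _
  exact (CS1 R).mul_mem (CS1_C (hP n)) ((CS1 R).pow_mem hQ _)

theorem CS1_map {R : Subring B} (ψ : A →+* B) {P : Polynomial A} (hP : ∀ n, ψ (P.coeff n) ∈ R) :
    P.map ψ ∈ CS1 R := by
  intro n
  rw [Polynomial.coeff_map]
  exact hP n

end cs

section lf

variable {S : Sp} {α : ℕ → Type} (V : ∀ k, (S.F k).Ω → α k) {ι : Type} (f : ι → QS S)

/-- LITERAL FUNCTIONS of the variable `V` and the family `f` -/
def LF : Subring (QS S) where
  carrier := {c | ∀ (W : Sp) (P P' : Pj W S), Ag V P P' → (∀ i, P.qs (f i) = P'.qs (f i)) → P.qs c = P'.qs c}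
  mul_mem' := by
    intro a b ha hb W P P' h h'
    rw [map_mul, map_mul, ha W P P' h h', hb W P P' h h']
  one_mem' := by
    intro W P P' _ _
    rw [map_one, map_one]
  add_mem' := by
    intro a b ha hb W P P' h h'
    rw [map_add, map_add, ha W P P' h h', hb W P P' h h']
  zero_mem' := by
    intro W P P' _ _
    rw [map_zero, map_zero]
  neg_mem' := by
    intro a ha W P P' h h'
    rw [map_neg, map_neg, ha W P P' h h']

variable {V f}

theorem LF_mem (i : ι) : f i ∈ LF V f := fun _ _ _ _ h' => h' i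

theorem LF_sc (u : ℝ) : sc S u ∈ LF V f := by
  intro W P P' _ _
  rw [Pj_qs_sc, Pj_qs_sc]

theorem LF_natCast (n : ℕ) : (n : QS S) ∈ LF V f := by
  intro W P P' _ _
  rw [map_natCast, map_natCast]

theorem LF_mono {ι' : Type} {f' : ι' → QS S} (h : ∀ i, f i ∈ LF V f') : LF V f ≤ LF V f' :=
  fun _ hc W P P' hV hf => hc W P P' hV fun i => h i W P P' hV hf

theorem LF_fn {β : ℕ → Type} {X : ∀ k, (S.F k).Ω → β k} (e : ∀ k, α k → β k) (he : ∀ k ω, X k ω = e k (V k ω)) :
    LF X f ≤ LF V f := fun _ hc W P P' hV hf => hc W P P' (hV.fn e he) hf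

theorem LF_map {W : Sp} {P P' : Pj W S} (h : Ag V P P') (h' : ∀ i, P.qs (f i) = P'.qs (f i)) {σ : Type}
    {F : MvPolynomial σ (QS S)} (hF : F ∈ CS (LF V f)) : MvPolynomial.map P.qs F = MvPolynomial.map P'.qs F := by
  ext m
  rw [MvPolynomial.coeff_map, MvPolynomial.coeff_map, hF m W P P' h h']

theorem LF_map1 {W : Sp} {P P' : Pj W S} (h : Ag V P P') (h' : ∀ i, P.qs (f i) = P'.qs (f i))
    {F : Polynomial (QS S)} (hF : F ∈ CS1 (LF V f)) : F.map P.qs = F.map P'.qs := by
  ext m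
  rw [Polynomial.coeff_map, Polynomial.coeff_map, hF m W P P' h h']

/-- literal functions are known -/
theorem LF_know [Fintype ι] (hV : Bdd V) {c : QS S} (hc : c ∈ LF V f) : dg c 1 ≤ io V ⊔ vd f 1 := by
  obtain ⟨γ, U, hU, hio, ⟨e, he⟩, hf⟩ := exists_lvar hV f
  obtain ⟨C⟩ := Cps.exists U hU 1
  have h1 := hc C.W (C.p 0) (C.p 1) ((Cps_Ag C 0 1).fn e he) (hf _ _ _ (Cps_Ag C 0 1))
  rw [← (C.p 0).map_le, ← hio]
  have h2 : I ((C.p 0).map (dg c 1)) ((C.p 1).map (dg c 1)) ((C.p 0).map (io U)) = 0 := by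
    have h3 := I_block C (s := {0}) (t := {1}) (by simp) (fun _ => dg c 1) (fun _ => dg c 1)
    rw [Finset.sup_singleton, Finset.sup_singleton] at h3
    exact h3
  apply le_of_markov _ _ h2
  · exact le_sup_left
  · rw [← Pj.qs_dg, ← Pj.qs_dg, h1]
    exact le_sup_left

/-- pulled back literal functions -/
theorem LF_pull {T : Sp} (P : Pj T S) {c : QS S} (hc : c ∈ LF V f) {ι' : Type} {f' : ι' → QS T}
    (hf' : ∀ i, P.qs (f i) ∈ LF (fun k w => V k (P.π k w)) f') :
    P.qs c ∈ LF (fun k w => V k (P.π k w)) f' := by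
  intro W r r' hr hf
  rw [← Pj.comp_qs, ← Pj.comp_qs]
  apply hc W (r.comp P) (r'.comp P)
  · intro k w hw
    exact hr k w hw
  · intro i
    rw [Pj.comp_qs, Pj.comp_qs]
    exact hf' i W r r' hr hf

end lf

/-- literal functions of a family -/
abbrev LG {S : Sp} {ι : Type} (g : ι → QS S) : Subring (QS S) := LF (fun _ _ => ()) g

theorem LG_le {S : Sp} {α : ℕ → Type} {V : ∀ k, (S.F k).Ω → α k} {ι ι' : Type} {g : ι → QS S} {f : ι' → QS S}
    (h : ∀ i, g i ∈ LF V f) : LG g ≤ LF V f :=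
  fun _ hc W P P' hV hf => hc W P P' (fun _ _ _ => rfl) fun i => h i W P P' hV hf

theorem LG_know {S : Sp} {ι : Type} [Fintype ι] {g : ι → QS S} {c : QS S} (hc : c ∈ LG g) : dg c 1 ≤ vd g 1 := by
  have h1 := LF_know bdd_unit hc
  rwa [io_unit, bot_sup_eq] at h1

end

end Pool.Agent.Helper14.WLK
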