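import Pool.Agent.Helper14.WLK.Two

/-! Transports on the zoom: step 3, the curve of `z'` in the box. -/

set_option autoImplicit false
set_option linter.unusedSectionVars false

namespace Pool.Agent.Helper14.WLK

open Finset Filter Topology Pool.Agent.Helper69.RK Pool.Agent.Helper31.EC Pool.Agent.Helper31.EC.Sp
open Pool.Agent.Helper31.EC.QS Pool.Agent.Helper57.TA Pool.Agent.Helper21.DO Pool.Agent.Helper95.RIG
open Pool.Agent.Helper79.JET

noncomputable section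

/-- OUTPUT of the analysis in a box: `R'`, `z'` are polynomials in `t'` (up to `Id c`), the coefficients `l ≥ 1` of `R'`
are known to `B`, those of `z'` are polynomials in the intercepts of `R'` with coefficients known to `B` -/
structure Out {S : Sp} {κ : Type} [Fintype κ] (B X : S.L) (t' : QS S) (R' : κ → QS S) (z' : QS S) (c : ℝ)
    (ρ : κ → Polynomial (QS S)) (ζ : Polynomial (QS S)) (cc : ℕ → MvPolynomial κ (QS S)) : Prop where
  ρX : ∀ k, ρ k ∈ PK1 X
  ρB : ∀ k j, j ≠ 0 → dg ((ρ k).coeff j) 1 ≤ B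
  ζX : ζ ∈ PK1 X
  cB : ∀ l, cc l ∈ PK B
  R : ∀ k, R' k - (ρ k).eval t' ∈ Id S c
  z : z' - ζ.eval t' ∈ Id S c
  ζc : ∀ l, l ≠ 0 → ζ.coeff l - MvPolynomial.eval (fun k => (ρ k).coeff 0) (cc l) ∈ Id S c

theorem comp_scale_coeff {A : Type*} [CommRing A] (P L0 : Polynomial A) (s : A) (l : ℕ) :
    (P.comp (L0.comp (Polynomial.C s * Polynomial.X))).coeff l = (P.comp L0).coeff l * s ^ l := by
  rw [← Polynomial.comp_assoc, Polynomial.comp_C_mul_X_coeff]

variable {S : Sp} {β κ : Type} [Fintype β] [Fintype κ] {νb νx νg : Type} [Fintype νb] [Fintype νx] [Fintype νg]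
    {α αx : ℕ → Type} {bV : ∀ k, (S.F k).Ω → α k} {xV : ∀ k, (S.F k).Ω → αx k} {fb : νb → QS S} {fx : νx → QS S}
    {g : νg → QS S} {t : QS S}
    {q : β → QS S} {R : κ → QS S} {z : QS S} {wt : κ → ℝ} {w y ℓ : ℝ} {tc : QS S} {qc : β → QS S}
    {Pc : κ → MvPolynomial β (QS S)} {Fc : MvPolynomial (β ⊕ κ) (QS S)} {t' : QS S} {R' : κ → QS S} {z' : QS S}

/-- the lower coordinates substituted in a polynomial: coefficients of positive degree as polynomials in the
intercepts -/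
theorem subst_coeff {B : S.L} (Xp : β → Polynomial (QS S)) (hX : ∀ a, Xp a ∈ PK1 B) (ρ : κ → Polynomial (QS S))
    (hρ : ∀ k j, j ≠ 0 → dg ((ρ k).coeff j) 1 ≤ B) (u : κ → ℝ) {F : MvPolynomial (β ⊕ κ) (QS S)} (hF : F ∈ PK B)
    (l : ℕ) : ∃ Φ : MvPolynomial κ (QS S), Φ ∈ PK B ∧
      (MvPolynomial.aeval (Sum.elim Xp (fun k => Polynomial.C (sc S (u k)) * ρ k)) F).coeff l =
        MvPolynomial.eval (fun k => (ρ k).coeff 0) Φ := by
  obtain ⟨ψ, hψ⟩ : ∃ ψ : β ⊕ κ → Polynomial (MvPolynomial κ (QS S)), ψ =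
    Sum.elim (fun a => (Xp a).map MvPolynomial.C) (fun k => Polynomial.C (MvPolynomial.C (sc S (u k))) *
      (Polynomial.C (MvPolynomial.X k) + (ρ k - Polynomial.C ((ρ k).coeff 0)).map MvPolynomial.C)) := ⟨_, rfl⟩
  obtain ⟨Φ, hΦ⟩ : ∃ Φ : Polynomial (MvPolynomial κ (QS S)), Φ =
    MvPolynomial.eval₂ ((Polynomial.C : MvPolynomial κ (QS S) →+* _).comp MvPolynomial.C) ψ F := ⟨_, rfl⟩
  obtain ⟨x0, hx0⟩ : ∃ x0 : κ → QS S, x0 = fun k => (ρ k).coeff 0 := ⟨_, rfl⟩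
  have hk : Φ ∈ CS1 (CS (Kn S 1 le_rfl B)) := by
    rw [hΦ]
    apply eval₂_mem
    · intro m
      exact CS1_C (CS_C (hF m))
    · rw [hψ]
      rintro (a | k)
      · exact CS1_map _ fun n => CS_C (hX a n)
      · refine (CS1 _).mul_mem (CS1_C (CS_C ?_)) ((CS1 _).add_mem (CS1_C (CS_X _ _)) (CS1_map _ fun n => CS_C ?_))
        · show dg (sc S (u k)) 1 ≤ B
          rw [dg_sc]
          exact bot_le
        · exact PK1_subC (hρ k) n
  refine ⟨Φ.coeff l, hk l, ?_⟩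
  rw [← hx0, ← Polynomial.coeff_map]
  congr 1
  have h1 : (Polynomial.mapRingHom (MvPolynomial.eval x0)) Φ = MvPolynomial.eval₂
      ((Polynomial.mapRingHom (MvPolynomial.eval x0)).comp ((Polynomial.C : MvPolynomial κ (QS S) →+* _).comp
        MvPolynomial.C)) (Polynomial.mapRingHom (MvPolynomial.eval x0) ∘ ψ) F := by
    rw [hΦ, MvPolynomial.hom_eval₂]
    rfl
  have h2 : Polynomial.map (MvPolynomial.eval x0) Φ = (Polynomial.mapRingHom (MvPolynomial.eval x0)) Φ := rfl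
  rw [h2, h1, MvPolynomial.aeval_def]
  have h3 : (Polynomial.mapRingHom (MvPolynomial.eval x0)).comp ((Polynomial.C : MvPolynomial κ (QS S) →+* _).comp
      MvPolynomial.C) = algebraMap (QS S) (Polynomial (QS S)) := by
    ext1 a
    show Polynomial.map (MvPolynomial.eval x0) (Polynomial.C (MvPolynomial.C a)) = Polynomial.C a
    rw [Polynomial.map_C, MvPolynomial.eval_C]
  have hcomp : ∀ P : Polynomial (QS S), (P.map MvPolynomial.C).map (MvPolynomial.eval x0) = P := by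
    intro P
    rw [Polynomial.map_map]
    have h5 : (MvPolynomial.eval x0).comp MvPolynomial.C = RingHom.id (QS S) := by
      ext1 a
      show MvPolynomial.eval x0 (MvPolynomial.C a) = a
      rw [MvPolynomial.eval_C]
    rw [h5, Polynomial.map_id]
  have h4 : Polynomial.mapRingHom (MvPolynomial.eval x0) ∘ ψ =
      Sum.elim Xp (fun k => Polynomial.C (sc S (u k)) * ρ k) := by
    funext a
    rw [hψ]
    rcases a with a | k
    · exact hcomp (Xp a)
    · show Polynomial.map (MvPolynomial.eval x0) (Polynomial.C (MvPolynomial.C (sc S (u k))) *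
        (Polynomial.C (MvPolynomial.X k) + (ρ k - Polynomial.C ((ρ k).coeff 0)).map MvPolynomial.C)) =
          Polynomial.C (sc S (u k)) * ρ k
      rw [Polynomial.map_mul, Polynomial.map_add, Polynomial.map_C, Polynomial.map_C, hcomp, MvPolynomial.eval_C,
        MvPolynomial.eval_X, hx0]
      ring
  rw [h3, h4]

namespace Far

variable (hF : Far bV xV fb fx g t q R z wt w y ℓ tc qc Pc Fc t' R' z')

include hF

/-- THE CURVE IN THE BOX -/
theorem main (hℓ : 0 < ℓ) (hy0 : 0 < y) (hy1 : y < 1) (hwy : 0 ≤ w * y) (hw0 : ∀ k, 0 ≤ wt k * y)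
    (hww : ∀ k, wt k * y + w * y ≤ 1) (hℓ1 : ℓ ≤ 1) (hℓw : ∀ k, ℓ ≤ 1 - wt k * y)
    {Zp : Polynomial (QS S)} (hZ : Zp ∈ CS1 (LF xV fx)) (hz : z = Zp.eval t) {c : ℝ} (hc0 : 0 ≤ c) (hc : c ≤ y)
    (hcw : w * y + c ≤ 1) (hck : ∀ k, wt k * y + c ≤ 1) :
    ∃ (ρ : κ → Polynomial (QS S)) (ζ : Polynomial (QS S)) (cc : ℕ → MvPolynomial κ (QS S)),
      Out (io bV ⊔ vd g 1) (io xV ⊔ vd fx 1 ⊔ vd g 1) t' R' z' c ρ ζ cc := by
  classical
  have hwy1 : w * y ≤ 1 := by linarith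
  have hw1 : ∀ k, wt k * y ≤ 1 := fun k => by have := hww k; linarith
  obtain ⟨ρ, hρ1, hρ2, hρ3⟩ := hF.nearR hy0.le hy1 hw0 hw1
  obtain ⟨x0, hx0⟩ : ∃ x0 : κ → QS S, x0 = fun k => (ρ k).coeff 0 := ⟨_, rfl⟩
  have hx0R : Rt ℓ x0 (io bV ⊔ vd g 1) := by
    rw [hx0]
    exact (hF.full0 hℓ.le hw0 hℓw hρ2 hρ3).anti hℓ.le (sup_le (le_sup_left.trans le_sup_left) le_sup_right)
  have htwo : ∀ j, ∃ B : MvPolynomial κ (QS S), B ∈ PK (io bV ⊔ vd g 1) ∧
      (j ≠ 0 → Zp.coeff j - MvPolynomial.eval x0 B ∈ Id S (w * y)) := by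
    intro j
    by_cases hj : j = 0
    · exact ⟨0, (PK _).zero_mem, fun h => absurd hj h⟩
    · obtain ⟨B, h1, h2⟩ := hF.two hℓ hℓ1 hy0.le hy1 hwy hwy1 hw0 hww hℓw hZ hz hρ1 hρ2 hρ3 j hj
      exact ⟨B, h1, fun _ => by rw [hx0]; exact h2⟩
  choose Bf hBf1 hBf2 using htwo
  obtain ⟨Xp, hX, hXe⟩ := hF.disp
  obtain ⟨L, hLdef, hL, hLe⟩ := hF.lin
  obtain ⟨L0, hL0⟩ : ∃ L0 : Polynomial (QS S), L0 = Polynomial.C tc + Polynomial.X := ⟨_, rfl⟩
  have hL0k : L0 ∈ PK1 (vd g 1) := by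
    rw [hL0]
    exact (PK1 _).add_mem (PK1_C (LG_know hF.tcg)) (PK1_X _)
  have hLL : L = L0.comp (Polynomial.C (sc S y) * Polynomial.X) := by
    rw [hLdef, hL0, Polynomial.add_comp, Polynomial.C_comp, Polynomial.X_comp]
  have hbX : io bV ⊔ vd g 1 ≤ io xV ⊔ vd fx 1 ⊔ vd g 1 :=
    sup_le (hF.b_le_x.trans (le_sup_left.trans le_sup_left)) le_sup_right
  have hZk : Zp ∈ PK1 (io xV ⊔ vd fx 1 ⊔ vd g 1) := fun n => (LF_know hF.bddx (hZ n)).trans le_sup_left
  have hFk : Fc ∈ PK (io bV ⊔ vd g 1) := fun m => (LG_know (hF.Fcg m)).trans le_sup_right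
  -- the polynomial
  obtain ⟨Sb, hSb⟩ : ∃ Sb : Polynomial (QS S), Sb =
    MvPolynomial.aeval (Sum.elim Xp (fun k => Polynomial.C (sc S (wt k * y)) * ρ k)) Fc := ⟨_, rfl⟩
  obtain ⟨E, hE⟩ : ∃ E : Polynomial (QS S), E = Zp.comp L - Sb := ⟨_, rfl⟩
  have hSbk : Sb ∈ PK1 (io xV ⊔ vd fx 1 ⊔ vd g 1) := by
    rw [hSb]
    apply PK1_aeval (PK_mono hbX hFk)
    rintro (a | k)
    · exact PK1_mono hbX (hX a)
    · refine (PK1 _).mul_mem (PK1_C ?_) (hρ1 k)
      rw [dg_sc]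
      exact bot_le
  have hEk : E ∈ PK1 (io xV ⊔ vd fx 1 ⊔ vd g 1) := by
    rw [hE]
    exact (PK1 _).sub_mem (PK1_comp hZk (PK1_mono le_sup_right hL)) hSbk
  have hEe : E.eval t' = sc S (w * y) * z' := by
    rw [hE, Polynomial.eval_sub, Polynomial.eval_comp, hLe, ← hz, hSb, eval_aeval]
    have h1 : (fun i => Polynomial.eval t' (Sum.elim Xp (fun k => Polynomial.C (sc S (wt k * y)) * ρ k) i)) =
        Sum.elim (fun a => q a - qc a) (fun k => sc S (wt k * y) * R' k) := by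
      funext a
      rcases a with a | k
      · exact hXe a
      · show Polynomial.eval t' (Polynomial.C _ * ρ k) = _
        rw [Polynomial.eval_mul, Polynomial.eval_C, hρ3 k]
        rfl
    rw [h1]
    linear_combination hF.nz
  have hEs : ∀ n, E.coeff n ∈ Id S (w * y) := by
    intro n
    apply coeff_top E t' hEk (sub_pos.mpr hy1) (by linarith) (hF.real' hy0.le hy1.le) hwy1
    rw [hEe]
    exact Ideal.mul_mem_right _ _ (sc_mem hwy)
  obtain ⟨ζ, hζ, hζk⟩ := exists_div1 E hwy hwy1 hEs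
  have hζc : ∀ n, E.coeff n = sc S (w * y) * ζ.coeff n := by
    intro n
    conv_lhs => rw [hζ]
    rw [Polynomial.coeff_C_mul]
  -- the coefficients
  have hcc : ∀ l, ∃ C : MvPolynomial κ (QS S), C ∈ PK (io bV ⊔ vd g 1) ∧
      (l ≠ 0 → ζ.coeff l - MvPolynomial.eval x0 C ∈ Id S c) := by
    intro l
    by_cases hl : l = 0
    · exact ⟨0, (PK _).zero_mem, fun h => absurd hl h⟩
    obtain ⟨Φ, hΦk, hΦ⟩ := subst_coeff Xp hX ρ hρ2 (fun k => wt k * y) hFk l
    rw [← hSb, ← hx0] at hΦ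
    obtain ⟨T, hT⟩ : ∃ T : MvPolynomial κ (QS S), T =
      ∑ j ∈ Zp.support.erase 0, MvPolynomial.C ((L0 ^ j).coeff l) * Bf j := ⟨_, rfl⟩
    have hTk : T ∈ PK (io bV ⊔ vd g 1) := by
      rw [hT]
      exact (PK _).sum_mem fun j _ => (PK _).mul_mem
        (C_mem (((PK1 (vd g 1)).pow_mem hL0k j l).trans le_sup_right)) (hBf1 j)
    have hTe : (Zp.comp L0).coeff l - MvPolynomial.eval x0 T ∈ Id S (w * y) := by
      have h1 : (Zp.comp L0).coeff l = ∑ j ∈ Zp.support.erase 0, Zp.coeff j * (L0 ^ j).coeff l := by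
        rw [Polynomial.comp_eq_sum_left, Polynomial.sum_def, Polynomial.finsetSum_coeff]
        have h2 : ∀ j ∈ Zp.support, (Polynomial.C (Zp.coeff j) * L0 ^ j).coeff l = Zp.coeff j * (L0 ^ j).coeff l :=
          fun j _ => Polynomial.coeff_C_mul _
        rw [Finset.sum_congr rfl h2]
        symm
        apply Finset.sum_erase
        rw [pow_zero, Polynomial.coeff_one, if_neg hl, mul_zero]
      rw [h1, hT, map_sum, ← Finset.sum_sub_distrib]
      apply (Id S (w * y)).sum_mem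
      intro j hj
      have h3 := Ideal.mul_mem_right ((L0 ^ j).coeff l) _ (hBf2 j (Finset.ne_of_mem_erase hj))
      refine (congrArg (· ∈ Id S (w * y)) ?_).mp h3
      rw [map_mul, MvPolynomial.eval_C]
      ring
    obtain ⟨N, hN⟩ : ∃ N : MvPolynomial κ (QS S), N = MvPolynomial.C (sc S y ^ l) * T - Φ := ⟨_, rfl⟩
    have hNk : N ∈ PK (io bV ⊔ vd g 1) := by
      rw [hN]
      refine (PK _).sub_mem ((PK _).mul_mem (C_mem ((Kn S 1 le_rfl _).pow_mem ?_ _)) hTk) hΦk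
      show dg (sc S y) 1 ≤ _
      rw [dg_sc]
      exact bot_le
    have hNe : E.coeff l - MvPolynomial.eval x0 N ∈ Id S (w * y + c) := by
      have h1 : E.coeff l - MvPolynomial.eval x0 N =
          sc S (l * y) * ((Zp.comp L0).coeff l - MvPolynomial.eval x0 T) := by
        rw [hE, Polynomial.coeff_sub, hLL, comp_scale_coeff, hΦ, hN, map_sub, map_mul, MvPolynomial.eval_C,
          sc_nat_mul hy0.le]
        ring
      rw [h1]
      have hly : (0 : ℝ) ≤ l * y := by positivity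
      refine Id_mono ?_ (sc_mul_mem hly hTe)
      have h2 : (1 : ℝ) ≤ l := Nat.one_le_cast.mpr (Nat.one_le_iff_ne_zero.mpr hl)
      nlinarith
    have hNs : MvPolynomial.eval x0 N ∈ Id S (w * y) := by
      have h1 := (Id S (w * y)).sub_mem (hEs l) (Id_mono (by linarith) hNe)
      rwa [sub_sub_cancel] at h1
    have hNc := fun m => mv_small hℓ hℓ1 hx0R hwy1 le_rfl (PKr_of_PK le_rfl hNk) hNs m
    obtain ⟨C, hC⟩ := exists_coeffs N (fun a b => a = sc S (w * y) * b ∧ dg b 1 ≤ dg a 1)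
      ⟨by rw [mul_zero], le_rfl⟩ (fun m => exists_div' hwy hwy1 (hNc m))
    have hNC : N = MvPolynomial.C (sc S (w * y)) * C := by
      ext m
      rw [MvPolynomial.coeff_C_mul]
      exact (hC m).1
    refine ⟨C, fun m => (hC m).2.trans (hNk m), fun _ => ?_⟩
    have h1 : sc S (w * y) * (ζ.coeff l - MvPolynomial.eval x0 C) ∈ Id S (w * y + c) := by
      refine (congrArg (· ∈ Id S (w * y + c)) ?_).mp hNe
      rw [hζc, hNC, map_mul, MvPolynomial.eval_C]
      ring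
    have h2 := mem_of_sc_mul hwy hcw h1
    rwa [add_sub_cancel_left] at h2
  choose cc hcc1 hcc2 using hcc
  refine ⟨ρ, ζ, cc, hρ1, hρ2, fun n => (hζk n).trans (hEk n), hcc1, ?_, ?_, ?_⟩
  · intro k
    exact Id_mono (by have := hck k; linarith) (sub_mem_of_sc (hw0 k) (hρ3 k).symm)
  · apply Id_mono (by linarith : c ≤ 1 - w * y)
    apply sub_mem_of_sc hwy
    rw [← hEe]
    conv_lhs => rw [hζ]
    rw [Polynomial.eval_mul, Polynomial.eval_C]
  · intro l hl
    rw [← hx0]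
    exact hcc2 l hl

end Far

end

end Pool.Agent.Helper14.WLK
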