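import Pool.Agent.Helper14.WLK.Far

/-! Transports on the zoom: algebra of the near coordinates. -/

set_option autoImplicit false
set_option linter.unusedSectionVars false

namespace Pool.Agent.Helper14.WLK

open Finset Filter Topology Pool.Agent.Helper69.RK Pool.Agent.Helper31.EC Pool.Agent.Helper31.EC.Sp
open Pool.Agent.Helper31.EC.QS Pool.Agent.Helper57.TA Pool.Agent.Helper21.DO Pool.Agent.Helper95.RIG
open Pool.Agent.Helper79.JET

noncomputable section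

theorem PK_eq {S : Sp} (A : S.L) (σ : Type) : (PK A : Subring (MvPolynomial σ (QS S))) = CS (Kn S 1 le_rfl A) := rfl

theorem PK1_eq {S : Sp} (A : S.L) : (PK1 A : Subring (Polynomial (QS S))) = CS1 (Kn S 1 le_rfl A) := rfl

theorem PK1_comp {S : Sp} {A : S.L} {P Q : Polynomial (QS S)} (hP : P ∈ PK1 A) (hQ : Q ∈ PK1 A) :
    P.comp Q ∈ PK1 A := CS1_comp (R := Kn S 1 le_rfl A) hP hQ

open Classical in
/-- division of a polynomial with small coefficients -/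
theorem exists_div1 {S : Sp} (P : Polynomial (QS S)) {u : ℝ} (hu : 0 ≤ u) (hu1 : u ≤ 1)
    (hP : ∀ n, P.coeff n ∈ Id S u) :
    ∃ Q : Polynomial (QS S), P = Polynomial.C (sc S u) * Q ∧ ∀ n, dg (Q.coeff n) 1 ≤ dg (P.coeff n) 1 := by
  choose d h1 h2 using fun n => exists_div' hu hu1 (hP n)
  obtain ⟨Q, hQ⟩ : ∃ Q : Polynomial (QS S), Q = ∑ n ∈ P.support, Polynomial.C (d n) * Polynomial.X ^ n := ⟨_, rfl⟩
  have hc : ∀ n, Q.coeff n = if n ∈ P.support then d n else 0 := by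
    intro n
    rw [hQ, Polynomial.finsetSum_coeff]
    simp only [Polynomial.coeff_C_mul_X_pow]
    rw [Finset.sum_ite_eq P.support n d]
  refine ⟨Q, ?_, ?_⟩
  · ext n
    rw [Polynomial.coeff_C_mul, hc]
    split_ifs with h
    · exact h1 n
    · rw [mul_zero, Polynomial.notMem_support_iff.mp h]
  · intro n
    rw [hc]
    split_ifs with h
    · exact h2 n
    · have h3 : dg (0 : QS S) 1 ≤ ⊥ := (Kn S 1 le_rfl ⊥).zero_mem
      exact h3.trans bot_le

variable {S : Sp} {β κ : Type} [Fintype β] [Fintype κ] {νb νx νg : Type} [Fintype νb] [Fintype νx] [Fintype νg]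
    {α αx : ℕ → Type} {bV : ∀ k, (S.F k).Ω → α k} {xV : ∀ k, (S.F k).Ω → αx k} {fb : νb → QS S} {fx : νx → QS S}
    {g : νg → QS S} {t : QS S}
    {q : β → QS S} {R : κ → QS S} {z : QS S} {wt : κ → ℝ} {w y ℓ : ℝ} {tc : QS S} {qc : β → QS S}
    {Pc : κ → MvPolynomial β (QS S)} {Fc : MvPolynomial (β ⊕ κ) (QS S)} {t' : QS S} {R' : κ → QS S} {z' : QS S}

namespace Far

variable (hF : Far bV xV fb fx g t q R z wt w y ℓ tc qc Pc Fc t' R' z')

include hF

theorem real' (hy0 : 0 ≤ y) (hy1 : y ≤ 1) : 1 - y ≤ h (dg t' (1 - y)) (io xV ⊔ vd fx 1 ⊔ vd g 1) := by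
  refine hF.tbox.trans ?_
  rw [← h_sup_right_of_le (A := dg t' (1 - y)) (le_refl (io xV ⊔ vd fx 1 ⊔ vd g 1))]
  apply h_mono
  conv_lhs => rw [hF.nt]
  refine (dg_add_le _ _ le_rfl).trans (sup_le ?_ ?_)
  · exact (LG_know hF.tcg).trans (le_sup_right.trans le_sup_right)
  · exact (dg_sc_mul hy0 hy1 le_rfl _).trans le_sup_left

theorem t_le (hy0 : 0 ≤ y) (hy1 : y ≤ 1) : dg t 1 ≤ dg t' (1 - y) ⊔ vd g 1 := by
  conv_lhs => rw [hF.nt]
  refine (dg_add_le _ _ le_rfl).trans (sup_le ?_ ?_)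
  · exact (LG_know hF.tcg).trans le_sup_right
  · exact (dg_sc_mul hy0 hy1 le_rfl _).trans le_sup_left

theorem b_le_x : io bV ≤ io xV := by
  obtain ⟨e, he⟩ := hF.bx
  exact io_le_of_fun hF.bddx (Eventually.of_forall fun k w w' _ _ _ h1 => by rw [he, he, h1])

/-- the height as a polynomial of the near height -/
theorem lin : ∃ L : Polynomial (QS S), L = Polynomial.C tc + Polynomial.C (sc S y) * Polynomial.X ∧
    L ∈ PK1 (vd g 1) ∧ L.eval t' = t := by
  refine ⟨_, rfl, ?_, ?_⟩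
  · refine (PK1 _).add_mem (PK1_C (LG_know hF.tcg)) ((PK1 _).mul_mem (PK1_C ?_) (PK1_X _))
    rw [dg_sc]
    exact bot_le
  · rw [Polynomial.eval_add, Polynomial.eval_mul, Polynomial.eval_C, Polynomial.eval_C, Polynomial.eval_X]
    exact hF.nt.symm

/-- displacement of the base point as a polynomial of the near height -/
theorem disp : ∃ Xp : β → Polynomial (QS S), (∀ a, Xp a ∈ PK1 (io bV ⊔ vd g 1)) ∧
    ∀ a, (Xp a).eval t' = q a - qc a := by
  obtain ⟨L, _, hL, hLe⟩ := hF.lin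
  choose f hf u hu hq using hF.line
  have hk : ∀ {c : QS S}, c ∈ LF bV fb → dg c 1 ≤ io bV ⊔ vd g 1 := fun hc =>
    (LF_know hF.bdd hc).trans (sup_le le_sup_left (hF.fbk.trans le_sup_left))
  refine ⟨fun a => Polynomial.C (f a) + L * Polynomial.C (u a) - Polynomial.C (qc a), fun a => ?_, fun a => ?_⟩
  · refine (PK1 _).sub_mem ((PK1 _).add_mem (PK1_C (hk (hf a))) ((PK1 _).mul_mem (PK1_mono le_sup_right hL)
      (PK1_C (hk (hu a))))) (PK1_C ((LG_know (hF.qcg a)).trans le_sup_right))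
  · show Polynomial.eval t' (Polynomial.C (f a) + L * Polynomial.C (u a) - Polynomial.C (qc a)) = _
    rw [Polynomial.eval_sub, Polynomial.eval_add, Polynomial.eval_mul, Polynomial.eval_C, Polynomial.eval_C,
      Polynomial.eval_C, hLe, hq a]

/-- the near lower coordinates along the curve -/
theorem nearR (hy0 : 0 ≤ y) (hy1 : y < 1) (hw0 : ∀ k, 0 ≤ wt k * y) (hw1 : ∀ k, wt k * y ≤ 1) :
    ∃ ρ : κ → Polynomial (QS S), (∀ k, ρ k ∈ PK1 (io xV ⊔ vd fx 1 ⊔ vd g 1)) ∧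
      (∀ k j, j ≠ 0 → dg ((ρ k).coeff j) 1 ≤ io bV ⊔ vd g 1) ∧
      ∀ k, sc S (wt k * y) * (ρ k).eval t' = sc S (wt k * y) * R' k := by
  obtain ⟨L, _, hL, hLe⟩ := hF.lin
  obtain ⟨Xp, hX, hXe⟩ := hF.disp
  have hAB : io bV ⊔ vd g 1 ≤ io xV ⊔ vd fx 1 ⊔ vd g 1 :=
    sup_le (hF.b_le_x.trans (le_sup_left.trans le_sup_left)) le_sup_right
  suffices H : ∀ k, ∃ ρ : Polynomial (QS S), ρ ∈ PK1 (io xV ⊔ vd fx 1 ⊔ vd g 1) ∧
      (∀ j, j ≠ 0 → dg (ρ.coeff j) 1 ≤ io bV ⊔ vd g 1) ∧ sc S (wt k * y) * ρ.eval t' = sc S (wt k * y) * R' k by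
    choose ρ h1 h2 h3 using H
    exact ⟨ρ, h1, h2, h3⟩
  intro k
  obtain ⟨P, h1, h2, h3⟩ := hF.Rcv k
  obtain ⟨P', hP'⟩ : ∃ P' : Polynomial (QS S), P' = P - Polynomial.C (P.coeff 0) := ⟨_, rfl⟩
  have h4 : P' ∈ PK1 (io bV) := by
    intro n
    rw [hP', Polynomial.coeff_sub, Polynomial.coeff_C]
    by_cases hn : n = 0
    · rw [if_pos hn, hn, sub_self]
      have h3 : dg (0 : QS S) 1 ≤ ⊥ := (Kn S 1 le_rfl ⊥).zero_mem
      exact h3.trans bot_le
    · rw [if_neg hn, sub_zero]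
      exact (LF_know hF.bdd (h2 n hn)).trans (sup_le le_rfl hF.fbk)
  have h5 : P = P' + Polynomial.C (P.coeff 0) := by
    rw [hP']
    ring
  -- the polynomial without the constant
  obtain ⟨N, hN⟩ : ∃ N : Polynomial (QS S), N = P'.comp L - MvPolynomial.aeval Xp (Pc k) := ⟨_, rfl⟩
  have hNk : N ∈ PK1 (io bV ⊔ vd g 1) := by
    rw [hN]
    refine (PK1 _).sub_mem (PK1_comp (PK1_mono le_sup_left h4) (PK1_mono le_sup_right hL)) (PK1_aeval ?_ _ hX)
    exact fun m => (LG_know (hF.Pcg k m)).trans le_sup_right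
  obtain ⟨E, hE⟩ : ∃ E : Polynomial (QS S), E = Polynomial.C (P.coeff 0) + N := ⟨_, rfl⟩
  have hc0 : dg (P.coeff 0) 1 ≤ io xV ⊔ vd fx 1 ⊔ vd g 1 := (LF_know hF.bddx (h1 0)).trans le_sup_left
  have hEk : E ∈ PK1 (io xV ⊔ vd fx 1 ⊔ vd g 1) := by
    rw [hE]
    exact (PK1 _).add_mem (PK1_C hc0) (PK1_mono hAB hNk)
  have hEe : E.eval t' = sc S (wt k * y) * R' k := by
    have h6 := hF.nR k
    rw [h3, h5, Polynomial.eval_add, Polynomial.eval_C] at h6
    rw [hE, Polynomial.eval_add, Polynomial.eval_C, hN, Polynomial.eval_sub, Polynomial.eval_comp, hLe, eval_aeval]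
    have h7 : (fun i => Polynomial.eval t' (Xp i)) = fun a => q a - qc a := funext hXe
    rw [h7]
    linear_combination h6
  have hEs : ∀ n, E.coeff n ∈ Id S (wt k * y) := by
    intro n
    apply coeff_top E t' hEk (sub_pos.mpr hy1) (by linarith) (hF.real' hy0 hy1.le) (hw1 k)
    rw [hEe]
    exact Ideal.mul_mem_right _ _ (sc_mem (hw0 k))
  obtain ⟨ρ, hρ, hρk⟩ := exists_div1 E (hw0 k) (hw1 k) hEs
  refine ⟨ρ, fun n => (hρk n).trans (hEk n), ?_, ?_⟩
  · intro j hj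
    refine (hρk j).trans ?_
    rw [hE, Polynomial.coeff_add, Polynomial.coeff_C, if_neg hj, zero_add]
    exact hNk j
  · rw [← hEe]
    conv_rhs => rw [hρ]
    rw [Polynomial.eval_mul, Polynomial.eval_C]

omit hF in
theorem sub_mem_of_sc {u : ℝ} (hu : 0 ≤ u) {a b : QS S} (hab : sc S u * a = sc S u * b) : a - b ∈ Id S (1 - u) := by
  apply mem_of_sc_mul hu le_rfl
  rw [mul_sub, hab, sub_self]
  exact Ideal.zero_mem _

end Far

end

end Pool.Agent.Helper14.WLK
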