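import Pool.Agent.Helper14.WLK.Main
import Pool.Agent.Helper79.WLK.Rc

/-! (T): the first vertical jets move by the derivatives of the transport. -/

set_option autoImplicit false
set_option linter.unusedSectionVars false

namespace Pool.Agent.Helper14.WLK

open Finset Filter Topology Pool.Agent.Helper69.RK Pool.Agent.Helper31.EC Pool.Agent.Helper31.EC.Sp
open Pool.Agent.Helper31.EC.QS Pool.Agent.Helper57.TA Pool.Agent.Helper21.DO Pool.Agent.Helper95.RIG
open Pool.Agent.Helper79.JET Pool.Agent.Helper79.WLK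

noncomputable section

variable {S : Sp} {β κ : Type} [Fintype β] [Fintype κ] {q : β → QS S} {R : κ → QS S} {Q : κ → MvPolynomial β (QS S)}
  {wt : β ⊕ κ → ℝ} {ν : Type} [Fintype ν] {g : ν → QS S} {s : ℝ} {z : QS S} {w : ℝ} {J : MvPolynomial (β ⊕ κ) (QS S)}

/-- restriction of a polynomial to the vertical variables -/
theorem vert_single {A : Type*} [CommRing A] (P : MvPolynomial (β ⊕ κ) A) (l : κ) :
    (MvPolynomial.aeval (Sum.elim (fun _ => (0 : MvPolynomial κ A)) MvPolynomial.X) P).coeff (Finsupp.single l 1) =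
      P.coeff (Finsupp.single (Sum.inr l) 1) := by
  classical
  rw [coeff_single_eq, coeff_single_eq, pderiv_sbs _ (Sum.inr l) l (by
    rintro (a | k)
    · show MvPolynomial.pderiv l (0 : MvPolynomial κ A) = _
      rw [map_zero, if_neg (by simp)]
    · show MvPolynomial.pderiv l (MvPolynomial.X k) = _
      rw [MvPolynomial.pderiv_X]
      by_cases h : k = l
      · subst h
        rw [Pi.single_eq_same, if_pos rfl]
      · rw [Pi.single_eq_of_ne h, if_neg (by simpa using h)]), coeff_zero_eval, coeff_zero_eval, eval_sbs]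
  congr 2
  funext a
  rcases a with a | k
  · show MvPolynomial.eval _ (0 : MvPolynomial κ A) = 0
    rw [map_zero]
  · show MvPolynomial.eval _ (MvPolynomial.X k) = 0
    rw [MvPolynomial.eval_X]

/-- (T), basic form: `P`, `P'` two points on `W`, `V` a literal variable on `W` which determines the base points, the
boxes, the displacement of the lower coordinates (up to `Id r`) and the transport `p'` -/
theorem tee0 (hb : LB q R Q wt g s) (hs : 0 ≤ s) (hwt : ∀ a, 0 ≤ wt a) (h1 : ∀ a, wt a * s < 1) (hws : w * s ≤ 1)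
    (hQ : ∀ k, (Q k).coeff 0 = 0) (hJ : LR q R Q z J g (w * s)) {W : Sp} (P P' : Pj W S) {α : ℕ → Type}
    {V : ∀ k, (W.F k).Ω → α k} (hV : Bdd V) {ι : Type} {f : ι → QS W}
    (hVf : ∀ (D : Sp) (r r' : Pj D W), Ag V r r' → ∀ i, r.qs (f i) = r'.qs (f i))
    (hq : ∀ a, P.qs (q a) ∈ LF V f) (hq' : ∀ a, P'.qs (q a) ∈ LF V f)
    (hg : ∀ i, P.qs (g i) ∈ LF V f) (hg' : ∀ i, P'.qs (g i) ∈ LF V f)
    {G : κ → QS W} (hG : ∀ k, G k ∈ LF V f) (hGe : ∀ k, P'.qs (R k) - P.qs (R k) - G k ∈ Id W (w * s))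
    {p : MvPolynomial κ (QS W)} (hp : p ∈ CS (LF V f))
    (hpe : P'.qs z - P.qs z - MvPolynomial.eval (fun k => P.qs (R k)) p ∈ Id W (w * s))
    (hfull : ∑ k, (1 - wt (Sum.inr k) * s) ≤ h (P.map (vd R 1)) (io V)) (l : κ) :
    P'.qs (J.coeff (Finsupp.single (Sum.inr l) 1)) - P.qs (J.coeff (Finsupp.single (Sum.inr l) 1)) -
      MvPolynomial.eval (fun k => P.qs (R k)) (MvPolynomial.pderiv l p) ∈ Id W ((w - wt (Sum.inr l)) * s) := by
  classical
  obtain ⟨ℓ, hℓ, hℓ1, hℓw⟩ : ∃ ℓ : ℝ, 0 < ℓ ∧ ℓ ≤ 1 ∧ ∀ k, ℓ ≤ 1 - wt (Sum.inr k) * s := by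
    obtain ⟨a, -, ha⟩ := Finset.exists_min_image Finset.univ (fun k => 1 - wt (Sum.inr k) * s) ⟨l, mem_univ l⟩
    refine ⟨1 - wt (Sum.inr a) * s, by have := h1 (Sum.inr a); linarith, ?_, fun b => ha b (Finset.mem_univ b)⟩
    have := mul_nonneg (hwt (Sum.inr a)) hs
    linarith
  obtain ⟨C⟩ := Cps.exists V hV 1
  obtain ⟨r0, hr0⟩ : ∃ r0 : Pj C.W W, r0 = C.p 0 := ⟨_, rfl⟩
  obtain ⟨r1, hr1⟩ : ∃ r1 : Pj C.W W, r1 = C.p 1 := ⟨_, rfl⟩
  have hAg : Ag V r0 r1 := by
    rw [hr0, hr1]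
    exact Cps_Ag C 0 1
  have hf := hVf _ _ _ hAg
  have cm : ∀ {c : QS W}, c ∈ LF V f → r0.qs c = r1.qs c := fun hc => hc _ _ _ hAg hf
  -- displacements
  obtain ⟨x, hx⟩ : ∃ x : κ → QS C.W, x = fun k => r1.qs (P.qs (R k)) - r0.qs (P.qs (R k)) := ⟨_, rfl⟩
  obtain ⟨x', hx'⟩ : ∃ x' : κ → QS C.W, x' = fun k => r1.qs (P'.qs (R k)) - r0.qs (P'.qs (R k)) := ⟨_, rfl⟩
  have hbc : ∀ (T : Pj W S), (∀ a, T.qs (q a) ∈ LF V f) → bc (r0.comp T) (r1.comp T) q R Q =
      Sum.elim (fun _ => 0) (fun k => r1.qs (T.qs (R k)) - r0.qs (T.qs (R k))) := by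
    intro T hT
    have h2 : (fun a => (r1.comp T).qs (q a) - (r0.comp T).qs (q a)) = fun _ => 0 := by
      funext a
      rw [Pj.comp_qs, Pj.comp_qs, cm (hT a), sub_self]
    funext a
    rcases a with a | k
    · exact congrFun h2 a
    · show (r1.comp T).qs (R k) - (r0.comp T).qs (R k) - MvPolynomial.eval _ _ = r1.qs _ - r0.qs _
      rw [h2, Pj.comp_qs, Pj.comp_qs]
      have h3 : MvPolynomial.eval (fun _ => (0 : QS C.W)) (MvPolynomial.map (r0.comp T).qs (Q k)) = 0 := by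
        rw [← coeff_zero_eval, MvPolynomial.coeff_map, hQ k, map_zero]
      rw [h3, sub_zero]
  have hbP := hbc P hq
  have hbP' := hbc P' hq'
  have hc : ∀ i, (r0.comp P).qs (g i) = (r1.comp P).qs (g i) := by
    intro i
    rw [Pj.comp_qs, Pj.comp_qs]
    exact cm (hg i)
  have hc' : ∀ i, (r0.comp P').qs (g i) = (r1.comp P').qs (g i) := by
    intro i
    rw [Pj.comp_qs, Pj.comp_qs]
    exact cm (hg' i)
  have hJ0 := hJ C.W _ _ hc
  have hJ0' := hJ C.W _ _ hc'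
  rw [hbP] at hJ0
  rw [hbP'] at hJ0'
  have hxx : ∀ k, x' k - x k ∈ Id C.W (w * s) := by
    intro k
    have h2 := qs_Id r1 (hGe k)
    have h3 := qs_Id r0 (hGe k)
    have h4 := (Id C.W (w * s)).sub_mem h2 h3
    refine (congrArg (· ∈ Id C.W (w * s)) ?_).mp h4
    rw [map_sub, map_sub, map_sub, map_sub, cm (hG k), hx, hx']
    ring
  -- the relation in the copies
  obtain ⟨JJ, hJJ⟩ : ∃ JJ : MvPolynomial (β ⊕ κ) (QS C.W), JJ =
    MvPolynomial.map (r0.comp P').qs J - MvPolynomial.map (r0.comp P).qs J := ⟨_, rfl⟩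
  obtain ⟨p0, hp0⟩ : ∃ p0 : MvPolynomial κ (QS C.W), p0 = MvPolynomial.map r0.qs p := ⟨_, rfl⟩
  have hp01 : MvPolynomial.map r1.qs p = p0 := by
    rw [hp0]
    exact (LF_map hAg hf hp).symm
  obtain ⟨R0, hR0⟩ : ∃ R0 : κ → QS C.W, R0 = fun k => r0.qs (P.qs (R k)) := ⟨_, rfl⟩
  have hR1 : (fun k => r1.qs (P.qs (R k))) = fun k => R0 k + x k := by
    funext k
    rw [hR0, hx]
    ring
  have hE : MvPolynomial.eval (Sum.elim (fun _ => 0) x) JJ -
      (MvPolynomial.eval (fun k => R0 k + x k) p0 - MvPolynomial.eval R0 p0) ∈ Id C.W (w * s) := by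
    have e0 := qs_Id r0 hpe
    have e1 := qs_Id r1 hpe
    rw [map_sub, map_sub, qs_eval, ← hp0, ← hR0] at e0
    rw [map_sub, map_sub, qs_eval, hp01, hR1] at e1
    have e2 : MvPolynomial.eval (Sum.elim (fun _ => 0) x') (MvPolynomial.map (r0.comp P').qs J) -
        MvPolynomial.eval (Sum.elim (fun _ => 0) x) (MvPolynomial.map (r0.comp P').qs J) ∈ Id C.W (w * s) := by
      apply eval_sub_mem
      rintro (a | k)
      · show (0 : QS C.W) - 0 ∈ _
        rw [sub_self]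
        exact Ideal.zero_mem _
      · exact hxx k
    rw [← hx] at hJ0
    rw [← hx'] at hJ0'
    rw [Pj.comp_qs, Pj.comp_qs] at hJ0 hJ0'
    have e3 := (Id C.W (w * s)).sub_mem ((Id C.W (w * s)).sub_mem ((Id C.W (w * s)).add_mem hJ0 e1)
      ((Id C.W (w * s)).add_mem hJ0' e0)) e2
    refine (congrArg (· ∈ Id C.W (w * s)) ?_).mp e3
    rw [hJJ, map_sub]
    ring
  -- scaled displacements
  have hx1 : ∀ k, x k ∈ Id C.W (wt (Sum.inr k) * s) := by
    intro k
    have h2 := hb.mem C.W _ _ hc (Sum.inr k)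
    rw [hbP] at h2
    rw [hx]
    exact h2
  choose ξ hξ _ using fun k => exists_div' (mul_nonneg (hwt (Sum.inr k)) hs) (h1 (Sum.inr k)).le (hx1 k)
  have hξR : ∀ B : W.L, Rt ℓ ξ (r0.map B) := by
    intro B
    obtain ⟨A, hA⟩ : ∃ A : W.L, A = B ⊔ (P.map (vd R 1) ⊔ io V) := ⟨_, rfl⟩
    have hBA : B ≤ A := by rw [hA]; exact le_sup_left
    have hRA : P.map (vd R 1) ≤ A := by rw [hA]; exact le_sup_left.trans le_sup_right
    have hVA : io V ≤ A := by rw [hA]; exact le_sup_right.trans le_sup_right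
    refine Rt.anti hℓ.le (B := r0.map A) ?_ (Pj.map_mono _ hBA)
    apply Rt.of_ge hℓ.le
    obtain ⟨U, hU⟩ : ∃ U : C.W.L, U = Finset.univ.sup fun k => dg (ξ k) (1 - wt (Sum.inr k) * s) := ⟨_, rfl⟩
    have h3 : ∑ k, (1 - wt (Sum.inr k) * s) ≤ h (r1.map (P.map (vd R 1))) (r0.map A) := by
      have h4 := cps_new C (y := P.map (vd R 1)) hVA
      rw [← hr0, ← hr1] at h4
      rw [h4]
      exact hfull
    have h5 : r1.map (P.map (vd R 1)) ≤ U ⊔ r0.map A := by
      rw [← P.qs_vd, ← r1.qs_vd, vd_le]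
      intro k
      have e4 : r1.qs (P.qs (R k)) = r0.qs (P.qs (R k)) + sc C.W (wt (Sum.inr k) * s) * ξ k := by
        rw [← hξ k, hx]
        ring
      rw [e4]
      refine (dg_add_le _ _ le_rfl).trans (sup_le ?_ ?_)
      · rw [r0.qs_dg, P.qs_dg]
        exact (Pj.map_mono _ ((Pj.map_mono _ (dg_le_vd R 1 k)).trans hRA)).trans le_sup_right
      · refine (dg_sc_mul (mul_nonneg (hwt (Sum.inr k)) hs) (h1 (Sum.inr k)).le le_rfl _).trans ?_
        rw [hU]
        exact (Finset.le_sup (f := fun k => dg (ξ k) (1 - wt (Sum.inr k) * s)) (Finset.mem_univ k)).trans le_sup_left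
    have h6 : h U (r0.map A) ≤ h (vd ξ ℓ) (r0.map A) + ∑ k, (1 - wt (Sum.inr k) * s - ℓ) := by
      have h7 := h_triangle U (vd ξ ℓ) (r0.map A)
      have h8 : h U (vd ξ ℓ ⊔ r0.map A) ≤ ∑ k, (1 - wt (Sum.inr k) * s - ℓ) := by
        rw [hU]
        refine (h_finsup_le Finset.univ _ _).trans ?_
        apply Finset.sum_le_sum
        intro a _
        exact (h_anti ((dg_le_vd ξ ℓ a).trans le_sup_left)).trans (h_dg_dg _ (hℓw a))
      linarith
    have h7 : h (r1.map (P.map (vd R 1))) (r0.map A) ≤ h U (r0.map A) := by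
      refine (h_mono h5).trans ?_
      rw [h_sup_right_of_le le_rfl]
    have h8 : ∑ k : κ, (1 - wt (Sum.inr k) * s - ℓ) = ∑ k, (1 - wt (Sum.inr k) * s) - Fintype.card κ * ℓ := by
      rw [Finset.sum_sub_distrib, Finset.sum_const, nsmul_eq_mul]
      rfl
    linarith
  -- the polynomial
  obtain ⟨BJ, hBJ⟩ := exists_know J
  obtain ⟨Bp, hBp⟩ := exists_know p
  obtain ⟨B, hB⟩ : ∃ B : W.L, B = P.map BJ ⊔ P'.map BJ ⊔ Bp ⊔ P.map (vd R 1) := ⟨_, rfl⟩
  obtain ⟨H, hH⟩ : ∃ H : MvPolynomial κ (QS C.W), H =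
    MvPolynomial.aeval (Sum.elim (fun _ => (0 : MvPolynomial κ (QS C.W))) MvPolynomial.X) JJ -
      (shf R0 p0 - MvPolynomial.C (MvPolynomial.eval R0 p0)) := ⟨_, rfl⟩
  have hJJk : JJ ∈ PK (r0.map B) := by
    rw [hJJ]
    refine (PK _).sub_mem (PK_mono ?_ (map_PK _ hBJ)) (PK_mono ?_ (map_PK _ hBJ))
    · rw [Pj.comp_map, hB]
      exact Pj.map_mono _ ((le_sup_right.trans le_sup_left).trans le_sup_left)
    · rw [Pj.comp_map, hB]
      exact Pj.map_mono _ ((le_sup_left.trans le_sup_left).trans le_sup_left)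
  have hp0k : p0 ∈ PK (r0.map B) := by
    rw [hp0]
    refine PK_mono ?_ (map_PK _ hBp)
    rw [hB]
    exact Pj.map_mono _ (le_sup_right.trans le_sup_left)
  have hR0k : ∀ k, dg (R0 k) 1 ≤ r0.map B := by
    intro k
    rw [hR0]
    show dg (r0.qs (P.qs (R k))) 1 ≤ _
    rw [r0.qs_dg, P.qs_dg, hB]
    exact Pj.map_mono _ ((Pj.map_mono _ (dg_le_vd R 1 k)).trans le_sup_right)
  have hHk : H ∈ PK (r0.map B) := by
    rw [hH]
    refine (PK _).sub_mem (sbs_PK hJJk ?_) ((PK _).sub_mem (shf_PK hR0k hp0k)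
      (C_mem (QS.eval_mem hp0k _ le_rfl hR0k)))
    rintro (a | k)
    · exact (PK _).zero_mem
    · exact X_mem _ _
  have hHe : MvPolynomial.eval (fun k => sc C.W (wt (Sum.inr k) * s) * ξ k) H ∈ Id C.W (w * s) := by
    have e1 : (fun k => sc C.W (wt (Sum.inr k) * s) * ξ k) = x := by
      funext k
      exact (hξ k).symm
    rw [e1]
    refine (congrArg (· ∈ Id C.W (w * s)) ?_).mp hE
    rw [hH, map_sub, map_sub, shf_eval, MvPolynomial.eval_C, eval_sbs]
    congr 2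
    congr 1
    funext a
    rcases a with a | k
    · show 0 = MvPolynomial.eval x (0 : MvPolynomial κ (QS C.W))
      rw [map_zero]
    · show x k = MvPolynomial.eval x (MvPolynomial.X k)
      rw [MvPolynomial.eval_X]
  have h2 := small_raw (fun k => hwt (Sum.inr k)) hs hℓ hℓ1 (hξR B) hws le_rfl (PKr_of_PK le_rfl hHk) hHe
    (Finsupp.single l 1)
  rw [wgt_single, hH, MvPolynomial.coeff_sub, vert_single, MvPolynomial.coeff_sub, shf_single, MvPolynomial.coeff_C,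
    if_neg (Ne.symm (Finsupp.single_ne_zero.mpr one_ne_zero)), sub_zero, hJJ, MvPolynomial.coeff_sub,
    MvPolynomial.coeff_map, MvPolynomial.coeff_map, Pj.comp_qs, Pj.comp_qs, hp0, hR0, MvPolynomial.pderiv_map,
    ← qs_eval, ← map_sub, ← map_sub, ← sub_mul] at h2
  have hle : (w - wt (Sum.inr l)) * s ≤ 1 := by
    have := mul_nonneg (hwt (Sum.inr l)) hs
    linarith
  exact (r0.qs_mem_Id hle).mp h2

end

end Pool.Agent.Helper14.WLK
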