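import Pool.Agent.Helper14.WLK.Tee

/-! The transport polynomials. -/

set_option autoImplicit false
set_option linter.unusedSectionVars false

namespace Pool.Agent.Helper14.WLK

open Finset Filter Topology Pool.Agent.Helper69.RK Pool.Agent.Helper31.EC Pool.Agent.Helper31.EC.Sp
open Pool.Agent.Helper31.EC.QS Pool.Agent.Helper57.TA Pool.Agent.Helper21.DO Pool.Agent.Helper95.RIG
open Pool.Agent.Helper79.JET Pool.Agent.Helper79.WLK

noncomputable section

section alg

variable {A B : Type} [CommRing A] [CommRing B] {κ : Type}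

/-- displacement of the lower coordinates from the intercept -/
def sft (ρ : κ → Polynomial A) (τ : A) (k : κ) : A := (ρ k - Polynomial.C ((ρ k).coeff 0)).eval τ

/-- displacement of the lower coordinates, as a polynomial in `t`, `t'` -/
def trG (ρ : κ → Polynomial A) (k : κ) : MvPolynomial (Fin 2) A :=
  (ρ k).eval₂ MvPolynomial.C (MvPolynomial.X 1) - (ρ k).eval₂ MvPolynomial.C (MvPolynomial.X 0)

/-- the shift as a polynomial -/
def shp (ρ : κ → Polynomial A) (k : κ) : MvPolynomial (κ ⊕ Fin 2) A :=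
  (ρ k - Polynomial.C ((ρ k).coeff 0)).eval₂ MvPolynomial.C (MvPolynomial.X (Sum.inr 0))

/-- the transport of the next coordinate, as a polynomial in `R`, `t`, `t'` -/
def trp (ρ : κ → Polynomial A) (cc : ℕ → MvPolynomial κ A) (N : ℕ) : MvPolynomial (κ ⊕ Fin 2) A :=
  ∑ l ∈ range N, MvPolynomial.aeval (fun k => MvPolynomial.X (Sum.inl k) - shp ρ k) (cc (l + 1)) *
    (MvPolynomial.X (Sum.inr 1) ^ (l + 1) - MvPolynomial.X (Sum.inr 0) ^ (l + 1))

theorem eval₂C_eval {σ : Type} (x : σ → A) (P : Polynomial A) (v : MvPolynomial σ A) :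
    MvPolynomial.eval x (P.eval₂ MvPolynomial.C v) = P.eval (MvPolynomial.eval x v) := by
  rw [Polynomial.hom_eval₂]
  have h : (MvPolynomial.eval x).comp MvPolynomial.C = RingHom.id A := by
    ext1 a
    show MvPolynomial.eval x (MvPolynomial.C a) = a
    rw [MvPolynomial.eval_C]
  rw [h]
  rfl

theorem map_eval₂C {σ : Type} (ψ : A →+* B) (P : Polynomial A) (i : σ) :
    MvPolynomial.map ψ (P.eval₂ MvPolynomial.C (MvPolynomial.X i)) =
      (P.map ψ).eval₂ MvPolynomial.C (MvPolynomial.X i) := by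
  rw [Polynomial.hom_eval₂, Polynomial.eval₂_map, MvPolynomial.map_X]
  congr 1
  ext1 a
  show MvPolynomial.map ψ (MvPolynomial.C a) = MvPolynomial.C (ψ a)
  rw [MvPolynomial.map_C]

theorem trG_eval (ρ : κ → Polynomial A) (k : κ) (a b : A) :
    MvPolynomial.eval ![a, b] (trG ρ k) = (ρ k).eval b - (ρ k).eval a := by
  unfold trG
  rw [map_sub, eval₂C_eval, eval₂C_eval, MvPolynomial.eval_X, MvPolynomial.eval_X]
  rfl

theorem shp_eval (ρ : κ → Polynomial A) (x : κ → A) (k : κ) (a b : A) :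
    MvPolynomial.eval (Sum.elim x ![a, b]) (shp ρ k) = sft ρ a k := by
  unfold shp
  rw [eval₂C_eval, MvPolynomial.eval_X]
  rfl

theorem trp_eval (ρ : κ → Polynomial A) (cc : ℕ → MvPolynomial κ A) (N : ℕ) (x : κ → A) (a b : A) :
    MvPolynomial.eval (Sum.elim x ![a, b]) (trp ρ cc N) = ∑ l ∈ range N,
      MvPolynomial.eval (fun k => x k - sft ρ a k) (cc (l + 1)) * (b ^ (l + 1) - a ^ (l + 1)) := by
  unfold trp
  rw [map_sum]
  apply Finset.sum_congr rfl
  intro l _
  rw [map_mul, eval_sbs, map_sub, map_pow, map_pow, MvPolynomial.eval_X, MvPolynomial.eval_X]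
  congr 2
  congr 1
  funext k
  rw [map_sub, MvPolynomial.eval_X, shp_eval]
  rfl

theorem map_trG (ψ : A →+* B) (ρ : κ → Polynomial A) (k : κ) :
    MvPolynomial.map ψ (trG ρ k) = trG (fun k => (ρ k).map ψ) k := by
  unfold trG
  rw [map_sub, map_eval₂C, map_eval₂C]

theorem map_shp (ψ : A →+* B) (ρ : κ → Polynomial A) (k : κ) :
    MvPolynomial.map ψ (shp ρ k) = shp (fun k => (ρ k).map ψ) k := by
  unfold shp
  rw [map_eval₂C, Polynomial.map_sub, Polynomial.map_C, Polynomial.coeff_map]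

theorem map_trp (ψ : A →+* B) (ρ : κ → Polynomial A) (cc : ℕ → MvPolynomial κ A) (N : ℕ) :
    MvPolynomial.map ψ (trp ρ cc N) = trp (fun k => (ρ k).map ψ) (fun l => MvPolynomial.map ψ (cc l)) N := by
  unfold trp
  rw [map_sum]
  apply Finset.sum_congr rfl
  intro l _
  rw [map_mul, map_sbs, map_sub, map_pow, map_pow, MvPolynomial.map_X, MvPolynomial.map_X]
  congr 3
  funext k
  rw [map_sub, MvPolynomial.map_X, map_shp]

theorem shp_pderiv (ρ : κ → Polynomial A) (k j : κ) :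
    MvPolynomial.pderiv (Sum.inl j : κ ⊕ Fin 2) (shp ρ k) = 0 := by
  unfold shp
  rw [Polynomial.eval₂_eq_sum_range, map_sum]
  apply Finset.sum_eq_zero
  intro i _
  rw [MvPolynomial.pderiv_C_mul, MvPolynomial.pderiv_pow, MvPolynomial.pderiv_X_of_ne (by simp), mul_zero, mul_zero]

theorem trp_pderiv (ρ : κ → Polynomial A) (cc : ℕ → MvPolynomial κ A) (N : ℕ) (j : κ) :
    MvPolynomial.pderiv (Sum.inl j) (trp ρ cc N) = trp ρ (fun l => MvPolynomial.pderiv j (cc l)) N := by
  classical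
  unfold trp
  rw [map_sum]
  apply Finset.sum_congr rfl
  intro l _
  rw [MvPolynomial.pderiv_mul, pderiv_sbs _ j (Sum.inl j) (by
    intro a
    rw [map_sub, shp_pderiv, sub_zero, MvPolynomial.pderiv_X]
    by_cases h : a = j
    · subst h
      rw [Pi.single_eq_same, if_pos rfl]
    · rw [Pi.single_eq_of_ne (by simpa using h), if_neg h])]
  have h1 : MvPolynomial.pderiv (Sum.inl j : κ ⊕ Fin 2)
      ((MvPolynomial.X (Sum.inr 1) : MvPolynomial (κ ⊕ Fin 2) A) ^ (l + 1) - MvPolynomial.X (Sum.inr 0) ^ (l + 1)) =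
        0 := by
    rw [map_sub, MvPolynomial.pderiv_pow, MvPolynomial.pderiv_pow, MvPolynomial.pderiv_X_of_ne (by simp),
      MvPolynomial.pderiv_X_of_ne (by simp), mul_zero, mul_zero, sub_zero]
  rw [h1, mul_zero, add_zero]

end alg

section know

variable {S : Sp} {κ : Type} {A : S.L}

theorem eval₂C_PK {σ : Type} {P : Polynomial (QS S)} (hP : P ∈ PK1 A) {v : MvPolynomial σ (QS S)} (hv : v ∈ PK A) :
    P.eval₂ MvPolynomial.C v ∈ PK A := by
  rw [Polynomial.eval₂_eq_sum_range]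
  exact (PK A).sum_mem fun i _ => (PK A).mul_mem (C_mem (hP i)) ((PK A).pow_mem hv _)

theorem trG_PK {ρ : κ → Polynomial (QS S)} (hρ : ∀ k j, j ≠ 0 → dg ((ρ k).coeff j) 1 ≤ A) (k : κ) :
    trG ρ k ∈ PK A := by
  have h1 : trG ρ k = (ρ k - Polynomial.C ((ρ k).coeff 0)).eval₂ MvPolynomial.C (MvPolynomial.X 1) -
      (ρ k - Polynomial.C ((ρ k).coeff 0)).eval₂ MvPolynomial.C (MvPolynomial.X 0) := by
    unfold trG
    rw [Polynomial.eval₂_sub, Polynomial.eval₂_sub, Polynomial.eval₂_C, Polynomial.eval₂_C]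
    ring
  rw [h1]
  exact (PK A).sub_mem (eval₂C_PK (PK1_subC (hρ k)) (X_mem _ _)) (eval₂C_PK (PK1_subC (hρ k)) (X_mem _ _))

theorem trp_PK {ρ : κ → Polynomial (QS S)} (hρ : ∀ k j, j ≠ 0 → dg ((ρ k).coeff j) 1 ≤ A)
    {cc : ℕ → MvPolynomial κ (QS S)} (hc : ∀ l, cc l ∈ PK A) (N : ℕ) : trp ρ cc N ∈ PK A := by
  unfold trp
  apply (PK A).sum_mem
  intro l _
  refine (PK A).mul_mem (sbs_PK (hc _) fun k => (PK A).sub_mem (X_mem _ _)
    (eval₂C_PK (PK1_subC (hρ k)) (X_mem _ _))) ((PK A).sub_mem ((PK A).pow_mem (X_mem _ _) _)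
    ((PK A).pow_mem (X_mem _ _) _))

end know

section deg

variable {A : Type} [CommRing A] {κ : Type} [Fintype κ]

/-- the degree of the transports is bounded -/
theorem exists_deg (ρ : κ → Polynomial A) (cc : ℕ → MvPolynomial κ A) (N : ℕ) : ∃ d : ℕ,
    ∀ (B : Type) (_ : CommRing B) (ψ : A →+* B), (MvPolynomial.map ψ (trp ρ cc N)).totalDegree ≤ d :=
  ⟨(trp ρ cc N).totalDegree, fun B _ ψ => by
    apply Finset.sup_mono
    exact MvPolynomial.support_map_subset _ _⟩

end deg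

end

end Pool.Agent.Helper14.WLK
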