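import Pool.Agent.Helper14.WLK.Near

/-! Transports on the zoom: step 2, the coefficients are known to the base line and the box (two copies of the point
over the curve and the box). -/

set_option autoImplicit false
set_option linter.unusedSectionVars false

namespace Pool.Agent.Helper14.WLK

open Finset Filter Topology Pool.Agent.Helper69.RK Pool.Agent.Helper31.EC Pool.Agent.Helper31.EC.Sp
open Pool.Agent.Helper31.EC.QS Pool.Agent.Helper57.TA Pool.Agent.Helper21.DO Pool.Agent.Helper95.RIG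
open Pool.Agent.Helper79.JET

noncomputable section

theorem PK1_subC {S : Sp} {A : S.L} {P : Polynomial (QS S)} (h : ∀ j, j ≠ 0 → dg (P.coeff j) 1 ≤ A) :
    P - Polynomial.C (P.coeff 0) ∈ PK1 A := by
  intro n
  rw [Polynomial.coeff_sub, Polynomial.coeff_C]
  by_cases hn : n = 0
  · rw [if_pos hn, hn, sub_self]
    have h3 : dg (0 : QS S) 1 ≤ ⊥ := (Kn S 1 le_rfl ⊥).zero_mem
    exact h3.trans bot_le
  · rw [if_neg hn, sub_zero]
    exact h n hn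

variable {S : Sp} {β κ : Type} [Fintype β] [Fintype κ] {νb νx νg : Type} [Fintype νb] [Fintype νx] [Fintype νg]
    {α αx : ℕ → Type} {bV : ∀ k, (S.F k).Ω → α k} {xV : ∀ k, (S.F k).Ω → αx k} {fb : νb → QS S} {fx : νx → QS S}
    {g : νg → QS S} {t : QS S}
    {q : β → QS S} {R : κ → QS S} {z : QS S} {wt : κ → ℝ} {w y ℓ : ℝ} {tc : QS S} {qc : β → QS S}
    {Pc : κ → MvPolynomial β (QS S)} {Fc : MvPolynomial (β ⊕ κ) (QS S)} {t' : QS S} {R' : κ → QS S} {z' : QS S}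

namespace Far

variable (hF : Far bV xV fb fx g t q R z wt w y ℓ tc qc Pc Fc t' R' z')

include hF

/-- the intercepts of the near lower coordinates are free over the base point -/
theorem full0 (hℓ : 0 ≤ ℓ) (hw0 : ∀ k, 0 ≤ wt k * y) (hℓw : ∀ k, ℓ ≤ 1 - wt k * y) {ρ : κ → Polynomial (QS S)}
    (hρ2 : ∀ k j, j ≠ 0 → dg ((ρ k).coeff j) 1 ≤ io bV ⊔ vd g 1)
    (hρ3 : ∀ k, sc S (wt k * y) * (ρ k).eval t' = sc S (wt k * y) * R' k) :
    Rt ℓ (fun k => (ρ k).coeff 0) (io bV ⊔ dg t 1 ⊔ vd g 1) := by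
  apply Rt.of_ge hℓ
  have h1 := hF.full
  unfold Rt at h1
  rw [← h1]
  rw [← h_sup_right_of_le (A := vd (fun k => (ρ k).coeff 0) ℓ) (le_refl (io bV ⊔ dg t 1 ⊔ vd g 1))]
  apply h_mono
  rw [vd_le]
  intro k
  have hℓ1 : ℓ ≤ 1 := by have := hℓw k; have := hw0 k; linarith
  have h2 := sub_mem_of_sc (hw0 k) (hρ3 k).symm
  rw [dg_eq_of_sub_mem h2 (hℓw k) hℓ1]
  have h3 : (ρ k).eval t' = (ρ k).coeff 0 + (ρ k - Polynomial.C ((ρ k).coeff 0)).eval t' := by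
    rw [Polynomial.eval_sub, Polynomial.eval_C]
    ring
  rw [h3]
  refine (dg_add_le _ _ hℓ1).trans (sup_le ?_ ?_)
  · exact (dg_le_vd (fun k => (ρ k).coeff 0) ℓ k).trans le_sup_left
  · refine (QS.dg_mono _ hℓ1).trans (le_trans (eval_PK1 (A := io bV ⊔ dg t 1 ⊔ vd g 1) ?_ ?_) le_sup_right)
    · exact PK1_mono (sup_le (le_sup_left.trans le_sup_left) le_sup_right) (PK1_subC (hρ2 k))
    · exact hF.tk.trans (sup_le (le_sup_right.trans le_sup_left) le_sup_right)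

/-- step 2 -/
theorem two (hℓ : 0 < ℓ) (hℓ1 : ℓ ≤ 1) (hy0 : 0 ≤ y) (hy1 : y < 1) (hwy : 0 ≤ w * y) (hwy1 : w * y ≤ 1)
    (hw0 : ∀ k, 0 ≤ wt k * y) (hww : ∀ k, wt k * y + w * y ≤ 1) (hℓw : ∀ k, ℓ ≤ 1 - wt k * y)
    {Zp : Polynomial (QS S)} (hZ : Zp ∈ CS1 (LF xV fx)) (hz : z = Zp.eval t) {ρ : κ → Polynomial (QS S)}
    (hρ1 : ∀ k, ρ k ∈ PK1 (io xV ⊔ vd fx 1 ⊔ vd g 1))
    (hρ2 : ∀ k j, j ≠ 0 → dg ((ρ k).coeff j) 1 ≤ io bV ⊔ vd g 1)
    (hρ3 : ∀ k, sc S (wt k * y) * (ρ k).eval t' = sc S (wt k * y) * R' k) (l : ℕ) (hl : l ≠ 0) :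
    ∃ B : MvPolynomial κ (QS S), B ∈ PK (io bV ⊔ vd g 1) ∧
      Zp.coeff l - MvPolynomial.eval (fun k => (ρ k).coeff 0) B ∈ Id S (w * y) := by
  classical
  obtain ⟨eb, heb⟩ := hF.bx
  obtain ⟨Q, hQ, hQe⟩ := hF.one hℓ hℓ1 hwy hwy1 hZ hz l hl
  set A0 : S.L := io bV ⊔ dg t 1 ⊔ vd g 1 with hA0
  have hbgA : io bV ⊔ vd g 1 ≤ A0 := sup_le (le_sup_left.trans le_sup_left) le_sup_right
  obtain ⟨x0, hx0⟩ : ∃ x0 : κ → QS S, x0 = fun k => (ρ k).coeff 0 := ⟨_, rfl⟩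
  obtain ⟨s, hs⟩ : ∃ s : κ → QS S, s = fun k => (ρ k - Polynomial.C ((ρ k).coeff 0)).eval t' := ⟨_, rfl⟩
  have hsk : ∀ k, dg (s k) 1 ≤ A0 := by
    intro k
    rw [hs]
    exact eval_PK1 (PK1_mono hbgA (PK1_subC (hρ2 k)))
      (hF.tk.trans (sup_le (le_sup_right.trans le_sup_left) le_sup_right))
  have hR's : ∀ k, R' k - (x0 k + s k) ∈ Id S (w * y) := by
    intro k
    have h2 := sub_mem_of_sc (hw0 k) (hρ3 k).symm
    have e1 : x0 k + s k = (ρ k).eval t' := by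
      rw [hx0, hs]
      show (ρ k).coeff 0 + (ρ k - Polynomial.C ((ρ k).coeff 0)).eval t' = _
      rw [Polynomial.eval_sub, Polynomial.eval_C]
      ring
    rw [e1]
    exact Id_mono (by have := hww k; linarith) h2
  obtain ⟨Q1, hQ1⟩ : ∃ Q1 : MvPolynomial κ (QS S), Q1 =
    MvPolynomial.aeval (fun k => MvPolynomial.X k + MvPolynomial.C (s k)) Q := ⟨_, rfl⟩
  have hQ1k : Q1 ∈ PK A0 := by
    rw [hQ1]
    exact sbs_PK hQ fun k => (PK _).add_mem (X_mem _ _) (C_mem (hsk k))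
  have hQ1e : Zp.coeff l - MvPolynomial.eval x0 Q1 ∈ Id S (w * y) := by
    have h1 := eval_sub_mem (Id S (w * y)) Q R' (fun k => x0 k + s k) hR's
    have h2 := (Id S (w * y)).add_mem hQe h1
    refine (congrArg (· ∈ Id S (w * y)) ?_).mp h2
    rw [hQ1, eval_sbs]
    have e2 : (fun i => MvPolynomial.eval x0 (MvPolynomial.X i + MvPolynomial.C (s i))) = fun k => x0 k + s k := by
      funext k
      rw [map_add, MvPolynomial.eval_X, MvPolynomial.eval_C]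
    rw [e2]
    ring
  have hx0R : Rt ℓ x0 A0 := by
    rw [hx0]
    exact hF.full0 hℓ.le hw0 hℓw hρ2 hρ3
  -- two points over the curve and the box
  obtain ⟨f2, hf2⟩ : ∃ f2 : νx ⊕ (νg ⊕ (κ ⊕ Unit)) → QS S, f2 =
    Sum.elim fx (Sum.elim g (Sum.elim x0 (fun _ => Zp.coeff l))) := ⟨_, rfl⟩
  obtain ⟨γ, U, hU, hUio, ⟨eU, heU⟩, hUf⟩ := exists_lvar hF.bddx f2
  have hUle : io U ≤ io xV ⊔ vd fx 1 ⊔ vd g 1 := by
    rw [hUio]
    refine sup_le (le_sup_left.trans le_sup_left) ?_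
    rw [vd_le, hf2]
    rintro (i | i | i | i)
    · exact ((dg_le_vd fx 1 i).trans le_sup_right).trans le_sup_left
    · exact (dg_le_vd g 1 i).trans le_sup_right
    · show dg (x0 i) 1 ≤ _
      rw [hx0]
      exact hρ1 i 0
    · exact (LF_know hF.bddx (hZ l)).trans le_sup_left
  obtain ⟨C2⟩ := Cps.exists U hU 1
  obtain ⟨P0, hP0⟩ : ∃ P0 : Pj C2.W S, P0 = C2.p 0 := ⟨_, rfl⟩
  obtain ⟨P1, hP1⟩ : ∃ P1 : Pj C2.W S, P1 = C2.p 1 := ⟨_, rfl⟩
  have hAg : Ag U P0 P1 := by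
    rw [hP0, hP1]
    exact Cps_Ag C2 0 1
  have hcf := hUf _ _ _ hAg
  have cg : ∀ i, P0.qs (g i) = P1.qs (g i) := by
    intro i
    have h1 := hcf (Sum.inr (Sum.inl i))
    rwa [hf2] at h1
  have cx0 : ∀ i, P0.qs (x0 i) = P1.qs (x0 i) := by
    intro i
    have h1 := hcf (Sum.inr (Sum.inr (Sum.inl i)))
    rwa [hf2] at h1
  have cZ : P0.qs (Zp.coeff l) = P1.qs (Zp.coeff l) := by
    have h1 := hcf (Sum.inr (Sum.inr (Sum.inr ())))
    rwa [hf2] at h1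
  have cb : P0.map (io bV) = P1.map (io bV) := ((hAg.fn eU heU).fn eb heb).map_io hF.bdd
  have cgm : P0.map (vd g 1) = P1.map (vd g 1) := by
    rw [← P0.qs_vd, ← P1.qs_vd]
    exact Pool.Agent.Helper38.NS.vd_congr cg 1
  have hnew : ∀ K : S.L, 1 - y ≤ h (P1.map (dg t 1)) (P0.map K) := by
    intro K
    have h1 := cps_new C2 (y := dg t 1) (K := K ⊔ io U) le_sup_right
    rw [← hP0, ← hP1] at h1
    calc 1 - y ≤ h (dg t 1) (io xV ⊔ vd fx 1 ⊔ vd g 1) := hF.tbox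
      _ ≤ h (dg t 1) (io U) := h_anti hUle
      _ = h (P1.map (dg t 1)) (P0.map (K ⊔ io U)) := h1.symm
      _ ≤ _ := h_anti (P0.map_mono le_sup_left)
  have hold : ∀ B : S.L, vd g 1 ≤ B → h (P1.map (dg t 1)) (P0.map B) ≤ 1 - y := by
    intro B hB
    have h1 : P1.map (dg t 1) ≤ P1.map (dg t' (1 - y)) ⊔ P0.map B := by
      refine (P1.map_mono (hF.t_le hy0 hy1.le)).trans ?_
      rw [P1.map_sup, ← cgm]
      exact sup_le_sup_left (P0.map_mono hB) _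
    calc h (P1.map (dg t 1)) (P0.map B) ≤ h (P1.map (dg t' (1 - y)) ⊔ P0.map B) (P0.map B) := h_mono h1
      _ = h (P1.map (dg t' (1 - y))) (P0.map B) := h_sup_right_of_le le_rfl
      _ ≤ 1 - y := by
        refine (h_le_H _ _).trans ?_
        rw [← P1.qs_dg]
        exact H_dg_le _ (by linarith)
  have hind : ∀ K B : S.L, vd g 1 ≤ B → I (P0.map K) (P1.map (dg t 1)) (P0.map B) = 0 := by
    intro K B hB
    rw [I_zero_iff_h', ← P0.map_sup]
    exact le_antisymm (h_anti (P0.map_mono le_sup_right)) ((hold B hB).trans (hnew _))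
  -- comparison
  have hA1 : P1.map A0 ≤ P1.map (dg t 1) ⊔ P0.map A0 := by
    rw [hA0, P1.map_sup, P1.map_sup, ← cb, ← cgm]
    refine sup_le (sup_le ?_ le_sup_left) ?_
    · exact (P0.map_mono (le_sup_left.trans le_sup_left)).trans le_sup_right
    · exact (P0.map_mono le_sup_right).trans le_sup_right
  have hRt : Rt ℓ (fun k => P0.qs (x0 k)) (P1.map (dg t 1) ⊔ P0.map A0) := by
    unfold Rt
    rw [P0.qs_vd, I_zero_iff_h.mp (hind (vd x0 ℓ) A0 le_sup_right), P0.h_map]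
    exact hx0R
  have he0 := (P0.qs_mem_Id hwy1).mpr hQ1e
  have he1 := (P1.qs_mem_Id hwy1).mpr hQ1e
  rw [map_sub, qs_eval] at he0 he1
  rw [← cZ] at he1
  have e3 : (fun i => P1.qs (x0 i)) = fun i => P0.qs (x0 i) := by
    funext i
    exact (cx0 i).symm
  rw [e3] at he1
  have hd := mv_small_unique hℓ hℓ1 hRt hwy1 le_rfl (PKr_of_PK le_rfl (PK_mono le_sup_right (map_PK P0 hQ1k)))
    (PKr_of_PK le_rfl (PK_mono hA1 (map_PK P1 hQ1k))) (sub_sub_mem _ he0 he1)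
  have hQr : ∀ m, dg (Q1.coeff m) (w * y) ≤ io bV ⊔ vd g 1 := by
    intro m
    rw [← P0.map_le, ← P0.qs_dg]
    have h1 := hd m
    rw [MvPolynomial.coeff_map, MvPolynomial.coeff_map] at h1
    have hA0le : A0 ≤ dg t 1 ⊔ (io bV ⊔ vd g 1) :=
      sup_le (sup_le (le_sup_left.trans le_sup_right) le_sup_left) (le_sup_right.trans le_sup_right)
    apply le_of_markov (A := P0.map (dg t 1)) (B := P1.map (dg t 1)) _ _ (hind (dg t 1) _ le_sup_right)
    · rw [P0.qs_dg, ← P0.map_sup]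
      exact P0.map_mono (((QS.dg_mono _ hwy1).trans (hQ1k m)).trans hA0le)
    · rw [dg_eq_of_sub_mem h1 le_rfl hwy1, P1.qs_dg]
      have e4 : P0.map (io bV ⊔ vd g 1) = P1.map (io bV ⊔ vd g 1) := by
        rw [P0.map_sup, P1.map_sup, cb, cgm]
      rw [e4, ← P1.map_sup]
      exact P1.map_mono (((QS.dg_mono _ hwy1).trans (hQ1k m)).trans hA0le)
  obtain ⟨B, hB⟩ := exists_round_mv Q1 hwy hwy1
  refine ⟨B, fun m => (hB m).1.trans (hQr m), ?_⟩
  have h1 := eval_mem_ideal (Id S (w * y)) (P := Q1 - B) (fun m => by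
    rw [MvPolynomial.coeff_sub]
    exact (hB m).2) x0
  have h2 := (Id S (w * y)).add_mem hQ1e h1
  refine (congrArg (· ∈ Id S (w * y)) ?_).mp h2
  rw [map_sub, hx0]
  ring

end Far

end

end Pool.Agent.Helper14.WLK
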