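import Pool.Agent.Helper14.WLK.Cur
import Pool.Agent.Helper79.WLK.Wd

/-! Types with polynomial transports: the edges of helper79 and the transports of helper57. -/

set_option autoImplicit false
set_option linter.unusedSectionVars false

namespace Pool.Agent.Helper14.WLK

open Finset Filter Topology Pool.Agent.Helper69.RK Pool.Agent.Helper31.EC Pool.Agent.Helper31.EC.Sp
open Pool.Agent.Helper31.EC.QS Pool.Agent.Helper57.TA Pool.Agent.Helper21.DO Pool.Agent.Helper95.RIG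
open Pool.Agent.Helper79.JET Pool.Agent.Helper79.WLK

noncomputable section

variable {S : Sp} {β κ : Type} [Fintype β] [Fintype κ] {νb νx : Type} [Fintype νb] [Fintype νx]
    {α αx : ℕ → Type} {bV : ∀ k, (S.F k).Ω → α k} {xV : ∀ k, (S.F k).Ω → αx k} {fb : νb → QS S} {fx : νx → QS S}
    {D : Dat S β κ} {t : QS S} {r : ℝ} {ρ : κ → Polynomial (QS S)} {ζ : Polynomial (QS S)}
    {cc : ℕ → MvPolynomial κ (QS S)} {ν : Type} [Fintype ν] {g : ν → QS S} {s : ℝ}

/-- THE (T)-BOX at scale `s` for a type: literal box, relation of the next coordinate, Theorem R for its functions,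
fullness -/
structure TBox (D : Dat S β κ) (bV : ∀ k, (S.F k).Ω → α k) (xV : ∀ k, (S.F k).Ω → αx k) (fx : νx → QS S) (t : QS S)
    (g : ν → QS S) (s : ℝ) : Prop where
  hb : LB D.q D.R D.Pj D.wt g s
  hs : 0 ≤ s
  h1 : ∀ a, D.wt a * s < 1
  hws : D.w * s ≤ 1
  hJ : LR D.q D.R D.Pj D.z D.J g (D.w * s)
  hTR : ∀ (W : Sp) (P P' : Pj W S), Ag xV P P' → (∀ i, P.qs (fx i) = P'.qs (fx i)) →
      P'.map (vd g 1) ≤ P.map (io bV ⊔ dg t 1 ⊔ vd g 1) ⊔ P'.map (dg t 1)
  hfull : ∑ k, (1 - D.wt (Sum.inr k) * s) ≤ h (vd D.R 1) (io bV ⊔ dg t 1 ⊔ vd g 1)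

namespace Cur

variable (hC : Cur bV xV fb fx t D.q D.R D.z r ρ ζ cc)

include hC

theorem LFb_know {c : QS S} (h : c ∈ LF bV fb) : dg c 1 ≤ io bV :=
  (LF_know hC.bdd h).trans (sup_le le_rfl hC.fbk)

theorem ρb_know (k : κ) (j : ℕ) (hj : j ≠ 0) : dg ((ρ k).coeff j) 1 ≤ io bV := hC.LFb_know (hC.ρb k j hj)

theorem cb_know (l : ℕ) : cc l ∈ PK (io bV) := fun m => hC.LFb_know (hC.cb l m)

theorem lin' (a : β) : ∃ f x : QS S, dg f 1 ≤ io bV ∧ dg x 1 ≤ io bV ∧ D.q a = f + t * x := by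
  obtain ⟨f, hf, u, hu, h⟩ := hC.line a
  exact ⟨f, u, hC.LFb_know hf, hC.LFb_know hu, h⟩

theorem qi_le : D.qi ≤ io bV ⊔ dg t 1 := by
  show vd D.q 1 ≤ _
  rw [vd_le]
  intro a
  obtain ⟨f, x, hf, hx, h⟩ := hC.lin' a
  rw [h]
  refine (dg_add_le _ _ le_rfl).trans (sup_le (hf.trans le_sup_left) ((dg_mul_le _ _ le_rfl).trans
    (sup_le le_sup_right (hx.trans le_sup_left))))

/-- (T) in terms of the datum -/
theorem teeD (hT : TBox D bV xV fx t g s) (hr : D.w * s ≤ r) {W : Sp} {P P' : Pj W S} (hA : Ag xV P P')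
    (hf : ∀ i, P.qs (fx i) = P'.qs (fx i)) (j : κ) :
    P'.qs (D.c j) - P.qs (D.c j) -
      MvPolynomial.eval (Sum.elim (fun k => P.qs (D.R k)) ![P.qs t, P'.qs t])
        (MvPolynomial.pderiv (Sum.inl j) (MvPolynomial.map P.qs (trp ρ cc ζ.natDegree))) ∈
          Id W ((D.w - D.wt (Sum.inr j)) * s) :=
  hC.tee hT.hb hT.hs (fun a => (D.wpos a).le) hT.h1 hT.hws hr D.Pj0 hT.hJ hT.hTR hT.hfull hA hf j

/-- EDGES for all pairs of points of one curve, with a common bound of the degree -/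
theorem edg (hT : TBox D bV xV fx t g s) (hr : D.w * s ≤ r) {r' : ℝ} (h1 : r' ≤ r)
    (h2 : ∀ l, r' ≤ (D.w - D.wt (Sum.inr l)) * s) :
    ∃ d : ℕ, ∀ (W : Sp) (P P' : Pj W S), Ag xV P P' → (∀ i, P.qs (fx i) = P'.qs (fx i)) →
      EdgD D r' d P P' (P.map (io bV ⊔ dg t 1) ⊔ dg (P'.qs t) 1) := by
  obtain ⟨d, hd⟩ := exists_deg ρ cc ζ.natDegree
  refine ⟨d, fun W P P' hA hf => ?_⟩
  exact edgD_of_tr hC.qi_le ((hC.Ag_b hA).map_io hC.bdd).ge (fun k => MvPolynomial.map P.qs (trG ρ k))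
    (MvPolynomial.map P.qs (trp ρ cc ζ.natDegree)) (fun k => map_PK P (trG_PK hC.ρb_know k))
    (map_PK P (trp_PK hC.ρb_know hC.cb_know _)) (fun k => Id_mono h1 (hC.hG hA hf k)) (Id_mono h1 (hC.hp hA hf))
    (fun l => Id_mono (h2 l) (hC.teeD hT hr hA hf l)) (hd _ _ P.qs)

/-- A TRANSPORT between two independent points of one curve -/
theorem tran (hT : TBox D bV xV fx t g s) (hr : D.w * s ≤ r) {r' : ℝ} (h1 : r' ≤ r)
    (h2 : ∀ l, r' ≤ (D.w - D.wt (Sum.inr l)) * s) {ν' : Type} [Fintype ν'] {bf : ν' → QS S}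
    (hbf : io bV ≤ vd bf 1) (hbx : ∀ a, bf a ∈ LF xV fx) (htq : dg t 1 ≤ D.qi) (hR : Rl D.R (vd bf 1 ⊔ dg t 1)) :
    Nonempty (Tran D bf t r') := by
  obtain ⟨W, u, P', hA1, hf1, hn⟩ := exists_fresh hC.bddx hC.treal (Pj.id S)
  have hA : Ag xV u P' := hA1
  have hf : ∀ i, u.qs (fx i) = P'.qs (fx i) := by
    intro i
    rw [← hf1 i, Pj.comp_qs, Pj.id_qs]
  have hmono : u.map (io bV) ≤ u.map (vd bf 1) := Pj.map_mono _ hbf
  exact ⟨{ W := W
           P := u
           P' := P'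
           com := fun a => hbx a W u P' hA hf
           G := fun k => MvPolynomial.map u.qs (trG ρ k)
           p := MvPolynomial.map u.qs (trp ρ cc ζ.natDegree)
           Gk := fun k => PK_mono hmono (map_PK u (trG_PK hC.ρb_know k))
           pk := PK_mono hmono (map_PK u (trp_PK hC.ρb_know hC.cb_know _))
           hG := fun k => Id_mono h1 (hC.hG hA hf k)
           hp := Id_mono h1 (hC.hp hA hf)
           hT := fun l => Id_mono (h2 l) (hC.teeD hT hr hA hf l)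
           Rreal := by
             have h2 : I (u.map (vd D.R 1)) (P'.map (dg t 1)) (u.map (vd bf 1 ⊔ dg t 1)) = 0 := by
               rw [I_zero_iff_h', ← u.map_sup, hn, hn]
             have h3 := I_zero_iff_h.mp h2
             rw [u.h_map] at h3
             show h (vd (fun k => u.qs (D.R k)) 1) _ = _
             rw [u.qs_vd, u.qs_dg, P'.qs_dg]
             have e1 : u.map (vd bf 1) ⊔ (u.map (dg t 1) ⊔ P'.map (dg t 1)) =
                 P'.map (dg t 1) ⊔ u.map (vd bf 1 ⊔ dg t 1) := by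
               rw [u.map_sup, ← sup_assoc, sup_comm]
             rw [e1, h3]
             exact hR
           treal := by
             rw [P'.qs_dg, u.qs_dg, ← u.map_sup]
             exact hn _
           lin := fun a => by
             obtain ⟨f, x, hf, hx, h⟩ := hC.lin' a
             exact ⟨f, x, hf.trans hbf, hx.trans hbf, h⟩
           tq := htq }⟩

end Cur

end

end Pool.Agent.Helper14.WLK
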