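import Pool.Agent.Helper14.WLK.Wrp
import Pool.Agent.Helper14.WLK.Kap
import Pool.Agent.Helper13.AM.Zq
import Pool.Agent.Helper13.AM.Der

/-! Transports on the zoom: the analysis in a box gives a type with polynomial transports on the zoomed space. -/

set_option autoImplicit false
set_option linter.unusedSectionVars false

namespace Pool.Agent.Helper14.WLK

open Finset Filter Topology Pool.Agent.Helper69.RK Pool.Agent.Helper31.EC Pool.Agent.Helper31.EC.Sp
open Pool.Agent.Helper31.EC.QS Pool.Agent.Helper57.TA Pool.Agent.Helper21.DO Pool.Agent.Helper95.RIG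
open Pool.Agent.Helper79.JET Pool.Agent.Helper79.WLK
open Pool.Agent.Helper13.AM (cQ cQ_dg cQ_vd cQ_mem cQ_eq cQ_surj dg_scl)

noncomputable section

/-- fewer digits are full as well -/
theorem h_dg_full {S : Sp} (x : QS S) {A : S.L} {r s : ℝ} (hrs : r ≤ s) (h1 : s ≤ h (dg x s) A) :
    r ≤ h (dg x r) A := by
  have h2 := h_triangle (dg x s) (dg x r) A
  have h3 : h (dg x s) (dg x r ⊔ A) ≤ h (dg x s) (dg x r) := h_anti le_sup_left
  have h4 := h_dg_dg x hrs
  linarith

/-- the range of finitely many coefficients -/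
theorem coeff_fin {A : Type} [CommRing A] {κ : Type} [Fintype κ] (ρ : κ → Polynomial A) (ζ : Polynomial A)
    (cc : ℕ → MvPolynomial κ A) (N : ℕ) :
    ∃ (F G E : Finset A), (∀ k j, (ρ k).coeff j ∈ E ∨ (ρ k).coeff j = 0) ∧ (∀ j, ζ.coeff j ∈ F ∨ ζ.coeff j = 0) ∧
      (∀ l, l ≤ N → ∀ m, (cc l).coeff m ∈ G ∨ (cc l).coeff m = 0) ∧
      (∀ x ∈ E, ∃ k j, x = (ρ k).coeff j) ∧ (∀ x ∈ F, ∃ j, x = ζ.coeff j) ∧
      ∀ x ∈ G, ∃ l m, x = (cc l).coeff m := by
  classical
  refine ⟨ζ.support.image ζ.coeff, (range (N + 1)).biUnion fun l => (cc l).support.image (cc l).coeff,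
    univ.biUnion fun k => (ρ k).support.image (ρ k).coeff, ?_, ?_, ?_, ?_, ?_, ?_⟩
  · intro k j
    by_cases h : (ρ k).coeff j = 0
    · exact Or.inr h
    · exact Or.inl (mem_biUnion.mpr ⟨k, mem_univ k, mem_image.mpr ⟨j, Polynomial.mem_support_iff.mpr h, rfl⟩⟩)
  · intro j
    by_cases h : ζ.coeff j = 0
    · exact Or.inr h
    · exact Or.inl (mem_image.mpr ⟨j, Polynomial.mem_support_iff.mpr h, rfl⟩)
  · intro l hl m
    by_cases h : (cc l).coeff m = 0
    · exact Or.inr h
    · exact Or.inl (mem_biUnion.mpr ⟨l, mem_range.mpr (Nat.lt_succ_of_le hl),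
        mem_image.mpr ⟨m, MvPolynomial.mem_support_iff.mpr h, rfl⟩⟩)
  · intro x hx
    obtain ⟨k, _, h⟩ := mem_biUnion.mp hx
    obtain ⟨j, _, rfl⟩ := mem_image.mp h
    exact ⟨k, j, rfl⟩
  · intro x hx
    obtain ⟨j, _, rfl⟩ := mem_image.mp hx
    exact ⟨j, rfl⟩
  · intro x hx
    obtain ⟨l, _, h⟩ := mem_biUnion.mp hx
    obtain ⟨m, _, rfl⟩ := mem_image.mp h
    exact ⟨l, m, rfl⟩

variable {S : Sp} {κ : Type} [Fintype κ]

/-- known functions which occur in the transports, in finite families -/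
theorem Cur.of_know {β : Type} [Fintype β] {α αx : ℕ → Type} {bW : ∀ k, (S.F k).Ω → α k}
    {xW : ∀ k, (S.F k).Ω → αx k} (hbW : Bdd bW) (hxW : Bdd xW)
    (hbx : ∃ e : ∀ k, αx k → α k, ∀ k ω, bW k ω = e k (xW k ω)) {X : S.L} (hX : io xW ≤ X) {t : QS S} {q : β → QS S}
    {R : κ → QS S} {z : QS S} {r : ℝ} {ρ : κ → Polynomial (QS S)} {ζ : Polynomial (QS S)}
    {cc : ℕ → MvPolynomial κ (QS S)}
    (line : ∀ a, ∃ f u : QS S, dg f 1 ≤ io bW ∧ dg u 1 ≤ io bW ∧ q a = f + t * u)
    (treal : 1 ≤ h (dg t 1) X) (hρ : ∀ k, ρ k ∈ PK1 X) (hρb : ∀ k j, j ≠ 0 → dg ((ρ k).coeff j) 1 ≤ io bW)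
    (hζ : ζ ∈ PK1 X) (hcb : ∀ l, cc l ∈ PK (io bW))
    (hR : ∀ k, R k - (ρ k).eval t ∈ Id S r) (hz : z - ζ.eval t ∈ Id S r)
    (hζc : ∀ l, l ≠ 0 → ζ.coeff l - MvPolynomial.eval (fun k => (ρ k).coeff 0) (cc l) ∈ Id S r)
    {νe νf : Type} [Fintype νe] [Fintype νf] (eb : νe → QS S) (ex : νf → QS S) (heb : vd eb 1 ≤ io bW)
    (hex : vd ex 1 ≤ X) :
    ∃ (νb νx : Type) (_ : Fintype νb) (_ : Fintype νx) (fb : νb → QS S) (fx : νx → QS S)
      (cc' : ℕ → MvPolynomial κ (QS S)), (∀ i, ∃ j, fb j = eb i) ∧ (∀ i, ∃ j, fx j = ex i) ∧ vd fx 1 ≤ X ∧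
        Cur bW xW fb fx t q R z r ρ ζ cc' := by
  classical
  obtain ⟨F, G, E, h1, h2, h3, h4, h5, h6⟩ := coeff_fin ρ ζ cc ζ.natDegree
  choose lf lu hlf hlu hl using line
  have hbX : io bW ≤ io xW := by
    obtain ⟨e, he⟩ := hbx
    have h7 : io bW = io (fun k ω => e k (xW k ω)) := by
      congr 1
      funext k ω
      exact he k ω
    rw [h7]
    exact io_comp_le hxW e
  -- families
  obtain ⟨Fb, hFb⟩ : ∃ Fb : Finset (QS S), Fb = univ.image eb ∪ (univ.image lf ∪ (univ.image lu ∪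
    (G.filter (fun x => dg x 1 ≤ io bW) ∪ E.filter (fun x => dg x 1 ≤ io bW)))) := ⟨_, rfl⟩
  obtain ⟨Fx, hFx⟩ : ∃ Fx : Finset (QS S), Fx = univ.image ex ∪ (Fb ∪ (F ∪ E)) := ⟨_, rfl⟩
  have kFb : ∀ x ∈ Fb, dg x 1 ≤ io bW := by
    intro x hx
    rw [hFb] at hx
    rcases mem_union.mp hx with hx | hx
    · obtain ⟨i, _, rfl⟩ := mem_image.mp hx
      exact (dg_le_vd eb 1 i).trans heb
    rcases mem_union.mp hx with hx | hx
    · obtain ⟨i, _, rfl⟩ := mem_image.mp hx
      exact hlf i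
    rcases mem_union.mp hx with hx | hx
    · obtain ⟨i, _, rfl⟩ := mem_image.mp hx
      exact hlu i
    rcases mem_union.mp hx with hx | hx
    · exact (mem_filter.mp hx).2
    · exact (mem_filter.mp hx).2
  have kFx : ∀ x ∈ Fx, dg x 1 ≤ X := by
    intro x hx
    rw [hFx] at hx
    rcases mem_union.mp hx with hx | hx
    · obtain ⟨i, _, rfl⟩ := mem_image.mp hx
      exact (dg_le_vd ex 1 i).trans hex
    rcases mem_union.mp hx with hx | hx
    · exact (kFb x hx).trans (hbX.trans hX)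
    rcases mem_union.mp hx with hx | hx
    · obtain ⟨j, rfl⟩ := h5 x hx
      exact hζ j
    · obtain ⟨k, j, rfl⟩ := h4 x hx
      exact hρ k j
  obtain ⟨fb, hfb⟩ : ∃ fb : {x // x ∈ Fb} → QS S, fb = fun x => x.1 := ⟨_, rfl⟩
  obtain ⟨fx, hfx⟩ : ∃ fx : {x // x ∈ Fx} → QS S, fx = fun x => x.1 := ⟨_, rfl⟩
  have mb : ∀ x ∈ Fb, x ∈ LF bW fb := by
    intro x hx
    have h7 := LF_mem (V := bW) (f := fb) ⟨x, hx⟩
    rwa [hfb] at h7 ⊢
  have mx : ∀ x ∈ Fx, x ∈ LF xW fx := by
    intro x hx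
    have h7 := LF_mem (V := xW) (f := fx) ⟨x, hx⟩
    rwa [hfx] at h7 ⊢
  have vfx : vd fx 1 ≤ X := by
    rw [vd_le, hfx]
    exact fun x => kFx x.1 x.2
  refine ⟨{x // x ∈ Fb}, {x // x ∈ Fx}, inferInstance, inferInstance, fb, fx,
    fun l => if l ≤ ζ.natDegree then cc l else 0, ?_, ?_, vfx, ?_⟩
  · intro i
    refine ⟨⟨eb i, ?_⟩, by rw [hfb]⟩
    rw [hFb]
    exact mem_union_left _ (mem_image_of_mem eb (mem_univ i))
  · intro i
    refine ⟨⟨ex i, ?_⟩, by rw [hfx]⟩
    rw [hFx]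
    exact mem_union_left _ (mem_image_of_mem ex (mem_univ i))
  · refine
      { bdd := hbW
        bddx := hxW
        bx := hbx
        fbk := by
          rw [vd_le, hfb]
          exact fun x => kFb x.1 x.2
        fbx := ?_
        line := ?_
        treal := le_antisymm (h_dg_le_one _ _) (treal.trans (h_anti (sup_le hX vfx)))
        ρx := ?_
        ρb := ?_
        ζx := ?_
        cb := ?_
        R := hR
        z := hz
        ζc := ?_ }
    · intro a
      rw [hfb]
      apply mx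
      rw [hFx]
      exact mem_union_right _ (mem_union_left _ a.2)
    · intro a
      refine ⟨lf a, mb _ ?_, lu a, mb _ ?_, hl a⟩
      · rw [hFb]
        exact mem_union_right _ (mem_union_left _ (mem_image_of_mem lf (mem_univ a)))
      · rw [hFb]
        exact mem_union_right _ (mem_union_right _ (mem_union_left _ (mem_image_of_mem lu (mem_univ a))))
    · intro k j
      rcases h1 k j with h | h
      · apply mx
        rw [hFx]
        exact mem_union_right _ (mem_union_right _ (mem_union_right _ h))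
      · rw [h]
        exact Subring.zero_mem _
    · intro k j hj
      rcases h1 k j with h | h
      · apply mb
        rw [hFb]
        exact mem_union_right _ (mem_union_right _ (mem_union_right _ (mem_union_right _
          (mem_filter.mpr ⟨h, hρb k j hj⟩))))
      · rw [h]
        exact Subring.zero_mem _
    · intro j
      rcases h2 j with h | h
      · apply mx
        rw [hFx]
        exact mem_union_right _ (mem_union_right _ (mem_union_left _ h))
      · rw [h]
        exact Subring.zero_mem _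
    · intro l
      by_cases hl : l ≤ ζ.natDegree
      · rw [if_pos hl]
        intro m
        rcases h3 l hl m with h | h
        · apply mb
          rw [hFb]
          exact mem_union_right _ (mem_union_right _ (mem_union_right _ (mem_union_left _
            (mem_filter.mpr ⟨h, hcb l m⟩))))
        · rw [h]
          exact Subring.zero_mem _
      · rw [if_neg hl]
        exact (CS _).zero_mem
    · intro l hl0
      by_cases hl : l ≤ ζ.natDegree
      · rw [if_pos hl]
        exact hζc l hl0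
      · rw [if_neg hl, map_zero, Polynomial.coeff_eq_zero_of_natDegree_lt (not_le.mp hl), sub_zero]
        exact Ideal.zero_mem _

end

end Pool.Agent.Helper14.WLK
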