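import Pool.Agent.Helper14.WLK.Zm

/-! Transports on the zoom: from the space to the zoomed space. -/

set_option autoImplicit false
set_option linter.unusedSectionVars false

namespace Pool.Agent.Helper14.WLK

open Finset Filter Topology Pool.Agent.Helper69.RK Pool.Agent.Helper31.EC Pool.Agent.Helper31.EC.Sp
open Pool.Agent.Helper31.EC.QS Pool.Agent.Helper57.TA Pool.Agent.Helper21.DO Pool.Agent.Helper95.RIG
open Pool.Agent.Helper79.JET Pool.Agent.Helper79.WLK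
open Pool.Agent.Helper13.AM (cQ cQ_dg cQ_vd cQ_mem cQ_eq cQ_surj dg_scl)

noncomputable section

variable {S : Sp}

theorem map_evalQ {A B σ : Type} [CommRing A] [CommRing B] (φ : A →+* B) (x : σ → A) (F : MvPolynomial σ A) :
    φ (MvPolynomial.eval x F) = MvPolynomial.eval (fun a => φ (x a)) (MvPolynomial.map φ F) := by
  rw [← MvPolynomial.eval₂_id, MvPolynomial.hom_eval₂, MvPolynomial.eval_map]
  rfl

section lev

variable (V : S.Inf) {e : ℝ} (he : 0 < e) (h1 : e ≤ 1)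

/-- knowledge over the new base -/
theorem cQ_know {f : QS S} {B : S.L} (hf : dg f 1 ≤ B) : dg (cQ V.1 e he h1 f) 1 ≤ chgL V.1 e he B := by
  rw [cQ_dg V.1 e he h1 f le_rfl, mul_one]
  exact chgL_mono V.1 e he ((dg_mono _ h1).trans hf)

/-- smallness over the new base -/
theorem cQ_Id {f : QS S} {c r : ℝ} (hf : f ∈ Id S c) (hr : r ≤ 1) (hrc : e * r ≤ c) :
    cQ V.1 e he h1 f ∈ Id (S.chg V.1 e he) r := by
  rw [cQ_mem V.1 e he h1 hr]
  exact Id_mono hrc hf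

/-- the base is trivial -/
theorem chgL_sup_base (B : S.L) : chgL V.1 e he (B ⊔ cl V) = chgL V.1 e he B := by
  rw [chgL_sup, chgL_base, sup_bot_eq]

end lev

variable {β κ : Type} [Fintype β] [Fintype κ] {νb νx νg : Type} [Fintype νb] [Fintype νx] [Fintype νg]
    {α αx : ℕ → Type} {bV : ∀ k, (S.F k).Ω → α k} {xV : ∀ k, (S.F k).Ω → αx k} {fb : νb → QS S} {fx : νx → QS S}
    {g : νg → QS S} {t : QS S}
    {q : β → QS S} {R : κ → QS S} {z : QS S} {wt : κ → ℝ} {w y ℓ kap : ℝ} {tc : QS S} {qc : β → QS S}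
    {Pc : κ → MvPolynomial β (QS S)} {Fc : MvPolynomial (β ⊕ κ) (QS S)} {t' : QS S} {R' : κ → QS S} {z' : QS S}

/-- lines in the box -/
theorem line_box (hF : FarK bV xV fb fx g t q R z wt w y ℓ kap tc qc Pc Fc t' R' z') (hy0 : 0 ≤ y) {e : ℝ}
    (hye : y + e ≤ 1) (a : β) {X : QS S} (hX : q a - qc a = sc S y * X) :
    ∃ u : QS S, dg u 1 ≤ io bV ∧ dg (X - t' * u) e ≤ io bV ⊔ vd g 1 := by
  obtain ⟨f, hf, u, hu, hqa⟩ := hF.line a
  have kb : ∀ {c : QS S}, c ∈ LF bV fb → dg c 1 ≤ io bV := fun h => (LF_know hF.bdd h).trans (sup_le le_rfl hF.fbk)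
  refine ⟨u, kb hu, ?_⟩
  have e1 : sc S y * (X - t' * u) = f + tc * u - qc a := by
    have h2 := hF.nt
    have h3 : q a = f + (tc + sc S y * t') * u := by rw [← h2]; exact hqa
    linear_combination -hX + h3
  have h4 : dg (X - t' * u) e = dg (sc S y * (X - t' * u)) (y + e) := by
    rw [dg_scl _ hy0 hye]
    congr 1
    ring
  rw [h4, e1]
  refine (dg_mono _ hye).trans ?_
  have h5 : f + tc * u - qc a ∈ Kn S 1 le_rfl (io bV ⊔ vd g 1) := by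
    refine (Kn S 1 le_rfl _).sub_mem ((Kn S 1 le_rfl _).add_mem ?_ ((Kn S 1 le_rfl _).mul_mem ?_ ?_)) ?_
    · exact (kb hf).trans le_sup_left
    · exact (LG_know hF.tcg).trans le_sup_right
    · exact (kb hu).trans le_sup_left
    · exact (LG_know (hF.qcg a)).trans le_sup_right
  exact h5

/-- the height in the box over the curve -/
theorem time_box (hF : FarK bV xV fb fx g t q R z wt w y ℓ kap tc qc Pc Fc t' R' z') (hy0 : 0 ≤ y) (hy1 : y ≤ 1)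
    {e : ℝ} (hye : y + e ≤ 1) : e ≤ h (dg t' e) (io xV ⊔ vd fx 1 ⊔ vd g 1) := by
  have h1 : 1 - y ≤ h (dg t' (1 - y)) (io xV ⊔ vd fx 1 ⊔ vd g 1) := by
    refine hF.tbox.trans ?_
    have h2 : dg t 1 ≤ dg t' (1 - y) ⊔ vd g 1 := by
      have h3 : t ∈ Kn S 1 le_rfl (dg t' (1 - y) ⊔ vd g 1) := by
        rw [hF.nt]
        refine (Kn S 1 le_rfl _).add_mem ((LG_know hF.tcg).trans le_sup_right) ?_
        show dg (sc S y * t') 1 ≤ _
        rw [dg_scl _ hy0 le_rfl]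
        exact le_sup_left
      exact h3
    have h4 : h (dg t 1) (io xV ⊔ vd fx 1 ⊔ vd g 1) ≤ h (dg t' (1 - y) ⊔ vd g 1) (io xV ⊔ vd fx 1 ⊔ vd g 1) :=
      h_mono h2
    refine h4.trans ?_
    have h5 := h_sup_le (dg t' (1 - y)) (vd g 1) (io xV ⊔ vd fx 1 ⊔ vd g 1)
    have h6 : h (vd g 1) (io xV ⊔ vd fx 1 ⊔ vd g 1) = 0 := h_zero le_sup_right
    rw [h6, add_zero] at h5
    exact h5
  exact h_dg_full t' (by linarith) h1

/-- THE ZOOM OF A TYPE: transports which are polynomials in the box, on the zoomed space -/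
theorem FarK.cur (hF : FarK bV xV fb fx g t q R z wt w y ℓ kap tc qc Pc Fc t' R' z') (hℓ : 0 < ℓ) (hy0 : 0 < y)
    (hy1 : y < 1) (hwy : 0 ≤ w * y) (hw0 : ∀ k, 0 ≤ wt k * y)
    (hww : ∀ k, wt k * y + w * y ≤ 1) (hℓ1 : ℓ ≤ 1) (hℓw : ∀ k, ℓ ≤ 1 - wt k * y)
    {c : ℝ} (hc0 : 0 ≤ c) (hc : c ≤ y) (hk1 : kap ≤ 1) (hcw : w * y + c ≤ kap) (hck : ∀ k, wt k * y + c ≤ kap)
    (hkℓ : ∀ k, wt k * y + ℓ ≤ kap)
    (V : S.Inf) (hV : cl V = vd g 1) {e : ℝ} (he : 0 < e) (h1 : e ≤ 1) (hye : y + e ≤ 1) {r : ℝ} (hr1 : r ≤ 1)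
    (hrc : e * r ≤ c) {αb αy : ℕ → Type} (bW : ∀ k, ((S.chg V.1 e he).F k).Ω → αb k)
    (xW : ∀ k, ((S.chg V.1 e he).F k).Ω → αy k) (hbW : Bdd bW) (hxW : Bdd xW)
    (hbx : ∃ e : ∀ k, αy k → αb k, ∀ k ω, bW k ω = e k (xW k ω))
    (hB : chgL V.1 e he (io bV) ≤ io bW) (hX : io xW ≤ chgL V.1 e he (io xV ⊔ vd fx 1))
    {q' : β → QS (S.chg V.1 e he)} (hq : ∀ a, ∃ X : QS S, q a - qc a = sc S y * X ∧ q' a = cQ V.1 e he h1 X)
    {νe νf : Type} [Fintype νe] [Fintype νf] (eb : νe → QS (S.chg V.1 e he)) (ex : νf → QS (S.chg V.1 e he))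
    (heb : vd eb 1 ≤ io bW) (hex : vd ex 1 ≤ chgL V.1 e he (io xV ⊔ vd fx 1)) :
    ∃ (nb nx : Type) (_ : Fintype nb) (_ : Fintype nx) (fb' : nb → QS (S.chg V.1 e he))
      (fx' : nx → QS (S.chg V.1 e he)) (ρ : κ → Polynomial (QS (S.chg V.1 e he)))
      (ζ : Polynomial (QS (S.chg V.1 e he))) (cc : ℕ → MvPolynomial κ (QS (S.chg V.1 e he))),
      (∀ i, ∃ j, fb' j = eb i) ∧ (∀ i, ∃ j, fx' j = ex i) ∧ vd fx' 1 ≤ chgL V.1 e he (io xV ⊔ vd fx 1) ∧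
        Cur bW xW fb' fx' (cQ V.1 e he h1 t') q' (fun k => cQ V.1 e he h1 (R' k)) (cQ V.1 e he h1 z') r ρ ζ cc := by
  classical
  obtain ⟨ρ, ζ, cc, hO⟩ := hF.main hℓ hy0 hy1 hwy hw0 hww hℓ1 hℓw hc0 hc hk1 hcw hck hkℓ
  obtain ⟨φ, hφ⟩ : ∃ φ : QS S →+* QS (S.chg V.1 e he), φ = cQ V.1 e he h1 := ⟨_, rfl⟩
  rw [← hφ]
  have kB : ∀ {f : QS S}, dg f 1 ≤ io bV ⊔ vd g 1 → dg (φ f) 1 ≤ io bW := by
    intro f hf
    rw [hφ]
    refine (cQ_know V he h1 hf).trans ?_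
    rw [← hV, chgL_sup_base]
    exact hB
  have kX : ∀ {f : QS S}, dg f 1 ≤ io xV ⊔ vd fx 1 ⊔ vd g 1 → dg (φ f) 1 ≤ chgL V.1 e he (io xV ⊔ vd fx 1) := by
    intro f hf
    rw [hφ]
    refine (cQ_know V he h1 hf).trans ?_
    rw [← hV, chgL_sup_base]
  have kI : ∀ {f : QS S}, f ∈ Id S c → φ f ∈ Id (S.chg V.1 e he) r := by
    intro f hf
    rw [hφ]
    exact cQ_Id V he h1 hf hr1 hrc
  have hev : ∀ (P : Polynomial (QS S)) (x : QS S), φ (P.eval x) = (P.map φ).eval (φ x) := fun P x => by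
    rw [Polynomial.eval_map, Polynomial.eval₂_at_apply]
  have g1 : ∀ a, ∃ f u : QS (S.chg V.1 e he), dg f 1 ≤ io bW ∧ dg u 1 ≤ io bW ∧ q' a = f + φ t' * u := by
    intro a
    obtain ⟨X, hX1, hX2⟩ := hq a
    obtain ⟨u, hu1, hu2⟩ := line_box hF hy0.le hye a hX1
    refine ⟨φ (X - t' * u), φ u, ?_, kB (hu1.trans le_sup_left), ?_⟩
    · rw [hφ, cQ_dg V.1 e he h1 _ le_rfl, mul_one]
      refine (chgL_mono V.1 e he hu2).trans ?_
      rw [← hV, chgL_sup_base]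
      exact hB
    · rw [hX2, ← hφ, ← map_mul, ← map_add]
      congr 1
      ring
  have g2 : 1 ≤ h (dg (φ t') 1) (chgL V.1 e he (io xV ⊔ vd fx 1)) := by
    rw [hφ, cQ_dg V.1 e he h1 _ le_rfl, mul_one, h_chgL_inf, le_div_iff₀ he, one_mul, hV]
    exact time_box hF hy0.le hy1.le hye
  have g3 : ∀ k, (ρ k).map φ ∈ PK1 (chgL V.1 e he (io xV ⊔ vd fx 1)) := by
    intro k n
    show dg (((ρ k).map φ).coeff n) 1 ≤ _
    rw [Polynomial.coeff_map]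
    exact kX (hO.ρX k n)
  have g4 : ∀ k j, j ≠ 0 → dg (((ρ k).map φ).coeff j) 1 ≤ io bW := by
    intro k j hj
    rw [Polynomial.coeff_map]
    exact kB (hO.ρB k j hj)
  have g5 : ζ.map φ ∈ PK1 (chgL V.1 e he (io xV ⊔ vd fx 1)) := by
    intro n
    show dg ((ζ.map φ).coeff n) 1 ≤ _
    rw [Polynomial.coeff_map]
    exact kX (hO.ζX n)
  have g6 : ∀ l, MvPolynomial.map φ (cc l) ∈ PK (io bW) := by
    intro l m
    show dg ((MvPolynomial.map φ (cc l)).coeff m) 1 ≤ _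
    rw [MvPolynomial.coeff_map]
    exact kB (hO.cB l m)
  have g7 : ∀ k, φ (R' k) - ((ρ k).map φ).eval (φ t') ∈ Id (S.chg V.1 e he) r := by
    intro k
    rw [← hev, ← map_sub]
    exact kI (hO.R k)
  have g8 : φ z' - (ζ.map φ).eval (φ t') ∈ Id (S.chg V.1 e he) r := by
    rw [← hev, ← map_sub]
    exact kI hO.z
  have g9 : ∀ l, l ≠ 0 → (ζ.map φ).coeff l - MvPolynomial.eval (fun k => ((ρ k).map φ).coeff 0)
      (MvPolynomial.map φ (cc l)) ∈ Id (S.chg V.1 e he) r := by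
    intro l hl
    have h6 := kI (hO.ζc l hl)
    refine (congrArg (· ∈ Id (S.chg V.1 e he) r) ?_).mp h6
    rw [map_sub, Polynomial.coeff_map, map_evalQ]
    congr 2
    congr 1
    funext k
    rw [Polynomial.coeff_map]
  obtain ⟨nb, nx, inst1, inst2, fb', fx', cc', h2, h3, h4, h5⟩ := Cur.of_know hbW hxW hbx hX g1 g2 g3 g4 g5 g6 g7 g8
    g9 eb ex heb hex
  exact ⟨nb, nx, inst1, inst2, fb', fx', _, _, cc', h2, h3, h4, h5⟩

end

end Pool.Agent.Helper14.WLK
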